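import Pool.Agent.Lib.MP_a839f6_an.ZR

namespace Pool.Agent.Lib.MP_a839f6_an

open Matrix Filter Topology Set Real
open scoped ComplexOrder

section mat

variable {ι S : Type*} [Fintype ι] [inst : DecidableEq ι] [LinearOrder S] {w : ι → S}

lemma det_tri (hw : Function.Injective w) {U : Matrix ι ι ℂ} (h : ∀ i j, w j < w i → U i j = 0) :
    U.det = ∏ i, U i i := by
  letI := LinearOrder.lift' w hw
  exact det_of_isUpperTriangular fun i j hij => h i j hij

lemma conj_diag (F U : Matrix ι ι ℂ) (i : ι) : ((Uᴴ * F * U) i i).re = qf F fun j => U j i := by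
  rw [qf, Matrix.mul_assoc]
  rfl

lemma det_conj_one (hw : Function.Injective w) (F : Matrix ι ι ℂ) {U : Matrix ι ι ℂ}
    (h : ∀ i j, w j < w i → U i j = 0) (h1 : ∀ i, U i i = 1) : (Uᴴ * F * U).det = F.det := by
  have : U.det = 1 := by rw [det_tri hw h]; simp [h1]
  simp [det_mul, det_conjTranspose, this]

lemma exists_ldl (hw : Function.Injective w) {F : Matrix ι ι ℂ} (hF : F.PosDef) :
    ∃ U : Matrix ι ι ℂ, (∀ i j, w j < w i → U i j = 0) ∧ (∀ i, U i i = 1) ∧
      F.det.re = ∏ i, qf F fun j => U j i := by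
  obtain ⟨L, h1, h2, h3⟩ : ∃ L : Matrix ι ι ℂ, (∀ i j, w i < w j → L i j = 0) ∧ L.det ≠ 0 ∧
      ∀ i j, i ≠ j → (L * F * Lᴴ) i j = 0 := by
    letI o := LinearOrder.lift' w hw
    have e : inst = o.toDecidableEq := Subsingleton.elim _ _
    subst e
    letI : LocallyFiniteOrderBot ι := LocallyFiniteOrderBot.ofIic ι
      (fun i => Finset.univ.filter (· ≤ i)) (by simp)
    refine ⟨LDL.lowerInv hF, fun i j hij => LDL.lowerInv_triangular hF hij,
      (isUnit_det_of_invertible _).ne_zero, fun i j hij => ?_⟩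
    rw [← LDL.diag_eq_lowerInv_conj, LDL.diag, diagonal_apply_ne _ hij]
  have h4 : ∀ i, L i i ≠ 0 := by
    rw [← det_transpose, det_tri hw (U := Lᵀ) fun i j hij => h1 j i hij,
      Finset.prod_ne_zero_iff] at h2
    exact fun i => h2 i (Finset.mem_univ _)
  let U := (diagonal (fun i => (L i i)⁻¹) * L)ᴴ
  have hU : ∀ i j, w j < w i → U i j = 0 := fun i j hij => by
    simp [U, h1 j i hij]
  have hU1 : ∀ i, U i i = 1 := fun i => by
    simp only [U, conjTranspose_apply, diagonal_mul, inv_mul_cancel₀ (h4 i), star_one]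
  refine ⟨U, hU, hU1, ?_⟩
  have h5 : ∀ i j, w j < w i → (Uᴴ * F * U) i j = 0 := fun i j hij => by
    have : Uᴴ * F * U = diagonal (fun i => (L i i)⁻¹) * (L * F * Lᴴ) *
        (diagonal fun i => (L i i)⁻¹)ᴴ := by
      simp only [U, conjTranspose_conjTranspose, conjTranspose_mul, Matrix.mul_assoc]
    rw [this, diagonal_conjTranspose, mul_diagonal, diagonal_mul,
      h3 i j (fun h => by simp [h] at hij), mul_zero, zero_mul]
  rw [← det_conj_one hw F hU hU1, det_tri hw h5, ← Complex.ofReal_re (∏ i, qf F _),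
    Complex.ofReal_prod]
  congr 1
  refine Finset.prod_congr rfl fun i _ => ?_
  have := (Complex.nonneg_iff.1 ((hF.posSemidef.conjTranspose_mul_mul_same U).diag_nonneg
    (i := i))).2
  rw [← conj_diag]
  apply Complex.ext <;> simp [this.symm]

end mat

variable {n : ℕ} {F : (Fin n →₀ ℕ) → ℝ} {C : ℝ}

lemma degree_expo {k : ℕ} (α : Idx n k) : (expo α).degree ≤ k := by
  rw [Finsupp.degree_eq_sum]; exact sum_expo_le α

lemma avg_le (h0 : ∀ d, 0 ≤ F d) (ha : ∀ d e, F (d + e) ≤ F d + F e) (hC0 : 0 ≤ C)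
    (hC : ∀ d, F d ≤ C * d.degree) {k m q : ℕ} (hq : 0 < q) (hk : k ≤ q * m) :
    ∑ α : Idx n k, F (expo α) ≤ q ^ (n + 1) * (∑ β : Idx n m, F (expo β) + C * n * NN n m) := by
  have hs : ∀ (j : ℕ) d, F (j • d) ≤ j * F d := fun j d => by
    induction j with
    | zero => simpa using hC 0
    | succ j ih => rw [succ_nsmul]; push_cast; linarith [ha (j • d) d]
  have : ∀ α : Idx n k, ∃ x : Idx n m × (Fin n → Fin q),
      expo α = q • expo x.1 + Finsupp.equivFunOnFinite.symm fun i => (x.2 i : ℕ) := fun α => by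
    obtain ⟨β, hβ⟩ := exists_expo (k := m)
      (d := Finsupp.equivFunOnFinite.symm fun i => expo α i / q) (by
        refine le_of_mul_le_mul_left (le_trans ?_ ((sum_expo_le α).trans hk)) hq
        rw [Finset.mul_sum]
        exact Finset.sum_le_sum fun i _ => Nat.mul_div_le _ _)
    refine ⟨(β, fun i => ⟨expo α i % q, Nat.mod_lt _ hq⟩), ?_⟩
    ext i
    rw [hβ]
    exact (Nat.div_add_mod _ _).symm
  choose e he using this
  have hi : Function.Injective e := fun α β h => expo_injective (by rw [he, he, h])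
  let g : Idx n m × (Fin n → Fin q) → ℝ := fun x => q * F (expo x.1) + C * (n * q)
  have h1 : ∀ α, F (expo α) ≤ g (e α) := fun α => by
    rw [he]
    refine (ha _ _).trans (add_le_add (hs _ _) ((hC _).trans (mul_le_mul_of_nonneg_left ?_ hC0)))
    rw [Finsupp.degree_eq_sum]
    have := Finset.sum_le_card_nsmul Finset.univ (fun i => ((e α).2 i : ℕ)) q
      fun i _ => ((e α).2 i).2.le
    rw [Finset.card_univ, Fintype.card_fin, smul_eq_mul] at this
    exact_mod_cast this
  refine (Finset.sum_le_sum fun α _ => h1 α).trans ?_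
  rw [← Finset.sum_image (f := g) hi.injOn]
  refine (Finset.sum_le_sum_of_subset_of_nonneg (Finset.subset_univ _) fun x _ _ =>
    add_nonneg (mul_nonneg q.cast_nonneg (h0 _)) (by positivity)).trans_eq ?_
  rw [Fintype.sum_prod_type]
  simp only [g, Finset.sum_const, Finset.card_univ, Fintype.card_fun, Fintype.card_fin,
    nsmul_eq_mul, mul_add, Finset.sum_add_distrib, ← Finset.mul_sum]
  push_cast
  ring

lemma avg_conv (h0 : ∀ d, 0 ≤ F d) (ha : ∀ d e, F (d + e) ≤ F d + F e) (hC0 : 0 ≤ C)
    (hC : ∀ d, F d ≤ C * d.degree) :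
    ∃ L, Tendsto (fun k : ℕ => (∑ α : Idx n k, F (expo α)) / (k * NN n k)) atTop (𝓝 L) := by
  set S : ℕ → ℝ := fun k : ℕ => (∑ α : Idx n k, F (expo α)) / (k * NN n k) with hS
  have S0 : ∀ k, 0 ≤ S k := fun k =>
    div_nonneg (Finset.sum_nonneg fun _ _ => h0 _) (by positivity)
  have S1 : ∀ k, S k ≤ C := fun k => by
    refine div_le_of_le_mul₀ (by positivity) hC0 ?_
    have := Finset.sum_le_card_nsmul Finset.univ (fun α : Idx n k => F (expo α)) (C * k)
      fun α _ => (hC _).trans (mul_le_mul_of_nonneg_left (by exact_mod_cast degree_expo α) hC0)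
    rw [Finset.card_univ, nsmul_eq_mul] at this
    linarith
  have b0 : IsCoboundedUnder (· ≤ ·) atTop S := isCoboundedUnder_le_of_le _ S0
  have b1 : IsBoundedUnder (· ≤ ·) atTop S := isBoundedUnder_of ⟨C, S1⟩
  have hη : Tendsto (fun m : ℕ => ((1 + (n : ℝ) / m) ^ n - 1) * C + (1 + (n : ℝ) / m) ^ n *
      (C * (n / m))) atTop (𝓝 0) := by
    have t := tendsto_const_div_atTop_nhds_zero_nat (n : ℝ)
    have := ((((t.const_add 1).pow n).sub_const 1).mul_const C).add
      (((t.const_add 1).pow n).mul (t.const_mul C))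
    simpa using this
  have key : ∀ m : ℕ, 0 < m → limsup S atTop ≤ S m + (((1 + (n : ℝ) / m) ^ n - 1) * C +
      (1 + (n : ℝ) / m) ^ n * (C * (n / m))) := fun m hm => by
    have hm' : (0 : ℝ) < m := by exact_mod_cast hm
    set A := ∑ β : Idx n m, F (expo β) + C * n * NN n m with hA
    have hN := one_le_NN n m
    have hA0 : 0 ≤ A := add_nonneg (Finset.sum_nonneg fun _ _ => h0 _) (by positivity)
    have t := (((tendsto_const_div_atTop_nhds_zero_nat (1 : ℝ)).const_add (1 / (m : ℝ))).pow
      (n + 1)).mul_const (n.factorial * A)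
    refine ((limsup_le_limsup ?_ b0 t.isBoundedUnder_le).trans_eq t.limsup_eq).trans ?_
    · filter_upwards [eventually_gt_atTop 0] with k hk
      have hk' : (0 : ℝ) < k := by exact_mod_cast hk
      have hN' := one_le_NN n k
      have a1 := avg_le h0 ha hC0 hC (k := k) (m := m) (q := k / m + 1) (Nat.succ_pos _)
        (by rw [mul_comm]; exact (Nat.lt_mul_div_succ k hm).le)
      have a2 : ((k / m + 1 : ℕ) : ℝ) ≤ (1 / m + 1 / k) * k := by
        have : ((k / m : ℕ) : ℝ) ≤ k / m := Nat.cast_div_le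
        push_cast
        refine (add_le_add this le_rfl).trans_eq ?_
        field_simp
      rw [hS, div_le_iff₀ (by positivity)]
      refine a1.trans ((mul_le_mul_of_nonneg_right (pow_le_pow_left₀ (by positivity) a2 _)
        hA0).trans ?_)
      rw [mul_pow, mul_assoc, mul_assoc]
      refine mul_le_mul_of_nonneg_left ?_ (by positivity)
      have := mul_le_mul_of_nonneg_left (pow_le_NN n k) (mul_nonneg hk'.le hA0)
      rw [pow_succ]
      linarith
    · have a1 : A = NN n m * m * (S m + C * (n / m)) := by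
        rw [hA, hS]; field_simp
      have a2 := mul_le_mul_of_nonneg_right (NN_le_pow n m)
        (show 0 ≤ (S m + C * (n / m)) / m ^ n from div_nonneg (add_nonneg (S0 m) (by positivity))
          (by positivity))
      have a3 : (1 + (n : ℝ) / m) ^ n = (m + n) ^ n / m ^ n := by
        rw [← div_pow]; congr 1; field_simp
      have a4 : 1 ≤ (1 + (n : ℝ) / m) ^ n := one_le_pow₀ (le_add_of_nonneg_right (by positivity))
      have a5 := mul_le_mul_of_nonneg_left (S1 m) (sub_nonneg.2 a4)
      calc (1 / (m : ℝ) + 0) ^ (n + 1) * (n.factorial * A)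
          = n.factorial * NN n m * ((S m + C * (n / m)) / m ^ n) := by
            rw [a1, add_zero, div_pow, one_pow, pow_succ]; field_simp
        _ ≤ (1 + (n : ℝ) / m) ^ n * (S m + C * (n / m)) := by
            refine a2.trans_eq ?_
            rw [a3]; ring
        _ ≤ _ := by linarith
  refine ⟨limsup S atTop, tendsto_order.2 ⟨fun a ha => ?_, fun a ha =>
    eventually_lt_of_limsup_lt ha b1⟩⟩
  filter_upwards [eventually_gt_atTop 0, hη.eventually (gt_mem_nhds (sub_pos.2 ha))] with m h1 h2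
  linarith [key m h1]

end Pool.Agent.Lib.MP_a839f6_an
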