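import Pool.Agent.Lib.MP_a839f6_an.Morse

namespace Pool.Agent.Lib.MP_a839f6_an

open MeasureTheory Matrix Filter Topology Metric Set Real
open scoped ContDiff ComplexOrder ComplexConjugate

variable {n k : ℕ} {R : ℝ}

/-- dimension of the space of polynomials -/
abbrev NN (n k : ℕ) : ℕ := Fintype.card (Idx n k)

lemma pow_le_NN (n k : ℕ) : (k : ℝ) ^ n ≤ n.factorial * NN n k := by
  have h1 := Nat.ascFactorial_eq_factorial_mul_choose k n
  have h2 := Nat.pow_succ_le_ascFactorial (k + 1) n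
  rw [h1, ← Nat.choose_symm_add, add_comm k n, ← card_Idx] at h2
  exact_mod_cast (Nat.pow_le_pow_left (Nat.le_succ k) n).trans h2

lemma NN_le_pow (n k : ℕ) : (n.factorial * NN n k : ℝ) ≤ (k + n) ^ n := by
  have h1 := Nat.ascFactorial_eq_factorial_mul_choose k n
  have h2 := Nat.ascFactorial_le_pow_add k n
  rw [h1, ← Nat.choose_symm_add, add_comm k n, ← card_Idx, add_comm n k] at h2
  exact_mod_cast h2

lemma one_le_NN (n k : ℕ) : (1 : ℝ) ≤ NN n k := by exact_mod_cast Fintype.card_pos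

/-- Bergman density -/
noncomputable def bd (R : ℝ) (k : ℕ) (φ : (Fin n → ℂ) → ℝ) (z : Fin n → ℂ) : ℝ :=
  wt k φ z * berg (gw R k φ) (mono k z)

@[fun_prop] lemma continuous_bd {φ : (Fin n → ℂ) → ℝ} (hφ : Continuous φ) :
    Continuous (bd R k φ) := by unfold bd; fun_prop

lemma bd_nonneg {φ : (Fin n → ℂ) → ℝ} (hφ : Continuous φ) (hR : 0 < R) (z : Fin n → ℂ) :
    0 ≤ bd R k φ z := mul_nonneg (wt_pos _ _ _).le (berg_nonneg (gw_pd hφ hR) _)

lemma step {φ f : (Fin n → ℂ) → ℝ} (hφ : Continuous φ) (hf : Continuous f) (hR : 0 < R)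
    (h : ∀ z, ‖z‖ ≤ R → 0 ≤ f z ∧ 2 * k * f z ≤ 1) :
    (gw R k fun z => φ z - f z).det.re ≤
      (gw R k φ).det.re * exp (4 * k * ∫ z in closedBall 0 R, f z * bd R k φ z) := by
  have hG := gw_pd (k := k) hφ hR
  have hφf : Continuous fun z => φ z - f z := hφ.sub hf
  refine (det_le_mul_exp (gw_pd hφf hR).posSemidef hG).trans
    (mul_le_mul_of_nonneg_left (exp_le_exp.2 ?_) (det_re_pos hG).le)
  have h1 := trace_gram (ci_ball R) (continuous_wt k hφ) (gw R k φ)
  rw [← gw, nonsing_inv_mul _ (isUnit_iff_ne_zero.2 hG.det_pos.ne'), trace_one,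
    Complex.natCast_re] at h1
  rw [h1, gw.eq_1 R k fun z => φ z - f z, trace_gram (ci_ball R) (continuous_wt k hφf),
    ← integral_sub (intOn (by fun_prop) _ _) (intOn (by fun_prop) _ _), ← integral_const_mul]
  refine setIntegral_mono_on (intOn (by fun_prop) _ _) (intOn (by fun_prop) _ _)
    measurableSet_closedBall fun z hz => ?_
  obtain ⟨a1, a2⟩ := h z (by simpa using hz)
  have a3 : 0 ≤ 2 * k * f z := by positivity
  have a4 := abs_exp_sub_one_le (x := 2 * k * f z) (by rwa [abs_of_nonneg a3])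
  rw [abs_of_nonneg a3] at a4
  have a5 : wt k (fun z => φ z - f z) z = exp (2 * k * f z) * wt k φ z := by
    rw [wt, wt, ← Real.exp_add]; congr 1; ring
  have a6 := mul_le_mul_of_nonneg_right ((le_abs_self _).trans a4) (bd_nonneg (k := k) hφ hR z)
  rw [a5]
  simp only [bd] at a6 ⊢
  linarith

lemma chain {φ f : (Fin n → ℂ) → ℝ} (hφ : Continuous φ) (hf : Continuous f) (hR : 0 < R)
    (h : ∀ z, ‖z‖ ≤ R → 0 ≤ f z) {Θ : ℝ}
    (hΘ : ∀ s ∈ Icc (0 : ℝ) 1,
      ∫ z in closedBall 0 R, f z * bd R k (fun z => φ z - s * f z) z ≤ Θ) :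
    (gw R k fun z => φ z - f z).det.re ≤ (gw R k φ).det.re * exp (4 * k * Θ) := by
  obtain ⟨F, hF⟩ := LB.of_continuous hf R
  obtain ⟨m, hm⟩ := exists_nat_gt (max 0 (2 * k * F))
  have hm0 : (0 : ℝ) < m := (le_max_left _ _).trans_lt hm
  have key : ∀ i : ℕ, i ≤ m → (gw R k fun z => φ z - i / m * f z).det.re ≤
      (gw R k φ).det.re * exp (4 * k * Θ * (i / m)) := by
    intro i
    induction i with
    | zero => intro _; simp
    | succ i ih =>
      intro hi
      have hi' : (i : ℝ) ≤ m := by exact_mod_cast (Nat.le_succ i).trans hi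
      have h1 := step (k := k) (φ := fun z => φ z - i / m * f z) (f := fun z => (m : ℝ)⁻¹ * f z)
        (by fun_prop) (by fun_prop) hR fun z hz => ⟨mul_nonneg (by positivity) (h z hz), by
          rw [mul_left_comm, inv_mul_le_iff₀ hm0, mul_one]
          exact (mul_le_mul_of_nonneg_left ((le_abs_self _).trans (hF z hz))
            (by positivity)).trans ((le_max_right _ _).trans hm.le)⟩
      have e : (fun z => φ z - ((i + 1 : ℕ) : ℝ) / m * f z) =
          fun z => φ z - i / m * f z - (m : ℝ)⁻¹ * f z := by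
        funext z; push_cast; ring
      rw [e]
      refine h1.trans ((mul_le_mul_of_nonneg_right (ih ((Nat.le_succ i).trans hi))
        (exp_pos _).le).trans ?_)
      rw [mul_assoc, ← Real.exp_add]
      refine mul_le_mul_of_nonneg_left (exp_le_exp.2 ?_) (det_re_pos (gw_pd hφ hR)).le
      have h2 := hΘ (i / m) ⟨by positivity, (div_le_one hm0).2 hi'⟩
      simp only [mul_assoc (m : ℝ)⁻¹, integral_const_mul]
      have h3 := mul_le_mul_of_nonneg_left h2 (show (0 : ℝ) ≤ 4 * k * (m : ℝ)⁻¹ by positivity)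
      push_cast
      rw [add_div, one_div]
      linarith
  simpa [div_self hm0.ne'] using key m le_rfl

lemma psd_conv {x y : SR n} (hx : ∀ z, (lv x z).PosSemidef) (hy : ∀ z, (lv y z).PosSemidef)
    {t : ℝ} (ht : t ∈ Icc (0 : ℝ) 1) (z : Fin n → ℂ) : (lv (x + t • (y - x)) z).PosSemidef := by
  have : x + t • (y - x) = (1 - t) • x + t • y := by module
  rw [this, lv_add, lv_smul, lv_smul]
  exact ((hx z).smul (sub_nonneg.2 ht.2)).add ((hy z).smul ht.1)

lemma morse_int {x y f : SR n} (hx : ∀ z, (lv x z).PosSemidef) (hy : ∀ z, (lv y z).PosSemidef)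
    (hf : ∀ z, ‖z‖ ≤ R → 0 ≤ f.1 z) {η : ℝ} (hη : 0 < η) : ∀ᶠ k : ℕ in atTop,
      ∀ s ∈ Icc (0 : ℝ) 1, ∫ z in closedBall 0 R, f.1 z * bd (R + 1) k (x + s • (y - x)).1 z ≤
        exp (n / 2) / vb n 1 * k ^ n * (om R (x + s • (y - x)) f + η) := by
  have hc := (contDiff_det (A := Sm n) (LamR R f) (levi (cx x)) (levi (cx (y - x))) 1).continuous
  obtain ⟨δ, hδ, hu⟩ := Metric.uniformContinuousOn_iff_le.1
    ((isCompact_Icc (a := ((0, 0) : ℝ × ℝ)) (b := (1, 1))).uniformContinuousOn_of_continuous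
      hc.continuousOn) η hη
  set d := min δ 1 / 4 with hd
  have hd0 : 0 < d := by positivity
  obtain ⟨r₁, hr₁, hr₁', h₁⟩ := exists_tayU x R hd0
  obtain ⟨r₂, hr₂, -, h₂⟩ := exists_tayU y R hd0
  have hr := lt_min hr₁ hr₂
  filter_upwards [eventually_gt_atTop 0, (tendsto_natCast_atTop_atTop.atTop_mul_const
    (show 0 < 4 * d * min r₁ r₂ ^ 2 by positivity)).eventually_ge_atTop (n : ℝ)] with k hk hkn s hs
  have a1 := hu (s, 4 * d) ⟨⟨hs.1, by positivity⟩, hs.2, by
      simp only [hd]; linarith [min_le_right δ 1]⟩ (s, 0) ⟨⟨hs.1, le_rfl⟩, hs.2, zero_le_one⟩ (by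
      rw [Prod.dist_eq, dist_self, Real.dist_eq, sub_zero, abs_of_pos (by positivity)]
      exact max_le hδ.le (by linarith [min_le_left δ 1]))
  simp only [← levi_cx_smul, ← map_add, zero_smul, add_zero, Real.dist_eq] at a1
  have a2 : LamR R f (levi (cx (x + s • (y - x))) + (4 * d) • 1).det = ∫ z in closedBall 0 R,
      f.1 z * (lv (x + s • (y - x)) z + (4 * d) • (1 : Matrix _ _ ℂ)).det.re := by
    rw [LamR_apply, re_Lam]
    congr 1; funext z
    rw [← Complex.re_ofReal_mul, ← ev_apply, map_mul, RingHom.map_det, map_add, ← lv]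
    congr 4
    ext i j
    by_cases h : i = j
    · subst h; simp
    · simp [h]
  have a3 := (le_abs_self _).trans a1
  rw [a2, ← om, sub_le_iff_le_add'] at a3
  have hvb := vb_pos (n := n) one_pos
  refine le_trans ?_ (mul_le_mul_of_nonneg_left a3 (by positivity))
  rw [← integral_const_mul]
  have hcd : Continuous fun z => (lv (x + s • (y - x)) z + (4 * d) • (1 : Matrix _ _ ℂ)).det.re :=
    Complex.continuous_re.comp (Continuous.matrix_det (Continuous.add
      (continuous_pi fun i => continuous_pi fun j =>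
        Sm.cont (levi (cx (x + s • (y - x))) i j)) continuous_const))
  refine setIntegral_mono_on (intOn (by fun_prop) _ _) (intOn (by fun_prop) _ _)
    measurableSet_closedBall fun z hz => ?_
  have hz' : ‖z‖ ≤ R := by simpa using hz
  rw [mul_left_comm]
  exact mul_le_mul_of_nonneg_left (morse hd0 (((h₁ z hz').mono (min_le_left _ _)).conv
    ((h₂ z hz').mono (min_le_right _ _)) hs) hr (psd_conv hx hy hs z) hk hkn
    (add_le_add hz' ((min_le_left _ _).trans hr₁'))) (hf z hz')

/-- constant in the determinant comparison -/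
noncomputable def cM (n : ℕ) : ℝ := 4 * n.factorial * (exp (n / 2) / vb n 1)

lemma cM_pos (n : ℕ) : 0 < cM n := by
  have := vb_pos (n := n) one_pos
  unfold cM; positivity

lemma det_path (hn : 0 < n) (hR : 0 ≤ R) {x y : SR n} (hx : ∀ z, (lv x z).PosSemidef)
    (hy : ∀ z, (lv y z).PosSemidef) (hf : ∀ z, y.1 z ≤ x.1 z) {Θ A : ℝ}
    (hΘ : ∀ s ∈ Icc (0 : ℝ) 1, om R (x + s • (y - x)) (x - y) ≤ Θ)
    (hA : ∀ k, ∀ s ∈ Icc (0 : ℝ) 1, ∀ z, R < ‖z‖ → ‖z‖ ≤ R + 1 →
      (x.1 z - y.1 z) * bd (R + 1) k (x + s • (y - x)).1 z ≤ A) {η : ℝ} (hη : 0 < η) :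
    ∀ᶠ k : ℕ in atTop, (gw (R + 1) k y.1).det.re ≤
      (gw (R + 1) k x.1).det.re * exp (cM n * (Θ + η) * (k * NN n k)) := by
  have hvb := vb_pos (n := n) one_pos
  set c := exp (n / 2) / vb n 1 with hc
  have hc0 : 0 < c := by positivity
  have hΘ0 : 0 ≤ Θ := by
    have := om_mono (R := R) (f := (0 : ℝ) • x) (f' := x - y) (psd_conv hx hy (t := 0) (by simp))
      fun z _ => by simpa using hf z
    rw [om_smul, zero_mul] at this
    exact this.trans (hΘ 0 (by simp))
  filter_upwards [morse_int (R := R) hx hy (f := x - y) (fun z _ => sub_nonneg.2 (hf z))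
    (half_pos hη), ((tendsto_pow_atTop hn.ne').comp tendsto_natCast_atTop_atTop).eventually_ge_atTop
      (|A| * vb n (R + 1) / (c * (η / 2)))] with k h1 h2
  have key := chain (k := k) (R := R + 1) (φ := x.1) (f := fun z => x.1 z - y.1 z) (SR.cont x)
    (by fun_prop) (by linarith) (fun z _ => sub_nonneg.2 (hf z)) (Θ := c * k ^ n * (Θ + η))
    fun s hs => by
      have e : (fun z => x.1 z - s * (x.1 z - y.1 z)) = (x + s • (y - x)).1 := by
        funext z
        change _ = x.1 z + s * (y.1 z - x.1 z)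
        ring
      rw [e, ← integral_inter_add_sdiff (measurableSet_closedBall (x := 0) (ε := R))
        (intOn (by fun_prop) _ _), inter_eq_right.2 (closedBall_subset_closedBall (by linarith))]
      have a1 := (h1 s hs).trans (mul_le_mul_of_nonneg_left (add_le_add_left (hΘ s hs) _)
        (by positivity))
      have a2 : ∫ z in closedBall 0 (R + 1) \ closedBall 0 R,
          (x.1 z - y.1 z) * bd (R + 1) k (x + s • (y - x)).1 z ≤ |A| * vb n (R + 1) := by
        refine (Real.le_norm_self _).trans ((norm_setIntegral_le_of_norm_le_const (C := |A|)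
          ((measure_mono sdiff_subset).trans_lt measure_closedBall_lt_top) fun z hz => ?_).trans
          (mul_le_mul_of_nonneg_left (measureReal_mono sdiff_subset measure_closedBall_lt_top.ne)
            (abs_nonneg _)))
        rw [Real.norm_of_nonneg (mul_nonneg (sub_nonneg.2 (hf z))
          (bd_nonneg (SR.cont _) (by linarith) z))]
        exact (hA k s hs z (by simpa using hz.2) (by simpa using hz.1)).trans (le_abs_self _)
      rw [Function.comp_apply, div_le_iff₀ (by positivity)] at h2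
      change ∫ z in closedBall 0 R, (x.1 z - y.1 z) * _ ≤ _ at a1
      nlinarith
  simp only [sub_sub_cancel] at key
  refine key.trans (mul_le_mul_of_nonneg_left (exp_le_exp.2 ?_)
    (det_re_pos (gw_pd (SR.cont x) (by linarith))).le)
  have := mul_le_mul_of_nonneg_left (pow_le_NN n k)
    (show 0 ≤ 4 * k * c * (Θ + η) by positivity)
  rw [cM, ← hc]
  linarith

lemma tail {φ : (Fin n → ℂ) → ℝ} (hφ : Continuous φ) (hR : 2 ≤ R) {κ : ℝ}
    (hκ : ∀ y, ‖y‖ ≤ 2 → φ y ≤ κ) {z : Fin n → ℂ} (hz : κ + log (1 + ‖z‖) ≤ φ z) :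
    bd R k φ z ≤ (vb n 1)⁻¹ := by
  have hvb := vb_pos (n := n) one_pos
  have hw := wt_pos k φ z
  have hG := gw_pd (k := k) hφ (by linarith : 0 < R)
  rw [bd, ← le_div_iff₀' hw]
  refine berg_le hG _ (by positivity) fun c => ?_
  have hq := qf_nonneg hG.posSemidef c
  have h1 := bernstein (polyOf c) (totalDegree_polyOf c) 0 z one_pos
    (T := √(exp (2 * k * κ) * qf (gw R k φ) c / vb n 1)) fun y hy => by
      rw [sub_zero] at hy
      rw [eval_polyOf]
      refine Real.le_sqrt_of_sq_le ?_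
      rw [le_div_iff₀ hvb]
      exact sup_le_L2 hφ c (by linarith) fun w hw =>
        hκ w ((norm_le_norm_add_const_of_dist_le hw).trans (by linarith))
  have h2 := pow_le_pow_left₀ (norm_nonneg _) h1 2
  rw [eval_polyOf, mul_pow, sq_sqrt (by positivity), sub_zero, div_one, ← pow_mul,
    ← exp_log (show 0 < 1 + ‖z‖ by positivity), ← exp_nat_mul] at h2
  refine h2.trans ?_
  rw [wt, Real.exp_neg, div_inv_eq_mul, mul_div_assoc, ← mul_assoc, ← Real.exp_add, div_eq_inv_mul,
    ← mul_assoc, mul_comm (vb n 1)⁻¹]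
  refine mul_le_mul_of_nonneg_right (mul_le_mul_of_nonneg_right (exp_le_exp.2 ?_)
    (by positivity)) hq
  have := mul_le_mul_of_nonneg_left hz (show (0 : ℝ) ≤ 2 * k by positivity)
  push_cast
  linarith

end Pool.Agent.Lib.MP_a839f6_an
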