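import Pool.Agent.Lib.MP_a839f6_an.SubMean

namespace Pool.Agent.Lib.MP_a839f6_an

open MeasureTheory Real Filter Topology Metric Set

variable {n : ℕ}

lemma avg_lt {φ : ℂ → ℝ} {m : ℝ} (hi : CircleIntegrable φ 0 1) (hle : ∀ ζ : ℂ, ‖ζ‖ = 1 → φ ζ ≤ m)
    (hu : UpperSemicontinuousAt φ (-1)) (hlt : φ (-1) < m) : circleAverage φ 0 1 < m := by
  have h1 : circleAverage (fun ζ => m - φ ζ) 0 1 = m - circleAverage φ 0 1 := by
    rw [circleAverage_fun_sub (circleIntegrable_const _ _ _) hi, circleAverage_const]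
  rw [← sub_pos, ← h1, circleAverage_def, smul_eq_mul]
  refine mul_pos (by positivity) ?_
  rw [intervalIntegral.integral_pos_iff_support_of_nonneg_ae
    (Eventually.of_forall fun θ => sub_nonneg.2 (hle _ (by simp)))
    ((circleIntegrable_const m 0 1).sub hi)]
  refine ⟨two_pi_pos, Measure.measure_pos_of_mem_nhds _ (x := π) (inter_mem ?_ ?_)⟩
  · have hc : Tendsto (circleMap 0 1) (𝓝 π) (𝓝 (-1)) := by
      have := (continuous_circleMap 0 1).tendsto π
      simpa [circleMap] using this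
    filter_upwards [hc.eventually (hu m hlt)] with θ hθ
    exact (sub_pos.2 hθ).ne'
  · exact Ioc_mem_nhds pi_pos (by linarith [pi_pos])

lemma avg_log {a b : ℂ} (hb : b ≠ 0) (h : ‖b‖ ≤ ‖a‖) :
    circleAverage (fun ζ => log ‖a + ζ * b‖) 0 1 = log ‖a‖ := by
  have h1 := Polynomial.logMahlerMeasure_C_mul_X_add_C hb a
  have hb' : 0 < ‖b‖ := norm_pos_iff.2 hb
  rw [Polynomial.logMahlerMeasure_def, norm_mul, norm_inv, posLog_eq_log (by
    rw [abs_of_nonneg (by positivity), le_inv_mul_iff₀ hb']; simpa using h),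
    log_mul (by positivity) (hb'.trans_le h).ne', log_inv] at h1
  simp only [Polynomial.eval_add, Polynomial.eval_mul, Polynomial.eval_C, Polynomial.eval_X] at h1
  have e : (fun ζ => log ‖a + ζ * b‖) = fun ζ => log ‖b * ζ + a‖ := by
    funext ζ; rw [add_comm, mul_comm]
  rw [e, h1]; ring

lemma max_principle {f : ℂ → ℝ} (hu : UpperSemicontinuous f)
    (hi : ∀ a b : ℂ, CircleIntegrable (fun ζ => f (a + ζ * b)) 0 1)
    (hs : ∀ a b : ℂ, f a ≤ circleAverage (fun ζ => f (a + ζ * b)) 0 1) {c M ρ : ℝ}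
    (h1 : ∀ ζ, ‖ζ‖ = 1 → f ζ ≤ M) (h2 : ∀ ζ, ‖ζ‖ = ρ → f ζ - c * log ρ ≤ M)
    {z : ℂ} (hz1 : 1 ≤ ‖z‖) (hz2 : ‖z‖ ≤ ρ) : f z - c * log ‖z‖ ≤ M := by
  let A : Set ℂ := {ζ | 1 ≤ ‖ζ‖ ∧ ‖ζ‖ ≤ ρ}
  have hA : IsCompact A := (isCompact_closedBall 0 ρ).of_isClosed_subset
    ((isClosed_le continuous_const continuous_norm).inter
      (isClosed_le continuous_norm continuous_const)) fun ζ h => by simpa using h.2
  let F : ℂ → ℝ := fun ζ => f ζ + -(c * log ‖ζ‖)
  have hF : ∀ ζ : ℂ, ζ ≠ 0 → UpperSemicontinuousAt F ζ := fun ζ hζ =>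
    UpperSemicontinuousAt.add (hu ζ) (ContinuousAt.upperSemicontinuousAt
      (((continuous_norm.continuousAt.log (norm_ne_zero_iff.2 hζ)).const_mul c).neg))
  have hFA : UpperSemicontinuousOn F A := fun ζ hζ =>
    (hF ζ (norm_pos_iff.1 (one_pos.trans_le hζ.1))).upperSemicontinuousWithinAt _
  obtain ⟨x, hx, hmax⟩ := hFA.exists_isMaxOn ⟨z, show z ∈ A from ⟨hz1, hz2⟩⟩ hA
  obtain ⟨y, hy, hy'⟩ := (hFA.isCompact_inter_preimage_Ici hA (F x)).exists_isMaxOn
    ⟨x, hx, show F x ≤ F x from le_rfl⟩ continuous_norm.continuousOn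
  by_contra hcon
  have hM : M < F y := (not_le.1 hcon).trans_le ((hmax ⟨hz1, hz2⟩).trans hy.2)
  have hy1 : 1 < ‖y‖ := hy.1.1.lt_of_ne fun h => by
    have := h1 y h.symm
    simp only [F, ← h, log_one] at hM
    linarith
  have hy2 : ‖y‖ < ρ := hy.1.2.lt_of_ne fun h => by
    have := h2 y h
    simp only [F, h] at hM
    linarith
  set r := min (‖y‖ - 1) (ρ - ‖y‖) with hr
  have hr0 : 0 < r := lt_min (by linarith) (by linarith)
  have hr1 : r ≤ ‖y‖ - 1 := min_le_left _ _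
  have hr2 : r ≤ ρ - ‖y‖ := min_le_right _ _
  set b : ℂ := -((r / ‖y‖ : ℝ) * y) with hb
  have hbn : ‖b‖ = r := by
    rw [hb, norm_neg, norm_mul, Complex.norm_real, Real.norm_of_nonneg (by positivity)]
    field_simp
  have hmem : ∀ ζ : ℂ, ‖ζ‖ = 1 → y + ζ * b ∈ A := by
    intro ζ hζ
    have e : ‖ζ * b‖ = r := by rw [norm_mul, hζ, hbn, one_mul]
    have e1 := norm_add_le y (ζ * b)
    have e2 := norm_sub_norm_le y (-(ζ * b))
    rw [norm_neg, sub_neg_eq_add] at e2
    constructor <;> linarith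
  have hlog : CircleIntegrable (fun ζ => -(c * log ‖y + ζ * b‖)) 0 1 := by
    refine ContinuousOn.circleIntegrable zero_le_one fun ζ hζ => ContinuousAt.continuousWithinAt ?_
    have := (hmem ζ (by simpa using hζ)).1
    exact ((ContinuousAt.log (by fun_prop) (by linarith)).const_mul c).neg
  have hn : ‖y + -1 * b‖ = ‖y‖ + r := by
    have : y + -1 * b = ((1 + r / ‖y‖ : ℝ) : ℂ) * y := by rw [hb]; push_cast; ring
    rw [this, norm_mul, Complex.norm_real, Real.norm_of_nonneg (by positivity)]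
    field_simp
  have key := avg_lt (φ := fun ζ => F (y + ζ * b)) (m := F x) ((hi y b).add hlog)
    (fun ζ hζ => hmax (hmem ζ hζ))
    (UpperSemicontinuousAt.comp (g := fun ζ => y + ζ * b)
      (hF _ (norm_pos_iff.1 (by rw [hn]; positivity))) (by fun_prop))
    (by
      by_contra h
      have := hy' ⟨hmem (-1) (by simp), not_lt.1 h⟩
      simp only [mem_ofPred_eq, hn] at this
      linarith)
  have e := circleAverage_fun_smul (a := -c) (f := fun ζ : ℂ => log ‖y + ζ * b‖) (c := 0) (R := 1)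
  simp only [smul_eq_mul, neg_mul] at e
  rw [circleAverage_fun_add (hi y b) hlog, e,
    avg_log (norm_pos_iff.1 (hbn ▸ hr0)) (by linarith)] at key
  have := hs y b
  have h3 : F x ≤ F y := hy.2
  simp only [F] at h3 key
  linarith

lemma psh_bernstein {v : (Fin n → ℂ) → ℝ} (hv : SM v) (hu : UpperSemicontinuous v) {C M : ℝ}
    (hg : ∀ z, v z ≤ posLog ‖z‖ + C) (hM : ∀ z, ‖z‖ ≤ 1 → v z ≤ M) (z : Fin n → ℂ) :
    v z ≤ posLog ‖z‖ + M := by
  rcases le_or_gt ‖z‖ 1 with hz | hz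
  · linarith [hM z hz, posLog_nonneg (x := ‖z‖)]
  have hz0 : 0 < ‖z‖ := one_pos.trans hz
  set w : Fin n → ℂ := ((‖z‖⁻¹ : ℝ) : ℂ) • z with hw
  have hwn : ‖w‖ = 1 := by
    rw [hw, norm_smul, Complex.norm_real, norm_inv, norm_norm, inv_mul_cancel₀ hz0.ne']
  have hl : 0 < log ‖z‖ := log_pos hz
  rw [posLog_eq_log (by rw [abs_norm]; exact hz.le)]
  refine le_of_forall_pos_le_add fun ε hε => ?_
  set δ := ε / log ‖z‖ with hδ
  have hδ0 : 0 < δ := by positivity
  have key := max_principle (f := fun ζ => v (ζ • w)) (hu.comp (by fun_prop))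
    (fun a b => by simpa only [add_smul, mul_smul] using hv.ci (a • w) (b • w))
    (fun a b => by simpa only [add_smul, mul_smul] using hv.sub (a • w) (b • w))
    (c := 1 + δ) (M := M) (ρ := max ‖z‖ (exp ((C - M) / δ)))
    (fun ζ hζ => hM _ (by simp [norm_smul, hζ, hwn]))
    (fun ζ hζ => by
      have h1 := hg (ζ • w)
      rw [norm_smul, hwn, mul_one, hζ, posLog_eq_log
        (by rw [abs_of_pos (by positivity)]; exact hz.le.trans (le_max_left _ _))] at h1
      have h2 : (C - M) / δ ≤ log (max ‖z‖ (exp ((C - M) / δ))) :=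
        (le_log_iff_exp_le (by positivity)).2 (le_max_right _ _)
      rw [div_le_iff₀ hδ0] at h2
      nlinarith)
    (z := (‖z‖ : ℂ)) (by simpa using hz.le) (by simp)
  rw [hw, smul_smul, ← Complex.ofReal_mul, mul_inv_cancel₀ hz0.ne', Complex.ofReal_one, one_smul,
    Complex.norm_real, norm_norm] at key
  have : δ * log ‖z‖ = ε := by rw [hδ]; field_simp
  nlinarith

/-- nonnegative real competitors for the extremal function -/
structure Gc (K : Set (Fin n → ℂ)) (v : (Fin n → ℂ) → ℝ) : Prop where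
  sm : SM v
  usc : UpperSemicontinuous v
  nonneg : ∀ z, 0 ≤ v z
  le0 : ∀ z ∈ K, v z ≤ 0
  growth : ∃ C, ∀ z, v z ≤ posLog ‖z‖ + C

variable {K : Set (Fin n → ℂ)} {v u : (Fin n → ℂ) → ℝ}

lemma Gc.zero : Gc K fun _ => 0 :=
  ⟨SM.const 0, upperSemicontinuous_const, fun _ => le_rfl, fun _ _ => le_rfl,
    ⟨0, fun _ => by simpa using posLog_nonneg⟩⟩

lemma Gc.max (h : Gc K v) (h' : Gc K u) : Gc K fun z => max (v z) (u z) := by
  obtain ⟨C, hC⟩ := h.growth
  obtain ⟨C', hC'⟩ := h'.growth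
  exact ⟨h.sm.max h'.sm, h.usc.sup h'.usc, fun z => (h.nonneg z).trans (le_max_left _ _),
    fun z hz => max_le (h.le0 z hz) (h'.le0 z hz), ⟨Max.max C C', fun z => max_le
      (by linarith [hC z, le_max_left C C']) (by linarith [hC' z, le_max_right C C'])⟩⟩

lemma Gc.of_sm (h : SM v) (hu : UpperSemicontinuous v) (h0 : ∀ z ∈ K, v z ≤ 0)
    (hg : ∃ C, ∀ z, v z ≤ posLog ‖z‖ + C) : Gc K fun z => Max.max (v z) 0 := by
  obtain ⟨C, hC⟩ := hg
  exact ⟨h.max (SM.const 0), hu.sup upperSemicontinuous_const, fun z => le_max_right _ _,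
    fun z hz => max_le (h0 z hz) le_rfl, ⟨Max.max C 0, fun z => max_le
      (by linarith [hC z, le_max_left C 0])
      (by linarith [posLog_nonneg (x := ‖z‖), le_max_right C 0])⟩⟩

lemma Gc.le_extremal (h : Gc K v) (z : Fin n → ℂ) : (v z : EReal) ≤ extremal K z := by
  have hp : Psh fun z => (v z : EReal) := by
    refine ⟨?_, fun _ => EReal.coe_ne_top _, ⟨0, EReal.coe_ne_bot _⟩, fun a b M => ?_⟩
    · exact continuous_coe_real_ereal.comp_upperSemicontinuous h.usc EReal.coe_strictMono.monotone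
    · rw [EReal.coe_le_coe_iff]
      have e : ∀ x : ℝ, (Max.max (x : EReal) (M : EReal)).toReal = Max.max x M := fun x => by
        rw [← EReal.coe_strictMono.monotone.map_max, EReal.toReal_coe]
      simp only [e]
      exact (le_max_left _ _).trans ((h.sm.max (SM.const M)).sub a b)
  obtain ⟨C, hC⟩ := h.growth
  refine le_iSup_of_le (fun z => (v z : EReal)) (le_iSup_of_le hp (le_iSup_of_le
    ⟨C, fun w => EReal.coe_le_coe_iff.2 (hC w)⟩ (le_iSup_of_le (fun w hw => ?_) le_rfl)))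
  show (v w : EReal) ≤ 0
  exact_mod_cast h.le0 w hw

lemma extremal_le {z : Fin n → ℂ} {t : ℝ} (h : ∀ v, Gc K v → v z ≤ t) : extremal K z ≤ t := by
  refine iSup_le fun u => iSup_le fun hp => iSup_le fun ⟨C, hC⟩ => iSup_le fun h0 => ?_
  have e : ∀ w, ((Max.max (u w) 0).toReal : EReal) = Max.max (u w) 0 := fun w =>
    EReal.coe_toReal (by simp [hp.2.1 w]) (by simp)
  have hg : ∀ w, (Max.max (u w) 0).toReal ≤ posLog ‖w‖ + Max.max C 0 := fun w => by
    rw [← EReal.coe_le_coe_iff, e]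
    refine max_le ((hC w).trans (EReal.coe_le_coe_iff.2 (by linarith [le_max_left C 0]))) ?_
    exact_mod_cast add_nonneg posLog_nonneg (le_max_right _ _)
  have hn : ∀ w, 0 ≤ (Max.max (u w) 0).toReal := fun w => EReal.toReal_nonneg (le_max_right _ _)
  have hu : UpperSemicontinuous fun w => (Max.max (u w) 0).toReal := by
    intro x y hy
    rw [← EReal.coe_lt_coe_iff, e] at hy
    filter_upwards [(hp.1.sup upperSemicontinuous_const) x y hy] with w hw
    rwa [← EReal.coe_lt_coe_iff, e]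
  have hG : Gc K fun w => (Max.max (u w) 0).toReal := by
    refine ⟨⟨hu.measurable, fun R => ⟨posLog R + Max.max C 0, fun w hw => ?_⟩, fun a b => ?_⟩,
      hu, hn, fun w hw => ?_, ⟨_, hg⟩⟩
    · rw [abs_of_nonneg (hn w)]
      linarith [hg w, posLog_le_posLog (norm_nonneg _) hw]
    · rw [← EReal.coe_le_coe_iff, e]
      refine max_le (hp.2.2.2 a b 0) ?_
      exact_mod_cast circleAverage_nonneg_of_nonneg fun _ _ => hn _
    · rw [max_eq_right (h0 w hw)]; simp
  refine (le_max_left _ 0).trans ?_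
  rw [← e, EReal.coe_le_coe_iff]
  exact h _ hG

lemma Gc.poly {k : ℕ} (hk : 0 < k) {p : MvPolynomial (Fin n) ℂ} (hp : p.totalDegree ≤ k)
    (h : ∀ z ∈ K, ‖MvPolynomial.eval z p‖ ≤ 1) :
    Gc K fun z => (k : ℝ)⁻¹ * posLog ‖MvPolynomial.eval z p‖ := by
  have hk' : (0 : ℝ) < k := by exact_mod_cast hk
  obtain ⟨C, hC⟩ := posLog_eval_le p hp
  refine ⟨(sm_posLog p).const_mul (by positivity), Continuous.upperSemicontinuous ?_,
    fun z => mul_nonneg (by positivity) posLog_nonneg, fun z hz => ?_, ⟨C / k, fun z => ?_⟩⟩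
  · have := MvPolynomial.continuous_eval p
    fun_prop
  · rw [(posLog_eq_zero_iff _).2 (by rw [abs_norm]; exact h z hz), mul_zero]
  · rw [inv_mul_le_iff₀ hk', mul_add, mul_div_cancel₀ _ hk'.ne']
    exact hC z

/-- polynomials are bounded by the extremal function -/
lemma norm_eval_le {k : ℕ} {p : MvPolynomial (Fin n) ℂ} (hp : p.totalDegree ≤ k) (hk : 0 < k)
    {T : ℝ} (hT : 0 ≤ T) (h : ∀ z ∈ K, ‖MvPolynomial.eval z p‖ ≤ T) {z : Fin n → ℂ} {t : ℝ}
    (ht : extremal K z ≤ t) : ‖MvPolynomial.eval z p‖ ≤ exp (k * t) * T := by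
  have hk' : (0 : ℝ) < k := by exact_mod_cast hk
  refine le_of_forall_pos_le_add fun ε hε => ?_
  set T' := T + ε / exp (k * t) with hT'
  have hT0 : 0 < T' := by positivity
  have hG := Gc.poly (K := K) hk (p := MvPolynomial.C ((T'⁻¹ : ℝ) : ℂ) * p)
    ((MvPolynomial.totalDegree_mul _ _).trans (by simpa using hp)) (fun y hy => by
      rw [map_mul, MvPolynomial.eval_C, norm_mul, Complex.norm_real,
        Real.norm_of_nonneg (by positivity), inv_mul_le_iff₀ hT0, mul_one]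
      exact (h y hy).trans (le_add_of_nonneg_right (by positivity)))
  have h1 := (hG.le_extremal z).trans ht
  rw [EReal.coe_le_coe_iff, inv_mul_le_iff₀ hk', map_mul, MvPolynomial.eval_C, norm_mul,
    Complex.norm_real, Real.norm_of_nonneg (by positivity)] at h1
  have h2 : T'⁻¹ * ‖MvPolynomial.eval z p‖ ≤ exp (k * t) :=
    le_exp_of_log_le ((le_max_right _ _).trans h1)
  rw [inv_mul_le_iff₀ hT0, hT', add_mul, div_mul_cancel₀ _ (exp_pos _).ne'] at h2
  linarith

end Pool.Agent.Lib.MP_a839f6_an
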