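import Mathlib

namespace Pool.Agent.Lib.MP_a839f6_an

open MeasureTheory Filter Topology

variable {n : ℕ}

/-- plurisubharmonic functions on the whole space -/
def Psh (u : (Fin n → ℂ) → EReal) : Prop :=
  UpperSemicontinuous u ∧ (∀ z, u z ≠ ⊤) ∧ (∃ z, u z ≠ ⊥) ∧
    ∀ (a b : Fin n → ℂ) (M : ℝ),
      u a ≤ (Real.circleAverage (fun ζ : ℂ => (max (u (a + ζ • b)) (M : EReal)).toReal) 0 1 : ℝ)

/-- the extremal function of K -/
noncomputable def extremal (K : Set (Fin n → ℂ)) (z : Fin n → ℂ) : EReal :=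
  ⨆ (u : (Fin n → ℂ) → EReal) (_ : Psh u) (_ : ∃ C : ℝ, ∀ w, u w ≤ (Real.posLog ‖w‖ + C : ℝ))
    (_ : ∀ w ∈ K, u w ≤ 0), u z

/-- exponents of the monomials of degree at most k -/
abbrev Idx (n k : ℕ) : Type := {α : Fin n → Fin (k + 1) // ∑ i, (α i : ℕ) ≤ k}

/-- Vandermonde determinant -/
noncomputable def vdm (k : ℕ) (x : Idx n k → Fin n → ℂ) : ℂ :=
  Matrix.det (Matrix.of fun α β : Idx n k => ∏ i, x β i ^ (α.1 i : ℕ))

/-- the degree of the Vandermonde determinant -/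
noncomputable def ell (n k : ℕ) : ℝ := n * k * ((n + k).choose k : ℝ) / (n + 1)

end Pool.Agent.Lib.MP_a839f6_an
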