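import Mathlib

namespace Pool.Agent.Lib.MP_a839f6_an

open Matrix
open scoped ComplexOrder MatrixOrder

set_option linter.unusedSectionVars false

variable {ι : Type*} [Fintype ι] [DecidableEq ι]

/-- quadratic form of a matrix -/
noncomputable def qf (G : Matrix ι ι ℂ) (c : ι → ℂ) : ℝ := (star c ⬝ᵥ G *ᵥ c).re

lemma det_re_nonneg {A : Matrix ι ι ℂ} (hA : A.PosSemidef) : 0 ≤ A.det.re :=
  (Complex.nonneg_iff.1 hA.det_nonneg).1

lemma det_re_pos {A : Matrix ι ι ℂ} (hA : A.PosDef) : 0 < A.det.re :=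
  (Complex.pos_iff.1 hA.det_pos).1

lemma det_eq_re {A : Matrix ι ι ℂ} (hA : A.PosSemidef) : A.det = (A.det.re : ℂ) := by
  have := (Complex.nonneg_iff.1 hA.det_nonneg).2
  apply Complex.ext <;> simp [this.symm]

lemma det_le_exp {A : Matrix ι ι ℂ} (hA : A.PosSemidef) :
    A.det.re ≤ Real.exp (A.trace.re - Fintype.card ι) := by
  have h1 : A.det.re = ∏ i, hA.1.eigenvalues i := by
    rw [hA.1.det_eq_prod_eigenvalues]
    have : (∏ i, ((hA.1.eigenvalues i : ℝ) : ℂ)) = ((∏ i, hA.1.eigenvalues i : ℝ) : ℂ) := by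
      push_cast; rfl
    exact (congrArg Complex.re this).trans (Complex.ofReal_re _)
  have h2 : A.trace.re = ∑ i, hA.1.eigenvalues i := by
    rw [hA.1.trace_eq_sum_eigenvalues]
    have : (∑ i, ((hA.1.eigenvalues i : ℝ) : ℂ)) = ((∑ i, hA.1.eigenvalues i : ℝ) : ℂ) := by
      push_cast; rfl
    exact (congrArg Complex.re this).trans (Complex.ofReal_re _)
  rw [h1, h2]
  have h3 : (∑ i, hA.1.eigenvalues i) - (Fintype.card ι : ℝ) = ∑ i, (hA.1.eigenvalues i - 1) := by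
    simp [Finset.sum_sub_distrib]
  rw [h3, Real.exp_sum]
  refine Finset.prod_le_prod (fun i _ => hA.eigenvalues_nonneg i) (fun i _ => ?_)
  have := Real.add_one_le_exp (hA.1.eigenvalues i - 1)
  linarith

lemma exists_conj {G : Matrix ι ι ℂ} (hG : G.PosSemidef) : ∃ T : Matrix ι ι ℂ, G = Tᴴ * T := by
  have h : 0 ≤ G := hG.nonneg
  obtain ⟨T, hT⟩ := CStarAlgebra.nonneg_iff_eq_star_mul_self.1 h
  exact ⟨T, hT⟩

lemma det_conj (T : Matrix ι ι ℂ) : (Tᴴ * T).det = ((‖T.det‖ ^ 2 : ℝ) : ℂ) := by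
  rw [det_mul, det_conjTranspose, Complex.star_def, Complex.conj_mul']; push_cast; rfl

/-- whitening -/
lemma exists_white {G : Matrix ι ι ℂ} (hG : G.PosDef) :
    ∃ S : Matrix ι ι ℂ, IsUnit S.det ∧ Sᴴ * G * S = 1 ∧ G⁻¹ = S * Sᴴ := by
  obtain ⟨T, hT⟩ := exists_conj hG.posSemidef
  have hd : T.det ≠ 0 := by
    intro h
    have := hG.det_pos
    rw [hT, det_mul, h, mul_zero] at this
    exact lt_irrefl _ this
  have hu : IsUnit T.det := isUnit_iff_ne_zero.2 hd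
  have hu' : IsUnit Tᴴ.det := by rw [det_conjTranspose]; exact hu.star
  refine ⟨T⁻¹, ?_, ?_, ?_⟩
  · exact isUnit_nonsing_inv_det T hu
  · rw [hT, conjTranspose_nonsing_inv, ← Matrix.mul_assoc, nonsing_inv_mul _ hu', Matrix.one_mul,
      mul_nonsing_inv _ hu]
  · rw [hT, Matrix.mul_inv_rev, conjTranspose_nonsing_inv]

lemma det_le_mul_exp {G₁ G₂ : Matrix ι ι ℂ} (h₁ : G₁.PosSemidef) (h₂ : G₂.PosDef) :
    G₁.det.re ≤ G₂.det.re * Real.exp ((G₂⁻¹ * G₁).trace.re - Fintype.card ι) := by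
  obtain ⟨S, hS, h1, h2⟩ := exists_white h₂
  have hA := det_le_exp (h₁.conjTranspose_mul_mul_same S)
  have ht : (Sᴴ * G₁ * S).trace = (G₂⁻¹ * G₁).trace := by
    rw [h2, Matrix.trace_mul_comm, ← Matrix.mul_assoc]
  rw [ht] at hA
  have hd : G₁.det = G₂.det * (Sᴴ * G₁ * S).det := by
    have := congrArg Matrix.det h1
    simp only [det_mul, det_one] at this ⊢
    linear_combination (-G₁.det) * this
  have hd' : G₁.det.re = G₂.det.re * (Sᴴ * G₁ * S).det.re := by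
    rw [hd, det_eq_re h₂.posSemidef, Complex.re_ofReal_mul, Complex.ofReal_re]
  rw [hd']
  exact mul_le_mul_of_nonneg_left hA (det_re_pos h₂).le

lemma det_le_of_trace {G₁ G₂ : Matrix ι ι ℂ} (h₁ : G₁.PosSemidef) (h₂ : G₂.PosDef) {c : ℝ}
    (hc : 0 < c) (ht : (G₂⁻¹ * G₁).trace.re ≤ c * Fintype.card ι) :
    G₁.det.re ≤ c ^ Fintype.card ι * G₂.det.re := by
  have h₃ : ((c : ℂ) • G₂).PosDef := h₂.smul (by exact_mod_cast hc)
  have := det_le_mul_exp h₁ h₃
  have hc' : (c : ℂ) ≠ 0 := by exact_mod_cast hc.ne'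
  have hinv : ((c : ℂ) • G₂)⁻¹ = (c : ℂ)⁻¹ • G₂⁻¹ := by
    apply Matrix.inv_eq_left_inv
    rw [Matrix.smul_mul, Matrix.mul_smul, smul_smul, inv_mul_cancel₀ hc', one_smul,
      nonsing_inv_mul _ (isUnit_iff_ne_zero.2 h₂.det_pos.ne')]
  rw [hinv, Matrix.smul_mul, trace_smul, det_smul] at this
  have e1 : ((c : ℂ) ^ Fintype.card ι * G₂.det).re = c ^ Fintype.card ι * G₂.det.re := by
    rw [← Complex.ofReal_pow, Complex.re_ofReal_mul]
  have e2 : ((c : ℂ)⁻¹ • (G₂⁻¹ * G₁).trace).re = c⁻¹ * (G₂⁻¹ * G₁).trace.re := by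
    rw [smul_eq_mul, ← Complex.ofReal_inv, Complex.re_ofReal_mul]
  rw [e1, e2] at this
  have e3 : c⁻¹ * (G₂⁻¹ * G₁).trace.re - Fintype.card ι ≤ 0 := by
    rw [sub_nonpos, inv_mul_le_iff₀ hc]; exact ht
  have e4 := Real.exp_le_one_iff.2 e3
  have e5 : 0 ≤ c ^ Fintype.card ι * G₂.det.re := mul_nonneg (by positivity) (det_re_pos h₂).le
  nlinarith

/-- Hadamard inequality -/
lemma det_le_prod {A : Matrix ι ι ℂ} (hA : A.PosSemidef) {d : ι → ℝ} (hd : ∀ i, 0 < d i)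
    (h : ∀ i, (A i i).re ≤ d i) : A.det.re ≤ ∏ i, d i := by
  have hD : (diagonal fun i => (d i : ℂ)).PosDef :=
    PosDef.diagonal fun i => by exact_mod_cast hd i
  have := det_le_of_trace hA hD one_pos (by
    have hinv : (diagonal fun i => (d i : ℂ))⁻¹ = diagonal fun i => (d i : ℂ)⁻¹ := by
      apply Matrix.inv_eq_left_inv
      rw [diagonal_mul_diagonal, ← diagonal_one]
      congr 1; funext i
      exact inv_mul_cancel₀ (by exact_mod_cast (hd i).ne')
    rw [hinv, one_mul]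
    simp only [Matrix.trace, diag_apply, diagonal_mul, Complex.re_sum]
    rw [← Finset.card_univ, Finset.card_eq_sum_ones, Nat.cast_sum]
    refine Finset.sum_le_sum fun i _ => ?_
    rw [← Complex.ofReal_inv, Complex.re_ofReal_mul, Nat.cast_one, inv_mul_le_iff₀ (hd i), mul_one]
    exact h i)
  rw [one_pow, one_mul, det_diagonal] at this
  have e : (∏ i, ((d i : ℝ) : ℂ)) = ((∏ i, d i : ℝ) : ℂ) := by push_cast; rfl
  rwa [e, Complex.ofReal_re] at this

lemma qf_conj (G S : Matrix ι ι ℂ) (x : ι → ℂ) : qf (Sᴴ * G * S) x = qf G (S *ᵥ x) := by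
  simp only [qf, star_mulVec, ← mulVec_mulVec, dotProduct_mulVec]

lemma qf_one (x : ι → ℂ) : qf 1 x = ∑ i, ‖x i‖ ^ 2 := by
  simp only [qf, one_mulVec, dotProduct, Pi.star_apply, Complex.re_sum]
  refine Finset.sum_congr rfl fun i _ => ?_
  rw [Complex.star_def, Complex.conj_mul', ← Complex.ofReal_pow, Complex.ofReal_re]

lemma qf_nonneg {G : Matrix ι ι ℂ} (hG : G.PosSemidef) (x : ι → ℂ) : 0 ≤ qf G x :=
  hG.re_dotProduct_nonneg x

lemma det_le_sub {G₁ G₂ : Matrix ι ι ℂ} (h₁ : G₁.PosSemidef) (h₂ : G₂.PosDef) {c ε : ℝ}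
    (hc : 0 < c) (hε : 0 < ε) (W : Submodule ℂ (ι → ℂ)) {m : ℕ} (hm : m ≤ Module.finrank ℂ W)
    (hall : ∀ x, qf G₁ x ≤ c * qf G₂ x) (hW : ∀ x ∈ W, qf G₁ x ≤ ε * c * qf G₂ x) :
    G₁.det.re ≤ ε ^ m * c ^ Fintype.card ι * G₂.det.re := by
  obtain ⟨S, hS, h1, -⟩ := exists_white h₂
  let e : EuclideanSpace ℂ ι ≃ₗ[ℂ] (ι → ℂ) :=
    (WithLp.linearEquiv 2 ℂ (ι → ℂ)).trans (Matrix.toLinearEquiv' S (invertibleOfIsUnitDet S hS))
  have he : ∀ x : EuclideanSpace ℂ ι, e x = S *ᵥ x.ofLp := fun x => rfl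
  let W' : Submodule ℂ (EuclideanSpace ℂ ι) := W.map (e.symm : (ι → ℂ) →ₗ[ℂ] _)
  have hW' : Module.finrank ℂ W' = Module.finrank ℂ W := LinearEquiv.finrank_map_eq e.symm W
  have hmN : m ≤ (Finset.univ : Finset ι).card := by
    refine hm.trans ?_
    have := Submodule.finrank_le W
    simpa using this
  obtain ⟨s, -, hs⟩ := Finset.exists_subset_card_eq hmN
  let b0 := stdOrthonormalBasis ℂ W'
  let j : s → Fin (Module.finrank ℂ W') := fun i =>
    Fin.castLE (by rw [hW', hs]; exact hm) (s.equivFin i)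
  have hj : Function.Injective j := (Fin.castLE_injective _).comp s.equivFin.injective
  let v : ι → EuclideanSpace ℂ ι := fun i => if h : i ∈ s then (b0 (j ⟨i, h⟩) : W') else 0
  have hv : Orthonormal ℂ ((s : Set ι).domRestrict v) := by
    have h0 : Orthonormal ℂ (fun i => ((b0 i : W') : EuclideanSpace ℂ ι)) :=
      b0.orthonormal.comp_linearIsometry W'.subtypeₗᵢ
    have := h0.comp j hj
    have e : (s : Set ι).domRestrict v = (fun i => ((b0 i : W') : EuclideanSpace ℂ ι)) ∘ j := by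
      funext i
      have hi : i.1 ∈ s := i.2
      simp only [Set.domRestrict_apply, v, dif_pos hi, Function.comp]
      rfl
    rw [e]; exact this
  obtain ⟨b, hb⟩ := hv.exists_orthonormalBasis_extension_of_card_eq (by simp)
  let U : Matrix ι ι ℂ := Matrix.of fun i j => (b j).ofLp i
  have hU : Uᴴ * U = 1 := by
    ext i j
    have := b.orthonormal
    rw [orthonormal_iff_ite] at this
    rw [Matrix.one_apply, ← this i j, EuclideanSpace.inner_eq_star_dotProduct, dotProduct_comm]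
    rfl
  have hA := ((h₁.conjTranspose_mul_mul_same S).conjTranspose_mul_mul_same U)
  have hdiag : ∀ i, ((Uᴴ * (Sᴴ * G₁ * S) * U) i i).re = qf G₁ (e (b i)) := by
    intro i
    rw [he, ← qf_conj]
    simp only [qf, Matrix.mul_apply, dotProduct, mulVec, conjTranspose_apply, U, of_apply,
      Pi.star_apply, Finset.sum_mul, Finset.mul_sum]
    congr 1
    rw [Finset.sum_comm]
    refine Finset.sum_congr rfl fun a _ => Finset.sum_congr rfl fun a _ =>
      Finset.sum_congr rfl fun a _ => Finset.sum_congr rfl fun a _ => by ring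
  have hq2 : ∀ i, qf G₂ (e (b i)) = 1 := by
    intro i
    rw [he, ← qf_conj, h1, qf_one, ← EuclideanSpace.norm_sq_eq, b.orthonormal.1 i]; simp
  have key := det_le_prod hA (d := fun i => (if i ∈ s then ε else 1) * c)
    (fun i => by split_ifs <;> positivity) (fun i => by
      rw [hdiag]
      split_ifs with hi
      · have : e (b i) ∈ W := by
          rw [hb i hi]
          simp only [v, dif_pos hi]
          obtain ⟨y, hy, hy'⟩ := (b0 (j ⟨i, hi⟩)).2
          rw [← hy']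
          simpa using hy
        simpa [hq2] using hW _ this
      · simpa [hq2] using hall (e (b i)))
  rw [Finset.prod_mul_distrib, Finset.prod_ite_mem, Finset.univ_inter, Finset.prod_const,
    Finset.prod_const, hs, Finset.card_univ] at key
  have hd : G₁.det = G₂.det * (Uᴴ * (Sᴴ * G₁ * S) * U).det := by
    have a1 := congrArg Matrix.det h1
    have a2 := congrArg Matrix.det hU
    simp only [det_mul, det_one] at a1 a2 ⊢
    linear_combination (-G₁.det) * a1 - G₁.det * (Sᴴ.det * G₂.det * S.det) * a2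
  have hd' : G₁.det.re = G₂.det.re * (Uᴴ * (Sᴴ * G₁ * S) * U).det.re := by
    rw [hd, det_eq_re h₂.posSemidef, Complex.re_ofReal_mul, Complex.ofReal_re]
  rw [hd', mul_comm]
  exact mul_le_mul_of_nonneg_right key (det_re_pos h₂).le

lemma det_le_of_qf {G₁ G₂ : Matrix ι ι ℂ} (h₁ : G₁.PosSemidef) (h₂ : G₂.PosDef) {c : ℝ}
    (hc : 0 < c) (hall : ∀ x, qf G₁ x ≤ c * qf G₂ x) :
    G₁.det.re ≤ c ^ Fintype.card ι * G₂.det.re := by
  simpa using det_le_sub h₁ h₂ hc one_pos ⊥ (m := 0) (Nat.zero_le _) hall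
    (fun x _ => by simpa using hall x)

/-- Bergman kernel on the diagonal -/
noncomputable def berg (G : Matrix ι ι ℂ) (v : ι → ℂ) : ℝ := (v ⬝ᵥ G⁻¹ *ᵥ star v).re

lemma berg_eq_qf {G : Matrix ι ι ℂ} (hG : G.PosDef) (v : ι → ℂ) :
    (G⁻¹ *ᵥ star v) ⬝ᵥ v = (berg G v : ℂ) ∧ qf G (G⁻¹ *ᵥ star v) = berg G v := by
  have h0 := hG.inv.posSemidef.dotProduct_mulVec_nonneg (star v)
  rw [star_star] at h0
  have h1 : (G⁻¹ *ᵥ star v) ⬝ᵥ v = (berg G v : ℂ) := by
    rw [dotProduct_comm]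
    apply Complex.ext
    · simp [berg]
    · simp [(Complex.nonneg_iff.1 h0).2.symm]
  refine ⟨h1, ?_⟩
  rw [qf, mulVec_mulVec, mul_nonsing_inv _ (isUnit_iff_ne_zero.2 hG.det_pos.ne'), one_mulVec,
    star_dotProduct_star, dotProduct_comm, h1]
  simp

lemma berg_nonneg {G : Matrix ι ι ℂ} (hG : G.PosDef) (v : ι → ℂ) : 0 ≤ berg G v := by
  rw [← (berg_eq_qf hG v).2]; exact qf_nonneg hG.posSemidef _

lemma berg_le {G : Matrix ι ι ℂ} (hG : G.PosDef) (v : ι → ℂ) {A : ℝ} (hA : 0 ≤ A)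
    (h : ∀ c, ‖c ⬝ᵥ v‖ ^ 2 ≤ A * qf G c) : berg G v ≤ A := by
  have := h (G⁻¹ *ᵥ star v)
  rw [(berg_eq_qf hG v).1, (berg_eq_qf hG v).2, Complex.norm_real, Real.norm_eq_abs, sq_abs] at this
  have h0 := berg_nonneg hG v
  rcases h0.eq_or_lt with h0 | h0
  · rw [← h0]; exact hA
  · nlinarith

lemma sq_le_berg {G : Matrix ι ι ℂ} (hG : G.PosDef) (v c : ι → ℂ) :
    ‖c ⬝ᵥ v‖ ^ 2 ≤ berg G v * qf G c := by
  obtain ⟨T, hT⟩ := exists_conj hG.posSemidef
  set d := G⁻¹ *ᵥ star v with hd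
  have h1 : c ⬝ᵥ v = star (T *ᵥ d) ⬝ᵥ (T *ᵥ c) := by
    have hGd : G *ᵥ d = star v := by
      rw [hd, mulVec_mulVec, mul_nonsing_inv _ (isUnit_iff_ne_zero.2 hG.det_pos.ne'), one_mulVec]
    have : star (G *ᵥ d) = v := by rw [hGd, star_star]
    clear_value d
    rw [← this, star_mulVec, star_mulVec, dotProduct_mulVec, vecMul_vecMul, ← hT, hG.1.eq,
      dotProduct_comm]
  have h2 : ∀ x, qf G x = ‖(WithLp.toLp 2 (T *ᵥ x) : EuclideanSpace ℂ ι)‖ ^ 2 := by
    intro x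
    have : G = Tᴴ * 1 * T := by rw [Matrix.mul_one]; exact hT
    rw [this, qf_conj, qf_one, EuclideanSpace.norm_sq_eq]
  rw [← (berg_eq_qf hG v).2, ← hd, h2, h2, h1, ← mul_pow]
  have := norm_inner_le_norm (𝕜 := ℂ) (WithLp.toLp 2 (T *ᵥ d) : EuclideanSpace ℂ ι)
    (WithLp.toLp 2 (T *ᵥ c))
  rw [EuclideanSpace.inner_eq_star_dotProduct, dotProduct_comm] at this
  exact pow_le_pow_left₀ (norm_nonneg _) this 2

lemma posSemidef_adjugate {A : Matrix ι ι ℂ} (hA : A.PosSemidef) : A.adjugate.PosSemidef := by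
  have hH : A.adjugate.IsHermitian := hA.1.adjugate
  refine PosSemidef.of_dotProduct_mulVec_nonneg hH fun x => ?_
  have hc : Continuous fun t : ℝ => star x ⬝ᵥ (A + (t : ℂ) • (1 : Matrix ι ι ℂ)).adjugate *ᵥ x := by
    refine Continuous.dotProduct continuous_const (Continuous.matrix_mulVec ?_ continuous_const)
    exact Continuous.matrix_adjugate (by fun_prop)
  have ht := (hc.tendsto 0).mono_left (nhdsWithin_le_nhds (s := Set.Ioi 0))
  simp only [Complex.ofReal_zero, zero_smul, add_zero] at ht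
  refine ge_of_tendsto ht ?_
  filter_upwards [self_mem_nhdsWithin] with t ht
  have hp : (A + (t : ℂ) • (1 : Matrix ι ι ℂ)).PosDef :=
    PosDef.posSemidef_add hA (PosDef.one.smul (by exact_mod_cast ht))
  set B := A + (t : ℂ) • (1 : Matrix ι ι ℂ)
  have : B.adjugate = B.det • B⁻¹ := by
    rw [Matrix.inv_def, smul_smul, Ring.mul_inverse_cancel _ (isUnit_iff_ne_zero.2 hp.det_pos.ne'),
      one_smul]
  rw [this]
  exact (hp.inv.posSemidef.smul hp.det_pos.le).dotProduct_mulVec_nonneg x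

end Pool.Agent.Lib.MP_a839f6_an
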