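import Pool.Agent.Lib.MP_a839f6_an.Jacobi
import Pool.Agent.Lib.MP_a839f6_an.Mat

namespace Pool.Agent.Lib.MP_a839f6_an

open MeasureTheory Matrix Filter Topology Metric Complex
open scoped ContDiff ComplexOrder ComplexConjugate

/-- smooth complex functions -/
def Sm (n : ℕ) : Subalgebra ℂ ((Fin n → ℂ) → ℂ) where
  carrier := {f | ContDiff ℝ ∞ f}
  mul_mem' := fun {f g} (hf : ContDiff ℝ ∞ f) (hg : ContDiff ℝ ∞ g) =>
    show ContDiff ℝ ∞ (fun z => f z * g z) from hf.mul hg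
  add_mem' := fun {f g} (hf : ContDiff ℝ ∞ f) (hg : ContDiff ℝ ∞ g) =>
    show ContDiff ℝ ∞ (fun z => f z + g z) from hf.add hg
  algebraMap_mem' := fun c => show ContDiff ℝ ∞ (fun _ => c) from contDiff_const

/-- smooth real functions -/
def SR (n : ℕ) : Subalgebra ℝ ((Fin n → ℂ) → ℝ) where
  carrier := {f | ContDiff ℝ ∞ f}
  mul_mem' := fun {f g} (hf : ContDiff ℝ ∞ f) (hg : ContDiff ℝ ∞ g) =>
    show ContDiff ℝ ∞ (fun z => f z * g z) from hf.mul hg
  add_mem' := fun {f g} (hf : ContDiff ℝ ∞ f) (hg : ContDiff ℝ ∞ g) =>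
    show ContDiff ℝ ∞ (fun z => f z + g z) from hf.add hg
  algebraMap_mem' := fun c => show ContDiff ℝ ∞ (fun _ => c) from contDiff_const

variable {n : ℕ}

lemma Sm.cd (f : Sm n) : ContDiff ℝ ∞ f.1 := f.2
lemma SR.cd (f : SR n) : ContDiff ℝ ∞ f.1 := f.2
lemma Sm.diff (f : Sm n) : Differentiable ℝ f.1 := (Sm.cd f).differentiable (by simp)
lemma SR.diff (f : SR n) : Differentiable ℝ f.1 := (SR.cd f).differentiable (by simp)
@[fun_prop] lemma Sm.cont (f : Sm n) : Continuous f.1 := (Sm.cd f).continuous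
@[fun_prop] lemma SR.cont (f : SR n) : Continuous f.1 := (SR.cd f).continuous

/-- complexification -/
noncomputable def cx : SR n →ₗ[ℝ] Sm n where
  toFun f := ⟨fun z => (f.1 z : ℂ), ofRealCLM.contDiff.comp (SR.cd f)⟩
  map_add' f g := by ext z; simp
  map_smul' c f := by ext z; simp

@[simp] lemma cx_apply (f : SR n) (z : Fin n → ℂ) : (cx f).1 z = (f.1 z : ℂ) := rfl

/-- directional derivative -/
noncomputable def dd (v : Fin n → ℂ) : Derivation ℂ (Sm n) (Sm n) :=
  Derivation.mk'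
    { toFun := fun f => ⟨fun z => fderiv ℝ f.1 z v,
        ((Sm.cd f).fderiv_right (m := ∞) (by simp)).clm_apply contDiff_const⟩
      map_add' := fun f g => by
        ext z
        change fderiv ℝ (f.1 + g.1) z v = fderiv ℝ f.1 z v + fderiv ℝ g.1 z v
        rw [fderiv_add (Sm.diff f z) (Sm.diff g z)]; rfl
      map_smul' := fun c f => by
        ext z
        change fderiv ℝ (c • f.1) z v = c • fderiv ℝ f.1 z v
        rw [fderiv_const_smul (Sm.diff f z)]; rfl }
    (fun f g => by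
      ext z
      change fderiv ℝ (f.1 * g.1) z v = f.1 z * fderiv ℝ g.1 z v + g.1 z * fderiv ℝ f.1 z v
      rw [fderiv_mul (Sm.diff f z) (Sm.diff g z)]; rfl)

lemma dd_apply (v : Fin n → ℂ) (f : Sm n) (z : Fin n → ℂ) : (dd v f).1 z = fderiv ℝ f.1 z v := rfl

lemma fderiv_fderiv_apply {F : Type*} [NormedAddCommGroup F] [NormedSpace ℝ F]
    {f : (Fin n → ℂ) → F} (hf : ContDiff ℝ ∞ f) (z v w : Fin n → ℂ) :
    fderiv ℝ (fun y => fderiv ℝ f y w) z v = fderiv ℝ (fderiv ℝ f) z v w := by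
  rw [fderiv_clm_apply ((hf.fderiv_right (m := 1) (by norm_cast)).differentiable (by simp) z)
    (differentiableAt_const _)]
  simp

lemma dd_comm (v w : Fin n → ℂ) (f : Sm n) : dd v (dd w f) = dd w (dd v f) := by
  ext z
  change fderiv ℝ (fun y => fderiv ℝ f.1 y w) z v = fderiv ℝ (fun y => fderiv ℝ f.1 y v) z w
  rw [fderiv_fderiv_apply (Sm.cd f), fderiv_fderiv_apply (Sm.cd f)]
  exact ((Sm.cd f).contDiffAt.isSymmSndFDerivAt (by simp; norm_cast)).eq v w

/-- real directional derivative -/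
noncomputable def ddR (v : Fin n → ℂ) (f : SR n) : SR n :=
  ⟨fun z => fderiv ℝ f.1 z v, ((SR.cd f).fderiv_right (m := ∞) (by simp)).clm_apply contDiff_const⟩

lemma dd_cx (v : Fin n → ℂ) (f : SR n) : dd v (cx f) = cx (ddR v f) := by
  ext z
  change fderiv ℝ (ofRealCLM ∘ f.1) z v = _
  rw [fderiv_comp z ofRealCLM.differentiableAt (SR.diff f z), ofRealCLM.fderiv]
  rfl

/-- holomorphic derivative in a direction -/
noncomputable def Dw (w : Fin n → ℂ) : Derivation ℂ (Sm n) (Sm n) := dd w - I • dd (I • w)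

/-- antiholomorphic derivative in a direction -/
noncomputable def Dbw (w : Fin n → ℂ) : Derivation ℂ (Sm n) (Sm n) := dd w + I • dd (I • w)

/-- basis vectors -/
abbrev bv (i : Fin n) : Fin n → ℂ := Pi.single i 1

lemma Dw_apply (w : Fin n → ℂ) (f : Sm n) (z : Fin n → ℂ) :
    (Dw w f).1 z = fderiv ℝ f.1 z w - I * fderiv ℝ f.1 z (I • w) := rfl

lemma Dbw_apply (w : Fin n → ℂ) (f : Sm n) (z : Fin n → ℂ) :
    (Dbw w f).1 z = fderiv ℝ f.1 z w + I * fderiv ℝ f.1 z (I • w) := rfl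

lemma Dbw_comm (v w : Fin n → ℂ) (f : Sm n) : Dbw v (Dbw w f) = Dbw w (Dbw v f) := by
  simp only [Dbw, Derivation.add_apply, Derivation.smul_apply, map_add, Derivation.map_smul,
    dd_comm v, dd_comm (I • v), smul_add]
  abel

lemma lin_expand (T : (Fin n → ℂ) →L[ℝ] ℂ) (w : Fin n → ℂ) :
    T w = ∑ i, (((w i).re : ℂ) * T (bv i) + ((w i).im : ℂ) * T (I • bv i)) := by
  have : w = ∑ i, ((w i).re • bv i + (w i).im • (I • bv i)) := by
    funext j
    simp only [Finset.sum_apply, Pi.add_apply, Pi.smul_apply, Pi.single_apply, smul_eq_mul,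
      real_smul, mul_ite, mul_one, mul_zero, Finset.sum_add_distrib, Finset.sum_ite_eq,
      Finset.mem_univ, if_true, re_add_im]
  conv_lhs => rw [this]
  simp only [map_sum, map_add, map_smul, real_smul]

lemma Dw_eq_sum (w : Fin n → ℂ) (f : Sm n) : Dw w f = ∑ i, w i • Dw (bv i) f := by
  ext z
  rw [AddSubmonoidClass.coe_finsetSum, Finset.sum_apply, Dw_apply, lin_expand _ w,
    lin_expand _ (I • w), Finset.mul_sum, ← Finset.sum_sub_distrib]
  refine Finset.sum_congr rfl fun i _ => ?_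
  change _ = w i * (Dw (bv i) f).1 z
  rw [Dw_apply]
  simp only [Pi.smul_apply, smul_eq_mul, mul_re, I_re, I_im, mul_im, zero_mul, one_mul, zero_sub,
    zero_add, ofReal_neg]
  conv_rhs => rw [← re_add_im (w i)]
  linear_combination (((w i).im : ℂ) * fderiv ℝ f.1 z (I • bv i)) * I_mul_I

lemma Dbw_eq_sum (w : Fin n → ℂ) (f : Sm n) : Dbw w f = ∑ i, conj (w i) • Dbw (bv i) f := by
  ext z
  rw [AddSubmonoidClass.coe_finsetSum, Finset.sum_apply, Dbw_apply, lin_expand _ w,
    lin_expand _ (I • w), Finset.mul_sum, ← Finset.sum_add_distrib]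
  refine Finset.sum_congr rfl fun i _ => ?_
  change _ = conj (w i) * (Dbw (bv i) f).1 z
  rw [Dbw_apply]
  simp only [Pi.smul_apply, smul_eq_mul, mul_re, I_re, I_im, mul_im, zero_mul, one_mul, zero_sub,
    zero_add, ofReal_neg]
  conv_rhs => rw [← re_add_im (w i), map_add, map_mul, conj_ofReal, conj_ofReal, conj_I]
  linear_combination (((w i).im : ℂ) * fderiv ℝ f.1 z (I • bv i)) * I_mul_I

/-- Levi matrix -/
noncomputable def levi : Sm n →ₗ[ℂ] Matrix (Fin n) (Fin n) (Sm n) where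
  toFun f := Matrix.of fun i j => Dbw (bv j) (Dw (bv i) f)
  map_add' f g := by ext1 i j; simp
  map_smul' c f := by ext1 i j; simp

lemma levi_apply (f : Sm n) (i j : Fin n) : levi f i j = Dbw (bv j) (Dw (bv i) f) := rfl

/-- evaluation -/
noncomputable def ev (z : Fin n → ℂ) : Sm n →+* ℂ := (Pi.evalRingHom _ z).comp (Sm n).subtype

@[simp] lemma ev_apply (z : Fin n → ℂ) (f : Sm n) : ev z f = f.1 z := rfl

/-- Levi matrix at a point -/
noncomputable def lv (φ : SR n) (z : Fin n → ℂ) : Matrix (Fin n) (Fin n) ℂ :=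
  (ev z).mapMatrix (levi (cx φ))

lemma lv_apply (φ : SR n) (z : Fin n → ℂ) (i j : Fin n) :
    lv φ z i j = (Dbw (bv j) (Dw (bv i) (cx φ))).1 z := rfl

lemma levi_cx_smul (t : ℝ) (φ : SR n) : levi (cx (t • φ)) = t • levi (cx φ) := by
  rw [map_smul, LinearMap.map_smul_of_tower]

lemma lv_add (φ ψ : SR n) (z : Fin n → ℂ) : lv (φ + ψ) z = lv φ z + lv ψ z := by
  simp only [lv, map_add]

lemma lv_sub (φ ψ : SR n) (z : Fin n → ℂ) : lv (φ - ψ) z = lv φ z - lv ψ z := by
  simp only [lv, map_sub]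

lemma lv_smul (t : ℝ) (φ : SR n) (z : Fin n → ℂ) : lv (t • φ) z = t • lv φ z := by
  rw [lv, levi_cx_smul]; rfl

lemma lv_one (z : Fin n → ℂ) : lv (1 : SR n) z = 0 := by
  ext i j
  have : cx (1 : SR n) = 1 := rfl
  rw [lv_apply, this, Derivation.map_one_eq_zero, map_zero]; rfl

/-- second derivative -/
noncomputable def hess (φ : SR n) (z v w : Fin n → ℂ) : ℝ := fderiv ℝ (fderiv ℝ φ.1) z v w

lemma hess_symm (φ : SR n) (z v w : Fin n → ℂ) : hess φ z v w = hess φ z w v :=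
  ((SR.cd φ).contDiffAt.isSymmSndFDerivAt (by simp; norm_cast)).eq v w

lemma Dbw_Dw (φ : SR n) (z v w : Fin n → ℂ) : (Dbw v (Dw w (cx φ))).1 z =
    (hess φ z v w + hess φ z (I • v) (I • w) : ℝ) +
      I * (hess φ z (I • v) w - hess φ z v (I • w) : ℝ) := by
  have h : ∀ a b, (dd a (dd b (cx φ))).1 z = hess φ z a b := fun a b => by
    rw [dd_cx, dd_cx, cx_apply, hess, ← fderiv_fderiv_apply (SR.cd φ)]; rfl
  simp only [Dbw, Dw, Derivation.add_apply, Derivation.sub_apply, Derivation.smul_apply, map_sub,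
    Derivation.map_smul]
  change (dd v (dd w (cx φ))).1 z + I * (dd (I • v) (dd w (cx φ))).1 z -
    I * ((dd v (dd (I • w) (cx φ))).1 z + I * (dd (I • v) (dd (I • w) (cx φ))).1 z) = _
  simp only [h]
  push_cast
  linear_combination (-(hess φ z (I • v) (I • w) : ℂ)) * I_mul_I

lemma lv_herm (φ : SR n) (z : Fin n → ℂ) : (lv φ z).IsHermitian := by
  ext i j
  rw [conjTranspose_apply, lv_apply, lv_apply, Dbw_Dw, Dbw_Dw, hess_symm φ z (bv i),
    hess_symm φ z (I • bv i), hess_symm φ z (I • bv i), hess_symm φ z (bv i)]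
  simp only [star_def, map_add, map_mul, conj_ofReal, conj_I]
  push_cast; ring

lemma dot_lv (φ : SR n) (z c : Fin n → ℂ) : star c ⬝ᵥ lv φ z *ᵥ c =
    (hess φ z (star c) (star c) + hess φ z (I • star c) (I • star c) : ℝ) := by
  have h := Dbw_Dw φ z (star c) (star c)
  rw [hess_symm φ z (I • star c) (star c), sub_self, ofReal_zero, mul_zero, add_zero] at h
  rw [← h, Dbw_eq_sum, Dw_eq_sum]
  simp only [map_sum, Derivation.map_smul, AddSubmonoidClass.coe_finsetSum, Finset.sum_apply,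
    dotProduct, mulVec, Finset.mul_sum, Finset.smul_sum, lv_apply]
  rw [Finset.sum_comm]
  refine Finset.sum_congr rfl fun j _ => Finset.sum_congr rfl fun i _ => ?_
  change _ = conj (star c j) * (star c i * (Dbw (bv j) (Dw (bv i) (cx φ))).1 z)
  simp only [Pi.star_apply, star_def, conj_conj]
  ring

lemma qf_lv (φ : SR n) (z c : Fin n → ℂ) : qf (lv φ z) c =
    hess φ z (star c) (star c) + hess φ z (I • star c) (I • star c) := by
  rw [qf, dot_lv, ofReal_re]

lemma lv_psd {φ : SR n} {z : Fin n → ℂ}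
    (h : ∀ w, 0 ≤ hess φ z w w + hess φ z (I • w) (I • w)) : (lv φ z).PosSemidef := by
  refine PosSemidef.of_dotProduct_mulVec_nonneg (lv_herm φ z) fun c => ?_
  rw [dot_lv]
  exact_mod_cast h _

/-- complex gradient -/
noncomputable def gr (f : SR n) (z : Fin n → ℂ) : Fin n → ℂ := fun i => (Dw (bv i) (cx f)).1 z

lemma Dbw_cx (w : Fin n → ℂ) (f : SR n) (z : Fin n → ℂ) :
    (Dbw w (cx f)).1 z = conj ((Dw w (cx f)).1 z) := by
  rw [Dbw_apply, Dw_apply, ← dd_apply, ← dd_apply, dd_cx, dd_cx]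
  simp

/-- composition with a smooth real function -/
def cmp (m : ℝ → ℝ) (hm : ContDiff ℝ ∞ m) (h : SR n) : SR n := ⟨m ∘ h.1, hm.comp (SR.cd h)⟩

lemma contDiff_deriv {m : ℝ → ℝ} (hm : ContDiff ℝ ∞ m) : ContDiff ℝ ∞ (deriv m) :=
  (contDiff_infty_iff_deriv.1 hm).2

lemma dd_cmp {m : ℝ → ℝ} (hm : ContDiff ℝ ∞ m) (h : SR n) (v : Fin n → ℂ) :
    dd v (cx (cmp m hm h)) = cx (cmp (deriv m) (contDiff_deriv hm) h) * dd v (cx h) := by
  rw [dd_cx, dd_cx]
  ext z
  change ((fderiv ℝ (m ∘ h.1) z v : ℝ) : ℂ) = (deriv m (h.1 z) : ℝ) * ((fderiv ℝ h.1 z v : ℝ) : ℂ)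
  rw [((hm.differentiable (by simp) (h.1 z)).hasDerivAt.comp_hasFDerivAt z
    (SR.diff h z).hasFDerivAt).fderiv]
  simp

lemma lv_cmp {m : ℝ → ℝ} (hm : ContDiff ℝ ∞ m) (h : SR n) (z : Fin n → ℂ) :
    lv (cmp m hm h) z = deriv m (h.1 z) • lv h z +
      deriv (deriv m) (h.1 z) • vecMulVec (gr h z) (star (gr h z)) := by
  have h1 : ∀ w, Dw w (cx (cmp m hm h)) = cx (cmp (deriv m) (contDiff_deriv hm) h) * Dw w (cx h) := by
    intro w
    simp only [Dw, Derivation.sub_apply, Derivation.smul_apply, dd_cmp, mul_sub, mul_smul_comm]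
  have h2 : ∀ w, Dbw w (cx (cmp (deriv m) (contDiff_deriv hm) h)) =
      cx (cmp (deriv (deriv m)) (contDiff_deriv (contDiff_deriv hm)) h) * Dbw w (cx h) := by
    intro w
    simp only [Dbw, Derivation.add_apply, Derivation.smul_apply, dd_cmp, mul_add, mul_smul_comm]
  ext i j
  rw [lv_apply, h1, Derivation.leibniz, h2]
  change ((deriv m (h.1 z) : ℝ) : ℂ) * lv h z i j + gr h z i *
    (((deriv (deriv m) (h.1 z) : ℝ) : ℂ) * (Dbw (bv j) (cx h)).1 z) = _
  rw [Dbw_cx]
  simp only [Matrix.add_apply, Matrix.smul_apply, vecMulVec_apply, real_smul, Pi.star_apply,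
    star_def, gr]
  ring

/-- integral over a ball -/
noncomputable def Lam (R : ℝ) : Sm n →ₗ[ℂ] ℂ where
  toFun f := ∫ z in closedBall 0 R, f.1 z
  map_add' f g := integral_add
    ((Sm.cont f).continuousOn.integrableOn_compact (isCompact_closedBall _ _))
    ((Sm.cont g).continuousOn.integrableOn_compact (isCompact_closedBall _ _))
  map_smul' c _ := integral_smul c _

lemma Lam_apply (R : ℝ) (f : Sm n) : Lam R f = ∫ z in closedBall 0 R, f.1 z := rfl

lemma Lam_dd {R : ℝ} {f : Sm n} (hf : ∀ z, R < ‖z‖ → f.1 z = 0) (v : Fin n → ℂ) :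
    Lam R (dd v f) = 0 := by
  have hc : HasCompactSupport f.1 := HasCompactSupport.intro (isCompact_closedBall 0 R)
    fun z hz => hf z (by simpa using hz)
  have h1 : ∀ z, z ∉ closedBall (0 : Fin n → ℂ) R → (dd v f).1 z = 0 := by
    intro z hz
    have : f.1 =ᶠ[𝓝 z] fun _ => 0 := by
      filter_upwards [isClosed_closedBall.isOpen_compl.mem_nhds hz] with y hy
      exact hf y (by simpa using hy)
    rw [dd_apply, this.fderiv_eq]; simp
  rw [Lam_apply, setIntegral_eq_integral_of_forall_compl_eq_zero h1]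
  have := integral_mul_fderiv_eq_neg_fderiv_mul_of_integrable (μ := volume)
    (f := fun _ : Fin n → ℂ => (1 : ℂ)) (g := f.1) (v := v) (by simp)
    (by
      simp only [one_mul]
      exact (Sm.cont (dd v f)).integrable_of_hasCompactSupport
        (HasCompactSupport.intro (isCompact_closedBall 0 R) h1))
    (by simpa using (Sm.cont f).integrable_of_hasCompactSupport hc)
    (fun _ _ => differentiableAt_const _) (fun z _ => Sm.diff f z)
  simpa [dd_apply] using this

lemma Lam_Dbw {R : ℝ} {f : Sm n} (hf : ∀ z, R < ‖z‖ → f.1 z = 0) (v : Fin n → ℂ) :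
    Lam R (Dbw v f) = 0 := by
  simp only [Dbw, Derivation.add_apply, Derivation.smul_apply, map_add, map_smul, Lam_dd hf]
  simp

lemma Dw_supp {R : ℝ} {f : Sm n} (hf : ∀ z, R < ‖z‖ → f.1 z = 0) (v : Fin n → ℂ) :
    ∀ z, R < ‖z‖ → (Dw v f).1 z = 0 := by
  intro z hz
  have : f.1 =ᶠ[𝓝 z] fun _ => 0 := by
    filter_upwards [(isOpen_lt continuous_const continuous_norm).mem_nhds hz] with y hy
    exact hf y hy
  rw [Dw_apply, this.fderiv_eq]; simp

lemma piola_levi (φ : Sm n) (i : Fin n) : ∑ j, Dbw (bv j) ((levi φ).adjugate j i) = 0 := by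
  have : Invertible (2 : ℂ) := invertibleOfNonzero two_ne_zero
  have h := piola (R := ℂ) (S := Sm n) (fun j => Dbw (bv j)) (fun _ _ => Dbw_comm _ _)
    (fun i => Dw (bv i) φ) i
  have e : levi φ = Matrix.of fun i j => Dbw (bv j) (Dw (bv i) φ) := rfl
  rw [e]
  exact h

/-- integration by parts -/
lemma Lam_ibp {R : ℝ} (φ f u : Sm n)
    (h : ∀ i z, R < ‖z‖ → (f * Dw (bv i) u).1 z = 0) :
    Lam R (f * ∑ i, ∑ j, (levi φ).adjugate j i * levi u i j) =
      -Lam R (∑ i, ∑ j, (levi φ).adjugate j i * (Dbw (bv j) f * Dw (bv i) u)) := by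
  rw [eq_neg_iff_add_eq_zero, ← map_add, Finset.mul_sum, ← Finset.sum_add_distrib, map_sum]
  refine Finset.sum_eq_zero fun i _ => ?_
  have : f * ∑ j, (levi φ).adjugate j i * levi u i j +
      ∑ j, (levi φ).adjugate j i * (Dbw (bv j) f * Dw (bv i) u) =
      ∑ j, Dbw (bv j) ((levi φ).adjugate j i * (f * Dw (bv i) u)) := by
    simp only [Derivation.leibniz, smul_eq_mul, Finset.sum_add_distrib, ← Finset.mul_sum,
      piola_levi, levi_apply, mul_zero, add_zero]
    simp only [Finset.mul_sum, ← Finset.sum_add_distrib]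
    exact Finset.sum_congr rfl fun j _ => by ring
  rw [this, map_sum]
  refine Finset.sum_eq_zero fun j _ => Lam_Dbw (fun z hz => ?_) _
  change ((levi φ).adjugate j i).1 z * (f * Dw (bv i) u).1 z = 0
  rw [h i z hz, mul_zero]

end Pool.Agent.Lib.MP_a839f6_an
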