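import Pool.Agent.Lib.MP_a839f6_an.Deriv

namespace Pool.Agent.Lib.MP_a839f6_an

open MeasureTheory Matrix Filter Topology Metric Complex Set
open scoped ContDiff ComplexOrder ComplexConjugate

variable {n : ℕ} {R : ℝ}

/-- weighted real integral -/
noncomputable def LamR (R : ℝ) (f : SR n) : Sm n →ₗ[ℝ] ℝ :=
  reLm ∘ₗ (Lam (n := n) R).restrictScalars ℝ ∘ₗ LinearMap.mulLeft (A := Sm n) ℝ (cx f)

lemma LamR_apply (f : SR n) (h : Sm n) : LamR R f h = (Lam R (cx f * h)).re := rfl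

lemma re_Lam (h : Sm n) : (Lam R h).re = ∫ z in closedBall 0 R, (h.1 z).re := by
  have := integral_re ((Sm.cont h).continuousOn.integrableOn_compact (μ := volume)
    (isCompact_closedBall (0 : Fin n → ℂ) R))
  exact this.symm

/-- Monge-Ampere measure applied to a function -/
noncomputable def om (R : ℝ) (φ f : SR n) : ℝ := LamR R f (levi (cx φ)).det

/-- second variation -/
noncomputable def bf (R : ℝ) (φ f u : SR n) : ℝ :=
  LamR R f (∑ i, ∑ j, (levi (cx φ)).adjugate j i * levi (cx u) i j)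

lemma det_lv (φ : SR n) (z : Fin n → ℂ) : (lv φ z).det = (levi (cx φ)).det.1 z := by
  rw [lv, ← RingHom.map_det]; rfl

@[fun_prop] lemma continuous_det_lv (φ : SR n) : Continuous fun z => (lv φ z).det.re := by
  simp only [det_lv]; fun_prop

lemma om_eq (φ f : SR n) : om R φ f = ∫ z in closedBall 0 R, f.1 z * (lv φ z).det.re := by
  rw [om, LamR_apply, re_Lam]
  simp only [det_lv, ← re_ofReal_mul]
  rfl

/-- vanishing outside the ball -/
def Supp (R : ℝ) (f : SR n) : Prop := ∀ z, R < ‖z‖ → f.1 z = 0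

lemma Supp.add {f u : SR n} (hf : Supp R f) (hu : Supp R u) : Supp R (f + u) := fun z hz => by
  change f.1 z + u.1 z = 0
  rw [hf z hz, hu z hz, add_zero]

lemma Supp.sub {f u : SR n} (hf : Supp R f) (hu : Supp R u) : Supp R (f - u) := fun z hz => by
  change f.1 z - u.1 z = 0
  rw [hf z hz, hu z hz, sub_zero]

lemma Supp.smul {f : SR n} (hf : Supp R f) (t : ℝ) : Supp R (t • f) := fun z hz => by
  change t * f.1 z = 0
  rw [hf z hz, mul_zero]

lemma bf_eq (φ : SR n) {f u : SR n} (h : Supp R f ∨ Supp R u) : bf R φ f u =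
    -∫ z in closedBall 0 R, (star (gr f z) ⬝ᵥ (lv φ z).adjugate *ᵥ gr u z).re := by
  rw [bf, LamR_apply, Lam_ibp, neg_re, re_Lam]
  · congr 2; funext z; congr 1
    rw [lv, ← RingHom.map_adjugate, ← ev_apply]
    simp only [map_sum, map_mul, ev_apply, Dbw_cx, dotProduct, mulVec, Finset.mul_sum, gr,
      Pi.star_apply, star_def, RingHom.mapMatrix_apply, map_apply]
    rw [Finset.sum_comm]
    exact Finset.sum_congr rfl fun _ _ => Finset.sum_congr rfl fun _ _ => by ring
  · intro i z hz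
    change (f.1 z : ℂ) * (Dw (bv i) (cx u)).1 z = 0
    rcases h with h | h
    · rw [h z hz]; simp
    · rw [Dw_supp (fun y hy => by rw [cx_apply, h y hy]; simp) _ z hz, mul_zero]

lemma bf_symm (φ : SR n) {f : SR n} (h : Supp R f) (u : SR n) : bf R φ f u = bf R φ u f := by
  rw [bf_eq φ (Or.inl h), bf_eq φ (Or.inr h)]
  congr 2; funext z
  rw [← conj_re, ← star_def, ← star_dotProduct_star, star_star, star_mulVec,
    (lv_herm φ z).adjugate.eq, ← dotProduct_mulVec]

lemma bf_nonpos {φ f : SR n} (hφ : ∀ z, (lv φ z).PosSemidef) (h : Supp R f) : bf R φ f f ≤ 0 := by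
  rw [bf_eq φ (Or.inl h), neg_nonpos]
  exact integral_nonneg fun z => qf_nonneg (posSemidef_adjugate (hφ z)) _

lemma bf_one (φ : SR n) {u : SR n} (h : Supp R u) : bf R φ 1 u = 0 := by
  rw [bf_eq φ (Or.inr h)]
  have : ∀ z, gr (1 : SR n) z = 0 := fun z => by
    funext i
    have : cx (1 : SR n) = 1 := rfl
    rw [gr, this, Derivation.map_one_eq_zero]; rfl
  simp [this]

lemma bf_add_left (φ f f' u : SR n) : bf R φ (f + f') u = bf R φ f u + bf R φ f' u := by
  simp only [bf, LamR_apply, map_add, add_mul, add_re]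

lemma bf_smul_left (φ f u : SR n) (t : ℝ) : bf R φ (t • f) u = t * bf R φ f u := by
  simp only [bf, LamR_apply, map_smul, smul_mul_assoc, LinearMap.map_smul_of_tower, smul_re,
    smul_eq_mul]

lemma bf_add_right (φ f u u' : SR n) : bf R φ f (u + u') = bf R φ f u + bf R φ f u' := by
  simp only [bf, map_add, Matrix.add_apply, mul_add, Finset.sum_add_distrib]

lemma bf_sub_right (φ f u u' : SR n) : bf R φ f (u - u') = bf R φ f u - bf R φ f u' := by
  simp only [bf, map_sub, Matrix.sub_apply, mul_sub, Finset.sum_sub_distrib]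

lemma bf_smul_right (φ f u : SR n) (t : ℝ) : bf R φ f (t • u) = t * bf R φ f u := by
  rw [bf, levi_cx_smul]
  simp only [bf, Matrix.smul_apply, mul_smul_comm, ← Finset.smul_sum, map_smul, smul_eq_mul]

lemma bf_cs {φ f u : SR n} (hφ : ∀ z, (lv φ z).PosSemidef) (hf : Supp R f) (hu : Supp R u)
    (l : ℝ) : 2 * l * bf R φ f u + l ^ 2 * bf R φ u u + bf R φ f f ≤ 0 := by
  have := bf_nonpos hφ (hf.add (hu.smul l))
  rw [bf_add_left, bf_add_right, bf_add_right, bf_smul_left, bf_smul_left, bf_smul_right,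
    bf_smul_right, bf_symm φ hu f] at this
  linarith

lemma exists_poly_om (φ u f : SR n) : ∃ P : Polynomial ℝ, P.natDegree ≤ n ∧
    (∀ t : ℝ, P.eval t = om R (φ + t • u) f) ∧
      ∀ t : ℝ, P.derivative.eval t = bf R (φ + t • u) f u := by
  obtain ⟨P, h1, h2, h3⟩ := exists_poly (A := Sm n) (LamR R f) (levi (cx φ)) (levi (cx u))
  refine ⟨P, by simpa using h1, fun t => ?_, fun t => ?_⟩
  · rw [h2, om, map_add, map_add, levi_cx_smul]
  · rw [h3, bf, map_add, map_add, levi_cx_smul]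

lemma hasDerivAt_om (φ u f : SR n) (t : ℝ) :
    HasDerivAt (fun t : ℝ => om R (φ + t • u) f) (bf R (φ + t • u) f u) t := by
  obtain ⟨P, -, h2, h3⟩ := exists_poly_om (R := R) φ u f
  simp only [← h2, ← h3]
  exact P.hasDerivAt t

lemma continuous_om (φ u f : SR n) : Continuous fun t : ℝ => om R (φ + t • u) f :=
  continuous_iff_continuousAt.2 fun t => (hasDerivAt_om φ u f t).continuousAt

/-- smooth plurisubharmonic functions equal to g outside the ball -/
structure PP (R : ℝ) (g φ : SR n) : Prop where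
  supp : Supp R (φ - g)
  psd : ∀ z, (lv φ z).PosSemidef

variable {g x y : SR n}

lemma PP.supp_sub (hx : PP R g x) (hy : PP R g y) : Supp R (y - x) := by
  have := hy.supp.sub hx.supp
  rwa [sub_sub_sub_cancel_right] at this

lemma PP.conv (hx : PP R g x) (hy : PP R g y) {t : ℝ} (ht : t ∈ Icc (0 : ℝ) 1) :
    PP R g (x + t • (y - x)) := by
  refine ⟨?_, fun z => ?_⟩
  · rw [add_sub_right_comm]; exact hx.supp.add ((hx.supp_sub hy).smul t)
  · have : x + t • (y - x) = (1 - t) • x + t • y := by module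
    rw [this, lv_add, lv_smul, lv_smul]
    exact ((hx.psd z).smul (sub_nonneg.2 ht.2)).add ((hy.psd z).smul ht.1)

lemma mass {φ : SR n} (h : Supp R (φ - g)) : om R φ 1 = om R g 1 := by
  have := is_const_of_deriv_eq_zero (f := fun t : ℝ => om R (g + t • (φ - g)) 1)
    (fun t => (hasDerivAt_om g (φ - g) 1 t).differentiableAt)
    (fun t => by rw [(hasDerivAt_om g (φ - g) 1 t).deriv, bf_one _ h]) 1 0
  simpa using this

lemma intOn {f : (Fin n → ℂ) → ℝ} (hf : Continuous f) (a : Fin n → ℂ) (r : ℝ) :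
    IntegrableOn f (closedBall a r) :=
  hf.continuousOn.integrableOn_compact (isCompact_closedBall _ _)

lemma om_mono {φ f f' : SR n} (h : ∀ z, (lv φ z).PosSemidef)
    (hf : ∀ z, ‖z‖ ≤ R → f.1 z ≤ f'.1 z) : om R φ f ≤ om R φ f' := by
  rw [om_eq, om_eq]
  exact setIntegral_mono_on (intOn (by fun_prop) _ _) (intOn (by fun_prop) _ _)
    measurableSet_closedBall fun z hz =>
      mul_le_mul_of_nonneg_right (hf z (by simpa using hz)) (det_re_nonneg (h z))

lemma om_smul (φ f : SR n) (t : ℝ) : om R φ (t • f) = t * om R φ f := by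
  simp only [om, LamR_apply, map_smul, smul_mul_assoc, LinearMap.map_smul_of_tower, smul_re,
    smul_eq_mul]

lemma PP.om_le (hx : PP R g x) {f : SR n} {F : ℝ} (hf : ∀ z, ‖z‖ ≤ R → f.1 z ≤ F) :
    om R x f ≤ F * om R g 1 := by
  rw [← mass hx.supp, ← om_smul]
  exact om_mono hx.psd fun z hz => by simpa using hf z hz

lemma PP.om_nonneg (hx : PP R g x) {f : SR n} (hf : ∀ z, ‖z‖ ≤ R → 0 ≤ f.1 z) :
    0 ≤ om R x f := by
  have := om_mono (f := (0 : ℝ) • f) hx.psd fun z hz => by simpa using hf z hz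
  rwa [om_smul, zero_mul] at this

lemma PP.abs_om_le (hx : PP R g x) {f : SR n} {F : ℝ} (hf : ∀ z, ‖z‖ ≤ R → |f.1 z| ≤ F) :
    |om R x f| ≤ F * om R g 1 := by
  refine abs_le.2 ⟨?_, hx.om_le fun z hz => (le_abs_self _).trans (hf z hz)⟩
  have := hx.om_le (f := (-1 : ℝ) • f) (F := F) fun z hz => by
    simpa using (neg_le_abs _).trans (hf z hz)
  rw [om_smul] at this
  linarith

lemma exists_bf_bound (n : ℕ) : ∃ C : ℝ, 0 ≤ C ∧ ∀ (R : ℝ) (g x y f : SR n) (F : ℝ),
    PP R g x → PP R g y → (∀ z, ‖z‖ ≤ R → |f.1 z| ≤ F) →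
      ∀ t ∈ Icc (0 : ℝ) 1, |bf R (x + t • (y - x)) f (y - x)| ≤ C * (F * om R g 1) := by
  obtain ⟨C, hC0, hC⟩ := markov n
  refine ⟨C, hC0, fun R g x y f F hx hy hf t ht => ?_⟩
  obtain ⟨P, h1, h2, h3⟩ := exists_poly_om (R := R) x (y - x) f
  rw [← h3]
  exact hC P _ h1 (fun s hs => by rw [h2]; exact (hx.conv hy hs).abs_om_le hf) t ht

lemma le_of_deriv_nonpos {h h' : ℝ → ℝ} (hd : ∀ t, HasDerivAt h (h' t) t) {τ : ℝ} (hτ : 0 ≤ τ)
    (h0 : ∀ t ∈ Icc 0 τ, h' t ≤ 0) : h τ ≤ h 0 :=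
  antitoneOn_of_deriv_nonpos (convex_Icc 0 τ) (fun t _ => (hd t).continuousAt.continuousWithinAt)
    (fun t _ => (hd t).differentiableAt.differentiableWithinAt)
    (fun t ht => by rw [(hd t).deriv]; exact h0 t (interior_subset ht))
    (left_mem_Icc.2 hτ) (right_mem_Icc.2 hτ) hτ

lemma PP.om_antitone (hx : PP R g x) (hy : PP R g y) {t : ℝ} (ht : t ∈ Icc (0 : ℝ) 1) :
    om R (x + t • (y - x)) (y - x) ≤ om R x (y - x) := by
  simpa using le_of_deriv_nonpos (hasDerivAt_om (R := R) x (y - x) (y - x)) ht.1 fun s hs =>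
    bf_nonpos (hx.conv hy ⟨hs.1, hs.2.trans ht.2⟩).psd (hx.supp_sub hy)

/-- Monge-Ampere energy -/
noncomputable def en (R : ℝ) (g φ : SR n) : ℝ := ∫ t in (0 : ℝ)..1, om R (g + t • (φ - g)) (φ - g)

lemma cocycle (g : SR n) {w u : SR n} (hw : Supp R w) :
    ∫ t in (0 : ℝ)..1, om R (g + t • (w + u)) (w + u) =
      (∫ t in (0 : ℝ)..1, om R (g + t • w) w) + ∫ t in (0 : ℝ)..1, om R (g + w + t • u) u := by
  let Ψ : SR n → ℝ × ℝ → ℝ := fun f p => om R (g + p.1 • w + p.2 • u) f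
  have hΨ : ∀ f, Differentiable ℝ (Ψ f) := fun f => by
    have := contDiff_det (A := Sm n) (LamR R f) (levi (cx g)) (levi (cx w)) (levi (cx u))
    simp only [← levi_cx_smul, ← map_add] at this
    exact this.differentiable one_ne_zero
  have hD : ∀ f p q, fderiv ℝ (Ψ f) p q = bf R (g + p.1 • w + p.2 • u) f (q.1 • w + q.2 • u) := by
    intro f p q
    have h1 : HasDerivAt (fun t : ℝ => Ψ f (p + t • q)) (fderiv ℝ (Ψ f) p q) 0 :=
      (hΨ f p).hasFDerivAt.hasLineDerivAt q
    have h2 := hasDerivAt_om (R := R) (g + p.1 • w + p.2 • u) (q.1 • w + q.2 • u) f 0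
    rw [zero_smul, add_zero] at h2
    have e : (fun t : ℝ => Ψ f (p + t • q)) =
        fun t : ℝ => om R (g + p.1 • w + p.2 • u + t • (q.1 • w + q.2 • u)) f := by
      funext t
      simp only [Ψ, Prod.fst_add, Prod.snd_add, Prod.smul_fst, Prod.smul_snd, smul_eq_mul]
      congr 1; module
    rw [e] at h1
    exact h1.unique h2
  let A := ContinuousLinearMap.fst ℝ ℝ ℝ
  let B := ContinuousLinearMap.snd ℝ ℝ ℝ
  have hF : ∀ p, HasFDerivAt (fun p => Ψ w p • A + Ψ u p • B)
      ((fderiv ℝ (Ψ w) p).smulRight A + (fderiv ℝ (Ψ u) p).smulRight B) p := fun p =>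
    ((hΨ w p).hasFDerivAt.smul_const A).add ((hΨ u p).hasFDerivAt.smul_const B)
  have hF' : DifferentiableOn ℝ (fun p => Ψ w p • A + Ψ u p • B) univ :=
    fun p _ => (hF p).differentiableAt.differentiableWithinAt
  obtain ⟨P, hP⟩ := convex_univ.exists_forall_hasFDerivAt_of_fderiv_symmetric isOpen_univ
    hF' (fun p _ a b => by
      rw [(hF p).fderiv]
      simp only [_root_.add_apply, ContinuousLinearMap.smulRight_apply, hD,
        _root_.smul_apply, smul_eq_mul, bf_add_right, bf_smul_right, A, B,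
        ContinuousLinearMap.coe_fst', ContinuousLinearMap.coe_snd', bf_symm _ hw u]
      ring)
  have key : ∀ p q : ℝ × ℝ, ∫ t in (0 : ℝ)..1,
      om R (g + p.1 • w + p.2 • u + t • (q.1 • w + q.2 • u)) (q.1 • w + q.2 • u) =
        P (p + q) - P p := by
    intro p q
    have := intervalIntegral.integral_eq_sub_of_hasDerivAt (a := 0) (b := 1)
      (f := fun t : ℝ => P (p + t • q)) (f' := fun t : ℝ =>
        om R (g + p.1 • w + p.2 • u + t • (q.1 • w + q.2 • u)) (q.1 • w + q.2 • u))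
      (fun t _ => by
        have h1 : HasDerivAt (fun t : ℝ => p + t • q) q t := by
          simpa using ((hasDerivAt_id t).smul_const q).const_add p
        refine ((hP (p + t • q) trivial).comp_hasDerivAt t h1).congr_deriv ?_
        have e : g + p.1 • w + p.2 • u + t • (q.1 • w + q.2 • u) =
            g + (p + t • q).1 • w + (p + t • q).2 • u := by
          simp only [Prod.fst_add, Prod.snd_add, Prod.smul_fst, Prod.smul_snd, smul_eq_mul]
          module
        rw [e]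
        simp only [_root_.add_apply, _root_.smul_apply, smul_eq_mul, A, B,
          ContinuousLinearMap.coe_fst', ContinuousLinearMap.coe_snd', Ψ, om, LamR_apply, map_add,
          map_smul, add_mul, smul_mul_assoc, LinearMap.map_smul_of_tower, add_re, smul_re]
        ring)
      ((continuous_om _ _ _).intervalIntegrable _ _)
    simpa using this
  have k1 := key (0, 0) (1, 1)
  have k2 := key (0, 0) (1, 0)
  have k3 := key (1, 0) (0, 1)
  simp only [zero_smul, add_zero, one_smul, zero_add, Prod.mk_add_mk] at k1 k2 k3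
  rw [k1, k2, k3]; ring

lemma en_sub (hx : Supp R (x - g)) (y : SR n) :
    en R g y - en R g x = ∫ t in (0 : ℝ)..1, om R (x + t • (y - x)) (y - x) := by
  have := cocycle g hx (u := y - x)
  rw [show x - g + (y - x) = y - g by abel, show g + (x - g) = x by abel] at this
  rw [en, en, this]; ring

lemma PP.en_sub_le (hx : PP R g x) (hy : PP R g y) {F : ℝ}
    (hf : ∀ z, ‖z‖ ≤ R → y.1 z - x.1 z ≤ F) : en R g y - en R g x ≤ F * om R g 1 := by
  rw [en_sub hx.supp]
  have := intervalIntegral.integral_mono_on (μ := volume) zero_le_one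
    ((continuous_om (R := R) x (y - x) (y - x)).intervalIntegrable _ _)
    (intervalIntegrable_const (c := F * om R g 1)) fun t ht => (hx.conv hy ht).om_le hf
  simpa using this

lemma energy_main (hg : ∀ z, (lv g z).PosSemidef) {F : ℝ} {𝒜 : Set (SR n)} (hne : 𝒜.Nonempty)
    (h𝒜 : ∀ φ ∈ 𝒜, PP R g φ ∧ ∀ z, 0 ≤ φ.1 z - g.1 z ∧ φ.1 z - g.1 z ≤ F) {ε : ℝ} (hε : 0 < ε) :
    ∃ y₀ ∈ 𝒜, ∃ η > 0, ∀ x, PP R g x → (∀ z, 0 ≤ x.1 z - g.1 z ∧ x.1 z - g.1 z ≤ F) →
      (∀ z, y₀.1 z - x.1 z ≤ η) → ∀ y ∈ 𝒜, (∀ z, x.1 z ≤ y.1 z) →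
        ∀ a, PP R g a → (∀ z, 0 ≤ a.1 z - g.1 z ∧ a.1 z - g.1 z ≤ F) →
          om R y (a - y) ≤ om R x (a - y) + ε := by
  obtain ⟨C, hC0, hC⟩ := exists_bf_bound n
  have hgg : PP R g g := ⟨fun z _ => by simp, hg⟩
  have hM : 0 ≤ om R g 1 := hgg.om_nonneg fun _ _ => zero_le_one
  set M := om R g 1 with hMdef
  obtain ⟨φ₀, hφ₀⟩ := hne
  have hF : 0 ≤ F := ((h𝒜 φ₀ hφ₀).2 0).1.trans ((h𝒜 φ₀ hφ₀).2 0).2
  set D := 2 * (C * (F * M)) + 1 with hD
  have hD0 : 0 < D := by positivity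
  have hbf : ∀ φ a b : SR n, PP R g φ → PP R g a → PP R g b →
      (∀ z, 0 ≤ a.1 z - g.1 z ∧ a.1 z - g.1 z ≤ F) → (∀ z, 0 ≤ b.1 z - g.1 z ∧ b.1 z - g.1 z ≤ F) →
      -D ≤ bf R φ (a - b) (a - b) := by
    intro φ a b hφ ha hb ha' hb'
    have hf : ∀ z, ‖z‖ ≤ R → |(a - b).1 z| ≤ F := fun z _ => by
      change |a.1 z - b.1 z| ≤ F
      rw [abs_le]; constructor <;> linarith [ha' z, hb' z]
    have h1 := hC R g φ a (a - b) F hφ ha hf 0 (by simp)
    have h2 := hC R g φ b (a - b) F hφ hb hf 0 (by simp)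
    rw [zero_smul, add_zero, abs_le] at h1 h2
    nth_rewrite 2 [show a - b = (a - φ) - (b - φ) by abel]
    rw [bf_sub_right]
    linarith [h1.1, h2.2]
  have hbd : BddAbove (en R g '' 𝒜) := ⟨F * M, by
    rintro _ ⟨φ, hφ, rfl⟩
    have := hgg.en_sub_le (h𝒜 φ hφ).1 fun z _ => ((h𝒜 φ hφ).2 z).2
    have e : en R g g = 0 := by simp [en, om, LamR_apply]
    linarith⟩
  set l := D / ε with hl
  have hl0 : 0 < l := by positivity
  set τ := min 1 (ε / (2 * l * D)) with hτ
  have hτ0 : 0 < τ := lt_min one_pos (by positivity)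
  set δ := τ * (ε / (2 * l)) / 2 with hδ
  have hδ0 : 0 < δ := by positivity
  obtain ⟨_, ⟨y₀, hy₀, rfl⟩, hy₀'⟩ := exists_lt_of_lt_csSup (Set.Nonempty.image (en R g) ⟨φ₀, hφ₀⟩)
    (sub_lt_self (sSup (en R g '' 𝒜)) hδ0)
  refine ⟨y₀, hy₀, δ / (M + 1), by positivity, fun x hx hx' hη y hy hxy a ha ha' => ?_⟩
  obtain ⟨hy1, hy2⟩ := h𝒜 y hy
  have e1 := hx.en_sub_le (h𝒜 y₀ hy₀).1 fun z _ => hη z
  have e2 : en R g y ≤ sSup (en R g '' 𝒜) := le_csSup hbd ⟨y, hy, rfl⟩
  have e3 : δ / (M + 1) * M ≤ δ := by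
    rw [div_mul_eq_mul_div, div_le_iff₀ (by positivity)]; nlinarith
  have e4 : en R g y - en R g x ≤ 2 * δ := by linarith
  have hu : ∀ z, ‖z‖ ≤ R → 0 ≤ (y - x).1 z := fun z _ => sub_nonneg.2 (hxy z)
  have hq : ∀ s ∈ Icc (0 : ℝ) 1, om R x (y - x) - D * s ≤ om R (x + s • (y - x)) (y - x) := by
    intro s hs
    have := le_of_deriv_nonpos (h := fun t => -(om R (x + t • (y - x)) (y - x)) - D * t)
      (fun t => (hasDerivAt_om x (y - x) (y - x) t).neg.sub ((hasDerivAt_id t).const_mul D))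
      hs.1 fun t ht => by
        linarith [hbf _ y x (hx.conv hy1 ⟨ht.1, ht.2.trans hs.2⟩) hy1 hx hy2 hx']
    simp only [zero_smul, add_zero] at this
    linarith
  have e5 : τ * (om R x (y - x) - D * τ) ≤ en R g y - en R g x := by
    have hc := continuous_om (R := R) x (y - x) (y - x)
    have hτ1 : τ ≤ 1 := min_le_left _ _
    rw [en_sub hx.supp, ← intervalIntegral.integral_add_adjacent_intervals (μ := volume)
      (hc.intervalIntegrable 0 τ) (hc.intervalIntegrable τ 1)]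
    have a1 := intervalIntegral.integral_mono_on (μ := volume) hτ0.le
      (intervalIntegrable_const (c := om R x (y - x) - D * τ)) (hc.intervalIntegrable 0 τ)
      fun t ht => by nlinarith [hq t ⟨ht.1, ht.2.trans hτ1⟩, ht.2]
    have a2 : 0 ≤ ∫ t in τ..1, om R (x + t • (y - x)) (y - x) :=
      intervalIntegral.integral_nonneg hτ1 fun t ht =>
        (hx.conv hy1 ⟨hτ0.le.trans ht.1, ht.2⟩).om_nonneg hu
    simp only [intervalIntegral.integral_const, sub_zero, smul_eq_mul] at a1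
    linarith
  have e6 : om R x (y - x) ≤ ε / l := by
    have b1 : om R x (y - x) - D * τ ≤ ε / (2 * l) := by
      refine le_of_mul_le_mul_left ?_ hτ0
      linarith
    have b2 : D * τ ≤ ε / (2 * l) := by
      have : τ ≤ ε / (2 * l * D) := min_le_right _ _
      rw [le_div_iff₀ (by positivity)] at this ⊢
      linarith
    have b3 : ε / l = ε / (2 * l) + ε / (2 * l) := by field_simp; ring
    linarith
  have e7 := le_of_deriv_nonpos (h := fun t => 2 * l * om R (x + t • (y - x)) (a - y) +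
      l ^ 2 * om R (x + t • (y - x)) (y - x) - D * t)
    (fun t => (((hasDerivAt_om x (y - x) (a - y) t).const_mul (2 * l)).add
      ((hasDerivAt_om x (y - x) (y - x) t).const_mul (l ^ 2))).sub ((hasDerivAt_id t).const_mul D))
    zero_le_one fun t ht => by
      linarith [bf_cs (hx.conv hy1 ht).psd (hy1.supp_sub ha) (hx.supp_sub hy1) l,
        hbf _ a y (hx.conv hy1 ht) ha hy1 ha' hy2]
  simp only [one_smul, zero_smul, add_zero, add_sub_cancel, mul_one, mul_zero, sub_zero] at e7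
  have e8 := hy1.om_nonneg hu
  have e9 : l ^ 2 * om R x (y - x) ≤ l * ε := by
    have := mul_le_mul_of_nonneg_left e6 (sq_nonneg l)
    rwa [show l ^ 2 * (ε / l) = l * ε by field_simp] at this
  have e10 : D = l * ε := by rw [hl]; field_simp
  refine le_of_mul_le_mul_left ?_ (show 0 < 2 * l by positivity)
  nlinarith [mul_nonneg (sq_nonneg l) e8]

end Pool.Agent.Lib.MP_a839f6_an
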