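import Pool.Agent.Lib.MP_a839f6_an.Poly
import Pool.Agent.Lib.MP_a839f6_an.Mat

namespace Pool.Agent.Lib.MP_a839f6_an

open MeasureTheory Matrix Filter Topology
open scoped ComplexOrder ComplexConjugate

variable {n k : ℕ}

/-- continuous functions are integrable -/
def CI (ν : Measure (Fin n → ℂ)) : Prop := ∀ f : (Fin n → ℂ) → ℂ, Continuous f → Integrable f ν

lemma CI.real {ν : Measure (Fin n → ℂ)} (h : CI ν) {f : (Fin n → ℂ) → ℝ} (hf : Continuous f) :
    Integrable f ν := by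
  have := (h (fun z => (f z : ℂ)) (by fun_prop)).re
  simpa using this

lemma ci_of_compact {ν : Measure (Fin n → ℂ)} [IsFiniteMeasure ν] {K : Set (Fin n → ℂ)}
    (hK : IsCompact K) (hν : ν Kᶜ = 0) : CI ν := by
  intro f hf
  have : ν.restrict K = ν := Measure.restrict_eq_self_of_ae_mem hν
  rw [← this]
  exact hf.continuousOn.integrableOn_compact hK

lemma ci_ball (R : ℝ) : CI (volume.restrict (Metric.closedBall (0 : Fin n → ℂ) R)) :=
  fun _ hf => hf.continuousOn.integrableOn_compact (isCompact_closedBall _ _)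

/-- Gram matrix of the monomials -/
noncomputable def gram (k : ℕ) (ν : Measure (Fin n → ℂ)) (ρ : (Fin n → ℂ) → ℝ) :
    Matrix (Idx n k) (Idx n k) ℂ :=
  Matrix.of fun α β => ∫ z, (ρ z : ℂ) * (conj (mono k z α) * mono k z β) ∂ν

variable {ν : Measure (Fin n → ℂ)} {ρ : (Fin n → ℂ) → ℝ}

lemma dot_gram (hν : CI ν) (hρ : Continuous ρ) (c : Idx n k → ℂ) :
    star c ⬝ᵥ gram k ν ρ *ᵥ c = ((∫ z, ρ z * ‖c ⬝ᵥ mono k z‖ ^ 2 ∂ν : ℝ) : ℂ) := by
  rw [← integral_complex_ofReal]
  simp only [dotProduct, mulVec, gram, of_apply, Finset.mul_sum, ← integral_mul_const,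
    ← integral_const_mul]
  rw [Finset.sum_congr rfl fun α _ => (integral_finsetSum _ fun β _ => hν _ (by fun_prop)).symm,
    ← integral_finsetSum _ fun β _ => hν _ (by fun_prop)]
  refine integral_congr_ae (Eventually.of_forall fun z => ?_)
  simp only [Complex.ofReal_mul, Complex.ofReal_pow, ← Complex.conj_mul',
    map_sum, map_mul, Finset.sum_mul, Finset.mul_sum, Pi.star_apply, Complex.star_def]
  rw [Finset.sum_comm]
  exact Finset.sum_congr rfl fun _ _ => Finset.sum_congr rfl fun _ _ => by ring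

lemma qf_gram (hν : CI ν) (hρ : Continuous ρ) (c : Idx n k → ℂ) :
    qf (gram k ν ρ) c = ∫ z, ρ z * ‖c ⬝ᵥ mono k z‖ ^ 2 ∂ν := by
  rw [qf, dot_gram hν hρ, Complex.ofReal_re]

lemma gram_herm : (gram k ν ρ).IsHermitian := by
  ext α β
  simp only [conjTranspose_apply, gram, of_apply, Complex.star_def, ← integral_conj, map_mul,
    Complex.conj_ofReal, Complex.conj_conj]
  congr 1; funext z; ring

lemma gram_psd (hν : CI ν) (hρ : Continuous ρ) (h0 : ∀ z, 0 ≤ ρ z) :
    (gram k ν ρ).PosSemidef := by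
  refine PosSemidef.of_dotProduct_mulVec_nonneg gram_herm fun c => ?_
  rw [dot_gram hν hρ]
  exact_mod_cast integral_nonneg fun z => mul_nonneg (h0 z) (by positivity)

lemma gram_pd (hν : CI ν) (hρ : Continuous ρ) (h : ∀ c, c ≠ 0 → 0 < qf (gram k ν ρ) c) :
    (gram k ν ρ).PosDef := by
  refine PosDef.of_dotProduct_mulVec_pos gram_herm fun c hc => ?_
  have := h c hc
  rw [qf_gram hν hρ] at this
  rw [dot_gram hν hρ]
  exact_mod_cast this

@[fun_prop] lemma continuous_berg (G : Matrix (Idx n k) (Idx n k) ℂ) :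
    Continuous fun z => berg G (mono k z) := by
  unfold berg
  refine Complex.continuous_re.comp (Continuous.dotProduct continuous_mono
    (Continuous.matrix_mulVec continuous_const continuous_mono.star))

lemma trace_gram (hν : CI ν) (hρ : Continuous ρ) (G : Matrix (Idx n k) (Idx n k) ℂ) :
    (G⁻¹ * gram k ν ρ).trace.re = ∫ z, ρ z * berg G (mono k z) ∂ν := by
  have : (G⁻¹ * gram k ν ρ).trace = ∫ z, (ρ z : ℂ) * (mono k z ⬝ᵥ G⁻¹ *ᵥ star (mono k z)) ∂ν := by
    simp only [Matrix.trace, diag_apply, Matrix.mul_apply, gram, of_apply, ← integral_const_mul]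
    rw [Finset.sum_congr rfl fun α _ => (integral_finsetSum _ fun β _ => hν _ (by fun_prop)).symm,
      ← integral_finsetSum _ fun β _ => hν _ (by fun_prop)]
    refine integral_congr_ae (Eventually.of_forall fun z => ?_)
    simp only [dotProduct, mulVec, Finset.mul_sum, Pi.star_apply, Complex.star_def]
    exact Finset.sum_congr rfl fun _ _ => Finset.sum_congr rfl fun _ _ => by ring
  rw [this]
  have hi : Integrable (fun z => (ρ z : ℂ) * (mono k z ⬝ᵥ G⁻¹ *ᵥ star (mono k z))) ν :=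
    hν _ (Continuous.mul (by fun_prop) (Continuous.dotProduct continuous_mono
      (Continuous.matrix_mulVec continuous_const continuous_mono.star)))
  have := (integral_re hi).symm
  simp only [RCLike.re_to_complex] at this
  rw [this]
  refine integral_congr_ae (Eventually.of_forall fun z => ?_)
  simp only [Complex.re_ofReal_mul, berg]

/-- Vandermonde matrix -/
noncomputable def vm (x : Idx n k → Fin n → ℂ) : Matrix (Idx n k) (Idx n k) ℂ :=
  Matrix.of fun β α => mono k (x β) α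

lemma vdm_eq (x : Idx n k → Fin n → ℂ) : vdm k x = (vm x).det := by
  rw [vdm, ← det_transpose]; rfl

lemma continuous_vdm : Continuous (vdm k : (Idx n k → Fin n → ℂ) → ℂ) := by
  unfold vdm
  refine Continuous.matrix_det (continuous_pi fun α => continuous_pi fun β => ?_)
  simp only [of_apply]
  fun_prop

lemma andreief [IsFiniteMeasure ν] (hν : CI ν) :
    ∫ x, ‖vdm k x‖ ^ 2 ∂(Measure.pi fun _ : Idx n k => ν) =
      (Fintype.card (Idx n k)).factorial * (gram k ν fun _ => 1).det.re := by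
  have h1 : ∀ x : Idx n k → Fin n → ℂ, ((‖vdm k x‖ ^ 2 : ℝ) : ℂ) =
      ∑ σ : Equiv.Perm (Idx n k), ∑ τ : Equiv.Perm (Idx n k),
        ((Equiv.Perm.sign σ : ℤ) : ℂ) * ((Equiv.Perm.sign τ : ℤ) : ℂ) *
          ∏ β, (conj (mono k (x β) (τ β)) * mono k (x β) (σ β)) := by
    intro x
    rw [Complex.ofReal_pow, ← Complex.mul_conj', vdm, det_apply', map_sum, Finset.sum_mul_sum]
    refine Finset.sum_congr rfl fun σ _ => Finset.sum_congr rfl fun τ _ => ?_
    simp only [map_mul, map_prod, of_apply, Finset.prod_mul_distrib, map_intCast, mono]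
    ring
  have hint : ∀ σ τ : Equiv.Perm (Idx n k), Integrable (fun x : Idx n k → Fin n → ℂ =>
      ((Equiv.Perm.sign σ : ℤ) : ℂ) * ((Equiv.Perm.sign τ : ℤ) : ℂ) *
          ∏ β, (conj (mono k (x β) (τ β)) * mono k (x β) (σ β))) (Measure.pi fun _ => ν) :=
    fun σ τ => Integrable.const_mul (Integrable.fintype_prod
      (f := fun β z => conj (mono k z (τ β)) * mono k z (σ β)) fun β => hν _ (by fun_prop)) _
  have h2 : ((∫ x, ‖vdm k x‖ ^ 2 ∂(Measure.pi fun _ : Idx n k => ν) : ℝ) : ℂ) =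
      (Fintype.card (Idx n k)).factorial * (gram k ν fun _ => 1).det := by
    rw [← integral_complex_ofReal]
    simp only [h1]
    rw [integral_finsetSum _ fun σ _ => integrable_finsetSum _ fun τ _ => hint σ τ]
    rw [← Fintype.card_perm, ← nsmul_eq_mul, ← Finset.card_univ, ← Finset.sum_const]
    refine Finset.sum_congr rfl fun σ _ => ?_
    rw [integral_finsetSum _ fun τ _ => hint σ τ]
    have h3 := det_permute' σ (gram k ν fun _ => (1 : ℝ))
    have h4 : ((Equiv.Perm.sign σ : ℤ) : ℂ) * ((Equiv.Perm.sign σ : ℤ) : ℂ) = 1 := by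
      rw [← Int.cast_mul, ← Units.val_mul, Int.units_mul_self]; simp
    have h5 : (gram k ν fun _ => (1 : ℝ)).det = ((Equiv.Perm.sign σ : ℤ) : ℂ) *
        ((gram k ν fun _ => (1 : ℝ)).submatrix id σ).det := by
      rw [h3, ← mul_assoc, h4, one_mul]
    rw [h5, det_apply', Finset.mul_sum]
    refine Finset.sum_congr rfl fun τ _ => ?_
    rw [integral_const_mul, integral_fintype_prod_eq_prod
      (f := fun β z => conj (mono k z (τ β)) * mono k z (σ β)), mul_assoc]
    simp [gram]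
  have := congrArg Complex.re h2
  rwa [Complex.ofReal_re, ← Complex.ofReal_natCast, Complex.re_ofReal_mul] at this

lemma qf_vm (x : Idx n k → Fin n → ℂ) (c : Idx n k → ℂ) :
    qf ((vm x)ᴴ * vm x) c = ∑ β, ‖c ⬝ᵥ mono k (x β)‖ ^ 2 := by
  have : (vm x)ᴴ * vm x = (vm x)ᴴ * 1 * vm x := by rw [Matrix.mul_one]
  rw [this, qf_conj, qf_one]
  refine Finset.sum_congr rfl fun β _ => ?_
  rw [dotProduct_comm]; rfl

lemma det_vm (x : Idx n k → Fin n → ℂ) : ((vm x)ᴴ * vm x).det.re = ‖vdm k x‖ ^ 2 := by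
  rw [det_conj, Complex.ofReal_re, vdm_eq]

lemma vm_pd {x : Idx n k → Fin n → ℂ} (hx : vdm k x ≠ 0) : ((vm x)ᴴ * vm x).PosDef := by
  rw [(posSemidef_conjTranspose_mul_self _).posDef_iff_det_ne_zero, det_conj, ← vdm_eq]
  exact_mod_cast pow_ne_zero 2 (norm_ne_zero_iff.2 hx)

/-- maximal modulus of the Vandermonde determinant -/
noncomputable def maxV (K : Set (Fin n → ℂ)) (k : ℕ) : ℝ :=
  ⨆ x : Idx n k → K, ‖vdm k fun β => x β‖

variable {K : Set (Fin n → ℂ)}

lemma maxV_nonneg : 0 ≤ maxV K k := Real.iSup_nonneg fun _ => norm_nonneg _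

lemma le_maxV (hK : IsCompact K) {x : Idx n k → Fin n → ℂ} (hx : ∀ β, x β ∈ K) :
    ‖vdm k x‖ ≤ maxV K k := by
  obtain ⟨C, hC⟩ := (isCompact_univ_pi fun _ : Idx n k => hK).exists_bound_of_continuousOn
    (continuous_vdm (k := k)).continuousOn
  exact le_ciSup (f := fun x : Idx n k → K => ‖vdm k fun β => x β‖)
    ⟨C, by rintro _ ⟨y, rfl⟩; exact hC _ fun β _ => (y β).2⟩ fun β => ⟨x β, hx β⟩

lemma maxV_sq_le {A : ℝ} (hA : 0 ≤ A)
    (h : ∀ x : Idx n k → Fin n → ℂ, (∀ β, x β ∈ K) → ‖vdm k x‖ ^ 2 ≤ A) : maxV K k ^ 2 ≤ A := by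
  rw [← Real.le_sqrt maxV_nonneg hA]
  exact Real.iSup_le (fun x => Real.le_sqrt_of_sq_le (h _ fun β => (x β).2)) (Real.sqrt_nonneg _)

lemma maxV_sq_le_det {G : Matrix (Idx n k) (Idx n k) ℂ} (hG : G.PosDef) {A : ℝ} (hA : 0 < A)
    (h : ∀ z ∈ K, ∀ c, ‖c ⬝ᵥ mono k z‖ ^ 2 ≤ A * qf G c) :
    maxV K k ^ 2 ≤ (Fintype.card (Idx n k) * A) ^ Fintype.card (Idx n k) * G.det.re := by
  have hN : (0 : ℝ) < Fintype.card (Idx n k) := by exact_mod_cast Fintype.card_pos
  refine maxV_sq_le (mul_nonneg (by positivity) (det_re_pos hG).le) fun x hx => ?_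
  rw [← det_vm]
  refine det_le_of_qf (posSemidef_conjTranspose_mul_self _) hG (by positivity) fun c => ?_
  rw [qf_vm, mul_assoc, ← nsmul_eq_mul, ← Finset.card_univ, ← Finset.sum_const]
  exact Finset.sum_le_sum fun β _ => h _ (hx β) c

lemma exists_unisolvent (h : ∀ c : Idx n k → ℂ, (∀ z ∈ K, c ⬝ᵥ mono k z = 0) → c = 0) :
    ∃ x : Idx n k → Fin n → ℂ, (∀ β, x β ∈ K) ∧ vdm k x ≠ 0 := by
  have hsp : Submodule.span ℂ (Set.range fun z : K => mono k (z : Fin n → ℂ)) = ⊤ := by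
    by_contra hne
    obtain ⟨f, hf0, hf⟩ := Submodule.exists_le_ker_of_lt_top _ (lt_top_iff_ne_top.2 hne)
    apply hf0
    have : (fun α => f fun β => if α = β then 1 else 0) = 0 := by
      apply h
      intro z hz
      have := hf (Submodule.subset_span ⟨⟨z, hz⟩, rfl⟩)
      rw [LinearMap.mem_ker, LinearMap.pi_apply_eq_sum_univ] at this
      rw [dotProduct_comm]; exact this
    refine LinearMap.ext fun v => ?_
    rw [LinearMap.pi_apply_eq_sum_univ]
    exact Finset.sum_eq_zero fun α _ => by rw [congrFun this α]; simp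
  obtain ⟨κ, a, -, h1, h2⟩ := exists_linearIndependent' ℂ fun z : K => mono k (z : Fin n → ℂ)
  rw [hsp] at h1
  let b := Module.Basis.mk h2 h1.ge
  let e := b.indexEquiv (Pi.basisFun ℂ (Idx n k))
  refine ⟨fun β => a (e.symm β), fun β => (a _).2, ?_⟩
  rw [vdm_eq, ← isUnit_iff_ne_zero, ← isUnit_iff_isUnit_det, ← linearIndependent_rows_iff_isUnit]
  exact h2.comp _ e.symm.injective

lemma exists_fekete (hK : IsCompact K)
    (h : ∀ c : Idx n k → ℂ, (∀ z ∈ K, c ⬝ᵥ mono k z = 0) → c = 0) :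
    ∃ F : Matrix (Idx n k) (Idx n k) ℂ, F.PosDef ∧ F.det.re = maxV K k ^ 2 ∧
      (∀ z ∈ K, ∀ c, ‖c ⬝ᵥ mono k z‖ ^ 2 ≤ Fintype.card (Idx n k) * qf F c) ∧
      ∀ c T, (∀ z ∈ K, ‖c ⬝ᵥ mono k z‖ ^ 2 ≤ T) → qf F c ≤ Fintype.card (Idx n k) * T := by
  obtain ⟨x0, hx0, hv0⟩ := exists_unisolvent h
  obtain ⟨x, hx, hmax⟩ := (isCompact_univ_pi fun _ : Idx n k => hK).exists_isMaxOn
    ⟨x0, fun β _ => hx0 β⟩ (continuous_vdm (k := k)).norm.continuousOn
  have hxK : ∀ β, x β ∈ K := fun β => hx β trivial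
  have hv : vdm k x ≠ 0 := by
    rw [← norm_pos_iff] at hv0 ⊢
    exact hv0.trans_le (hmax fun β _ => hx0 β)
  have hm : maxV K k = ‖vdm k x‖ :=
    le_antisymm (Real.iSup_le (fun y => hmax fun β _ => (y β).2) (norm_nonneg _)) (le_maxV hK hxK)
  refine ⟨(vm x)ᴴ * vm x, vm_pd hv, by rw [det_vm, hm], fun z hz c => ?_, fun c T hT => ?_⟩
  · have hu : IsUnit (vm x).det := by rw [← vdm_eq]; exact isUnit_iff_ne_zero.2 hv
    set l := mono k z ᵥ* (vm x)⁻¹ with hl
    have h1 : mono k z = ∑ β, l β • vm x β := by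
      rw [← vecMul_eq_sum, hl, vecMul_vecMul, nonsing_inv_mul _ hu, vecMul_one]
    have h2 : ∀ β, ‖l β‖ ≤ 1 := by
      intro β
      have e1 := det_updateRow_sum (vm x) β l
      rw [← h1] at e1
      have e2 : (vm x).updateRow β (mono k z) = vm (Function.update x β z) := by
        ext i j
        by_cases hi : i = β
        · subst hi; simp [vm]
        · simp [vm, hi]
      have e3 : ‖vdm k (Function.update x β z)‖ ≤ ‖vdm k x‖ := hmax fun i _ => by
        by_cases hi : i = β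
        · subst hi; simpa using hz
        · simpa [hi] using hxK i
      rw [vdm_eq, ← e2, e1, ← vdm_eq, norm_smul] at e3
      exact (mul_le_iff_le_one_left (norm_pos_iff.2 hv)).1 e3
    rw [qf_vm, h1, dotProduct_sum, ← Finset.card_univ]
    refine le_trans (pow_le_pow_left₀ (norm_nonneg _) (norm_sum_le_of_le _ fun β _ => ?_) 2)
      sq_sum_le_card_mul_sum_sq
    rw [dotProduct_smul, norm_smul]
    exact mul_le_of_le_one_left (norm_nonneg _) (h2 β)
  · rw [qf_vm, ← nsmul_eq_mul, ← Finset.card_univ, ← Finset.sum_const]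
    exact Finset.sum_le_sum fun β _ => hT _ (hxK β)

end Pool.Agent.Lib.MP_a839f6_an
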