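import Mathlib

namespace Pool.Agent.Lib.MP_a839f6_an

open Matrix Polynomial

variable {R S : Type*} [CommRing R] [CommRing S] [Algebra R S] {ι : Type*} [Fintype ι]
  [DecidableEq ι]

omit [Fintype ι] in
lemma der_prod (d : Derivation R S S) (s : Finset ι) (f : ι → S) :
    d (∏ i ∈ s, f i) = ∑ i ∈ s, d (f i) * ∏ j ∈ s.erase i, f j := by
  induction s using Finset.induction_on with
  | empty => simp
  | insert a s ha ih =>
    rw [Finset.prod_insert ha, Finset.sum_insert ha, Finset.erase_insert ha, d.leibniz, ih,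
      smul_eq_mul, smul_eq_mul, Finset.mul_sum, add_comm, mul_comm]
    congr 1
    refine Finset.sum_congr rfl fun i hi => ?_
    rw [Finset.erase_insert_of_ne (by rintro rfl; exact ha hi),
      Finset.prod_insert (fun h => ha (Finset.mem_of_mem_erase h))]
    ring

lemma der_det' (d : Derivation R S S) (M : Matrix ι ι S) :
    d M.det = ∑ i, (M.updateRow i fun j => d (M i j)).det := by
  simp only [← det_transpose (M.updateRow _ _)]
  rw [← det_transpose M]
  simp only [det_apply', map_sum]
  rw [Finset.sum_comm]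
  refine Finset.sum_congr rfl fun σ _ => ?_
  rw [d.leibniz, d.map_intCast, smul_zero, add_zero, smul_eq_mul, der_prod, Finset.mul_sum]
  refine Finset.sum_congr rfl fun i _ => ?_
  congr 1
  rw [← Finset.mul_prod_erase _ _ (Finset.mem_univ i)]
  congr 1
  · simp
  · refine Finset.prod_congr rfl fun j hj => ?_
    simp [updateRow_ne (Finset.ne_of_mem_erase hj)]

lemma det_updateRow_eq (M : Matrix ι ι S) (i : ι) (b : ι → S) :
    (M.updateRow i b).det = ∑ j, M.adjugate j i * b j := by
  rw [← cramer_transpose_apply, cramer_eq_adjugate_mulVec, ← adjugate_transpose]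
  rfl

lemma der_det (d : Derivation R S S) (M : Matrix ι ι S) :
    d M.det = ∑ i, ∑ j, M.adjugate j i * d (M i j) := by
  simp only [der_det', det_updateRow_eq]

lemma piola [Invertible (2 : R)] (d : ι → Derivation R S S)
    (hd : ∀ i j f, d i (d j f) = d j (d i f)) (ψ : ι → S) (i : ι) :
    ∑ j, d j ((Matrix.of fun i j => d j (ψ i)).adjugate j i) = 0 := by
  set J : Matrix ι ι S := Matrix.of fun i j => d j (ψ i) with hJ
  simp only [adjugate_apply J, der_det']
  rw [Finset.sum_comm]
  refine Finset.sum_eq_zero fun r _ => ?_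
  by_cases hr : r = i
  · subst hr
    refine Finset.sum_eq_zero fun j _ => det_eq_zero_of_row_eq_zero r fun l => ?_
    by_cases h : l = j
    · subst h; simp
    · simp [h]
  let c : ι → ι → S := fun j l =>
    ((J.updateRow i (Pi.single j 1)).updateRow r (Pi.single l 1)).det
  have hc : ∀ j l, c j l = -c l j := by
    intro j l
    have h1 := det_permute (Equiv.swap i r)
      ((J.updateRow i (Pi.single l 1)).updateRow r (Pi.single j 1))
    rw [Equiv.Perm.sign_swap (Ne.symm hr)] at h1
    have h2 : ((J.updateRow i (Pi.single l 1)).updateRow r (Pi.single j 1)).submatrix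
        (Equiv.swap i r) id = (J.updateRow i (Pi.single j 1)).updateRow r (Pi.single l 1) := by
      ext a b
      by_cases ha : a = r
      · subst ha; simp [updateRow_ne (Ne.symm hr)]
      · by_cases ha' : a = i
        · subst ha'; simp [updateRow_ne ha]
        · simp [updateRow_ne ha, updateRow_ne ha', Equiv.swap_apply_of_ne_of_ne ha' ha]
    rw [h2] at h1
    simpa [c] using h1
  have h3 : ∀ j, ((J.updateRow i (Pi.single j 1)).updateRow r
      fun l => d j (J.updateRow i (Pi.single j 1) r l)).det = ∑ l, c j l * d j (d l (ψ r)) := by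
    intro j
    rw [det_updateRow_eq]
    refine Finset.sum_congr rfl fun l _ => ?_
    rw [adjugate_apply, updateRow_ne hr]
    rfl
  simp only [h3]
  set T := ∑ j, ∑ l, c j l * d j (d l (ψ r)) with hT
  have h4 : T = -T := by
    conv_lhs => rw [hT, Finset.sum_comm]
    rw [hT, ← Finset.sum_neg_distrib]
    refine Finset.sum_congr rfl fun j _ => ?_
    rw [← Finset.sum_neg_distrib]
    refine Finset.sum_congr rfl fun l _ => ?_
    rw [hc l j, hd]; ring
  have h5 : (2 : R) • T = 0 := by rw [two_smul]; nth_rewrite 1 [h4]; ring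
  rw [← one_smul R T, ← invOf_mul_self (2 : R), mul_smul, h5, smul_zero]

section Poly

variable {A : Type*} [CommRing A] [Algebra ℝ A]

lemma eval_of_coeff (L : A →ₗ[ℝ] ℝ) {N : ℕ} {Q : A[X]} {P : ℝ[X]} (hQ : Q.natDegree < N)
    (hP : P.natDegree < N) (h : ∀ i, P.coeff i = L (Q.coeff i)) (t : ℝ) :
    P.eval t = L (Q.eval (algebraMap ℝ A t)) := by
  rw [eval_eq_sum_range' hP, eval_eq_sum_range' hQ, map_sum]
  refine Finset.sum_congr rfl fun i _ => ?_
  rw [← map_pow, mul_comm (Q.coeff i), ← Algebra.smul_def, map_smul, h, smul_eq_mul, mul_comm]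

lemma exists_poly (L : A →ₗ[ℝ] ℝ) (M₀ M₁ : Matrix ι ι A) :
    ∃ P : ℝ[X], P.natDegree ≤ Fintype.card ι ∧ (∀ t : ℝ, P.eval t = L (M₀ + t • M₁).det) ∧
      ∀ t : ℝ, P.derivative.eval t = L (∑ i, ∑ j, (M₀ + t • M₁).adjugate j i * M₁ i j) := by
  set N := Fintype.card ι
  set M : Matrix ι ι A[X] := (X : A[X]) • M₁.map C + M₀.map C with hM
  have hQ : M.det.natDegree ≤ N := natDegree_det_X_add_C_le _ _
  let P : ℝ[X] := ∑ i ∈ Finset.range (N + 1), monomial i (L (M.det.coeff i))
  have hc : ∀ i, P.coeff i = L (M.det.coeff i) := by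
    intro i
    simp only [P, finsetSum_coeff, coeff_monomial, Finset.sum_ite_eq', Finset.mem_range]
    split_ifs with h
    · rfl
    · rw [coeff_eq_zero_of_natDegree_lt (by omega), map_zero]
  have hP : P.natDegree ≤ N := by
    rw [natDegree_le_iff_coeff_eq_zero]
    intro i hi
    rw [hc, coeff_eq_zero_of_natDegree_lt (by omega), map_zero]
  have hev : ∀ t : ℝ, (evalRingHom (algebraMap ℝ A t)).mapMatrix M = M₀ + t • M₁ := by
    intro t
    ext i j
    rw [Matrix.add_apply, Matrix.smul_apply, Algebra.smul_def]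
    simp [hM]
    ring
  refine ⟨P, hP, fun t => ?_, fun t => ?_⟩
  · rw [eval_of_coeff L (N := N + 1) (by omega) (by omega) hc, ← hev, ← RingHom.map_det]
    rfl
  · rw [eval_of_coeff L (N := N + 1) (Q := derivative M.det)
      (by have := natDegree_derivative_le M.det; omega)
      (by have := natDegree_derivative_le P; omega) (fun i => by
        rw [coeff_derivative, coeff_derivative, hc, mul_comm (M.det.coeff _),
          show ((i : A) + 1) = algebraMap ℝ A (i + 1) by simp, ← Algebra.smul_def, map_smul,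
          smul_eq_mul, mul_comm])]
    congr 1
    have := der_det (derivative' (R := A)) M
    rw [derivative'_apply] at this
    rw [this, ← hev, ← RingHom.map_adjugate, eval_finsetSum]
    refine Finset.sum_congr rfl fun i _ => ?_
    rw [eval_finsetSum]
    refine Finset.sum_congr rfl fun j _ => ?_
    simp [hM]

lemma contDiff_det (L : A →ₗ[ℝ] ℝ) (M₀ M₁ M₂ : Matrix ι ι A) :
    ContDiff ℝ 1 fun p : ℝ × ℝ => L (M₀ + p.1 • M₁ + p.2 • M₂).det := by
  have key : ∀ (a b c : ι → A) (s : Finset ι) (L : A →ₗ[ℝ] ℝ),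
      ContDiff ℝ 1 fun p : ℝ × ℝ => L (∏ i ∈ s, (a i + p.1 • b i + p.2 • c i)) := by
    intro a b c s
    induction s using Finset.induction_on with
    | empty => intro L; simpa using contDiff_const
    | insert j s hj ih =>
      intro L
      simp only [Finset.prod_insert hj, add_mul, smul_mul_assoc, map_add, map_smul, smul_eq_mul]
      exact ((ih (L ∘ₗ LinearMap.mulLeft ℝ (a j))).add
        (contDiff_fst.mul (ih (L ∘ₗ LinearMap.mulLeft ℝ (b j))))).add
        (contDiff_snd.mul (ih (L ∘ₗ LinearMap.mulLeft ℝ (c j))))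
  simp only [det_apply', map_sum]
  exact ContDiff.sum fun σ _ => key (fun i => M₀ (σ i) i) (fun i => M₁ (σ i) i)
    (fun i => M₂ (σ i) i) _ (L ∘ₗ LinearMap.mulLeft ℝ _)

lemma markov (N : ℕ) : ∃ C : ℝ, 0 ≤ C ∧ ∀ (P : ℝ[X]) (M : ℝ), P.natDegree ≤ N →
    (∀ t ∈ Set.Icc (0 : ℝ) 1, |P.eval t| ≤ M) →
      ∀ t ∈ Set.Icc (0 : ℝ) 1, |P.derivative.eval t| ≤ C * M := by
  let v : ℕ → ℝ := fun i => (i : ℝ) / (N + 1)
  let s := Finset.range (N + 1)
  have hv : Set.InjOn v s := fun a _ b _ h => by
    simp only [v] at h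
    rw [div_left_inj' (by positivity)] at h
    exact_mod_cast h
  have hb : ∀ i, ∃ c : ℝ, ∀ t ∈ Set.Icc (0 : ℝ) 1,
      ‖(Lagrange.basis s v i).derivative.eval t‖ ≤ c := fun i =>
    isCompact_Icc.exists_bound_of_continuousOn (Polynomial.continuous _).continuousOn
  choose c hc using hb
  refine ⟨∑ i ∈ s, c i, Finset.sum_nonneg fun i _ => (norm_nonneg _).trans (hc i 0 (by simp)),
    fun P M hP hM t ht => ?_⟩
  have h1 := Lagrange.eq_interpolate (f := P) hv
    ((degree_le_of_natDegree_le hP).trans_lt (by simp [s]; exact_mod_cast Nat.lt_succ_self N))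
  rw [h1, Lagrange.interpolate_apply, derivative_sum, eval_finsetSum, Finset.sum_mul]
  refine (Finset.abs_sum_le_sum_abs _ _).trans (Finset.sum_le_sum fun i hi => ?_)
  rw [derivative_C_mul, eval_mul, eval_C, abs_mul, mul_comm]
  refine mul_le_mul (hc i t ht) (hM _ ⟨by positivity, ?_⟩) (abs_nonneg _)
    ((norm_nonneg _).trans (hc i t ht))
  rw [div_le_one (by positivity)]
  exact_mod_cast (Finset.mem_range.1 hi).le

end Poly

end Pool.Agent.Lib.MP_a839f6_an
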