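import Pool.Agent.Lib.MP_a839f6_an.Patch
import Pool.Agent.Lib.MP_a839f6_an.Class

namespace Pool.Agent.Lib.MP_a839f6_an

open MeasureTheory Matrix Filter Topology Metric Set Real
open scoped ContDiff ComplexOrder ComplexConjugate

variable {n : ℕ} {K : Set (Fin n → ℂ)}

lemma eventually_le_exp (n : ℕ) (A : ℝ) (a : ℕ) {ε : ℝ} (hε : 0 < ε) :
    ∀ᶠ k : ℕ in atTop, A * (NN n k : ℝ) ^ a ≤ exp (ε * k) := by
  have h := (isLittleO_pow_exp_pos_mul_atTop (n * a) hε).bound
    (c := (|A| * 2 ^ (n * a) + 1)⁻¹) (by positivity)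
  filter_upwards [tendsto_natCast_atTop_atTop.eventually h, eventually_ge_atTop n] with k h1 h2
  rw [Real.norm_of_nonneg (by positivity), Real.norm_of_nonneg (exp_pos _).le,
    le_inv_mul_iff₀ (by positivity)] at h1
  have h3 : (NN n k : ℝ) ≤ (2 * k) ^ n := by
    have a1 : (1 : ℝ) ≤ n.factorial := by exact_mod_cast n.factorial_pos
    have a2 : (n : ℝ) ≤ k := by exact_mod_cast h2
    exact (le_mul_of_one_le_left (by positivity) a1).trans ((NN_le_pow n k).trans
      (pow_le_pow_left₀ (by positivity) (by linarith) n))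
  have h4 := pow_le_pow_left₀ (by positivity) h3 a
  rw [← pow_mul, mul_pow] at h4
  have h5 := mul_le_mul (le_abs_self A) h4 (by positivity) (abs_nonneg A)
  have h6 : (0 : ℝ) ≤ (k : ℝ) ^ (n * a) := by positivity
  nlinarith

lemma exists_nbhd {v : (Fin n → ℂ) → ℝ} (hv : UpperSemicontinuous v) (hK : IsCompact K) {κ ε : ℝ}
    (h : ∀ z ∈ K, v z ≤ κ) (hε : 0 < ε) :
    ∃ s, 0 < s ∧ s ≤ 1 ∧ ∀ z ∈ K, ∀ y, ‖y - z‖ ≤ s → v y ≤ κ + ε := by
  obtain ⟨s, hs, h1⟩ := hK.exists_cthickening_subset_open (hv.isOpen_preimage (κ + ε))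
    fun z hz => (h z hz).trans_lt (lt_add_of_pos_right _ hε)
  exact ⟨min s 1, lt_min hs one_pos, min_le_right _ _, fun z hz y hy => le_of_lt (h1
    (mem_cthickening_of_dist_le y z s K hz ((dist_eq_norm y z).trans_le (hy.trans
      (min_le_left _ _)))))⟩

lemma maxV_le_gw (hK : IsCompact K) {R : ℝ} (hR : 0 ≤ R) (hKR : ∀ z ∈ K, ‖z‖ ≤ R)
    {φ : (Fin n → ℂ) → ℝ} (hφ : Continuous φ) {κ ε : ℝ} (h : ∀ z ∈ K, φ z ≤ κ) (hε : 0 < ε) :
    ∀ᶠ k : ℕ in atTop,
      maxV K k ^ 2 ≤ exp (2 * (κ + ε) * (k * NN n k)) * (gw (R + 1) k φ).det.re := by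
  obtain ⟨s, hs, hs1, h1⟩ := exists_nbhd hφ.upperSemicontinuous hK h (half_pos hε)
  have hvb := vb_pos (n := n) hs
  filter_upwards [eventually_le_exp n (vb n s)⁻¹ 1 hε] with k hk
  have hG := gw_pd (k := k) hφ (by linarith : 0 < R + 1)
  refine (maxV_sq_le_det hG (A := (vb n s)⁻¹ * exp (2 * k * (κ + ε / 2))) (by positivity)
    fun z hz c => ?_).trans (mul_le_mul_of_nonneg_right ?_ (det_re_pos hG).le)
  · rw [mul_assoc, le_inv_mul_iff₀' hvb]
    exact sup_le_L2 hφ c (by linarith [hKR z hz]) fun y hy => h1 z hz y (by rwa [← dist_eq_norm])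
  · rw [show 2 * (κ + ε) * (k * NN n k) = NN n k * (ε * k + 2 * k * (κ + ε / 2)) by ring,
      exp_nat_mul, Real.exp_add]
    refine pow_le_pow_left₀ (by positivity) ?_ _
    rw [← mul_assoc]
    exact mul_le_mul_of_nonneg_right (by simpa [mul_comm] using hk) (exp_pos _).le

lemma posLog_sub_le {z w : Fin n → ℂ} (hw : ‖w‖ ≤ 1) : posLog ‖z - w‖ ≤ posLog ‖z‖ + 1 := by
  have h1 : ‖z - w‖ ≤ 1 + ‖z‖ := (norm_sub_le _ _).trans (by linarith)
  linarith [posLog_le_posLog (norm_nonneg _) h1, posLog_one_add ‖z‖, log_two_lt_d9]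

lemma om_congr {R : ℝ} {φ ψ : SR n} (h : ∀ z, lv φ z = lv ψ z) (f : SR n) :
    om R φ f = om R ψ f := by simp only [om_eq, h]

lemma l1_bound {v : (Fin n → ℂ) → ℝ} (hv : SM v) {M R : ℝ}
    (hg : ∀ z, v z ≤ posLog ‖z‖ + M) {y : Fin n → ℂ} (hy : ‖y‖ ≤ 1) (hM : M ≤ v y) :
    ∫ z in closedBall 0 R, (M + posLog (R + 2) - v z) ≤ posLog (R + 2) * vb n (R + 1) := by
  have hi := hv.lb.integrableOn hv.meas y (R + 1)
  have hc : IntegrableOn (fun _ => M + posLog (R + 2)) (closedBall y (R + 1)) :=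
    intOn continuous_const _ _
  refine (setIntegral_mono_set (hc.sub hi) ?_ (LE.le.eventuallyLE
    (closedBall_subset_closedBall' (by simpa using hy)))).trans ?_
  · filter_upwards [ae_restrict_mem measurableSet_closedBall] with z hz
    have := posLog_le_posLog (norm_nonneg z)
      ((norm_le_norm_add_const_of_dist_le hz).trans (by linarith : _ ≤ R + 2))
    simp only [Pi.zero_apply, Pi.sub_apply]
    linarith [hg z]
  · simp only [Pi.sub_apply]
    rw [integral_sub hc hi, setIntegral_const, Measure.addHaar_real_closedBall_center, smul_eq_mul]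
    have := hv.le_ball y (R + 1)
    have h2 := mul_le_mul_of_nonneg_right hM (measureReal_nonneg (μ := volume)
      (s := closedBall (0 : Fin n → ℂ) (R + 1)))
    simp only [vb]
    linarith

lemma exists_tail {η : ℝ} (hη : 0 < η) : ∃ R₀ : ℝ, 0 ≤ R₀ ∧ ∀ R,
    ∫ z in closedBall 0 R \ closedBall 0 R₀, (lv (gg n) z).det.re ≤ η := by
  have h := tendsto_setIntegral_of_monotone (μ := volume)
    (s := fun i : ℕ => closedBall (0 : Fin n → ℂ) i) (fun _ => measurableSet_closedBall)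
    (fun i j hij => closedBall_subset_closedBall (by exact_mod_cast hij))
    integrable_det_gg.integrableOn
  rw [iUnion_closedBall_nat, Measure.restrict_univ] at h
  obtain ⟨i, hi⟩ := (h.eventually (lt_mem_nhds (sub_lt_self _ hη))).exists
  refine ⟨i, i.cast_nonneg, fun R => ?_⟩
  have h1 := integral_add_compl (measurableSet_closedBall (x := (0 : Fin n → ℂ)) (ε := i))
    integrable_det_gg
  have h2 : ∫ z in closedBall 0 R \ closedBall 0 i, (lv (gg n) z).det.re ≤
      ∫ z in (closedBall 0 i)ᶜ, (lv (gg n) z).det.re :=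
    setIntegral_mono_set integrable_det_gg.integrableOn
      (Eventually.of_forall fun z => det_re_nonneg (psd_gg z))
      (LE.le.eventuallyLE (sdiff_subset_compl _ _))
  linarith

lemma mt1 (hn : 0 < n) (hK : IsCompact K)
    (h : ¬∃ M, ∀ v, Gc K v → ∀ z, ‖z‖ ≤ 1 → v z ≤ M) (T : ℝ) :
    ∀ᶠ k : ℕ in atTop, maxV K k ^ 2 ≤ exp (-T * (k * NN n k)) := by
  obtain ⟨m, c, hm⟩ := exists_glue
  obtain ⟨Cb, hCb0, hCb⟩ := exists_bf_bound n
  obtain ⟨ρK, hρK⟩ := hK.exists_bound_of_continuousOn continuousOn_id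
  obtain ⟨C, hC⟩ := LB.of_continuous (SR.cont (gg n)) (max ρK 2)
  have hC0 : 0 ≤ C := (abs_nonneg _).trans (hC 0 (by simp))
  have hc := cM_pos n
  obtain ⟨R₀, hR₀, htail⟩ := exists_tail (n := n) (η := (2 * cM n)⁻¹) (by positivity)
  obtain ⟨Γ, hΓ⟩ := LB.of_continuous (SR.cont (gg n)) R₀
  set M₀ := ∫ z, (lv (gg n) z).det.re with hM₀
  have hM₀0 : 0 ≤ M₀ := integral_nonneg fun z => det_re_nonneg (psd_gg z)
  set t := min 1 (2 * cM n * (Cb * M₀ + 1))⁻¹ with ht
  have ht0 : 0 < t := lt_min one_pos (by positivity)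
  have ht1 : t ≤ 1 := min_le_left _ _
  set A₀ := posLog (R₀ + 2) * vb n (R₀ + 1) + (2 + Γ) * vb n R₀ with hA₀
  push Not at h
  obtain ⟨v, hv, y₁, hy₁, hvy₁⟩ := h ((T + 3 + cM n * (4 ^ n * |A₀| + 1) + 2 * C) / t)
  obtain ⟨y, hy, hmax⟩ := (hv.usc.upperSemicontinuousOn _).exists_isMaxOn
    ⟨y₁, mem_closedBall_zero_iff.2 hy₁⟩ (isCompact_closedBall 0 1)
  set M := v y with hM
  have hM0 : 0 ≤ M := hv.nonneg y
  have hMT : T + 3 + cM n * (4 ^ n * |A₀| + 1) + 2 * C ≤ t * (M + C) := by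
    have : v y₁ ≤ M := hmax (mem_closedBall_zero_iff.2 hy₁)
    have h2 := (div_lt_iff₀' ht0).1 (hvy₁.trans_le this)
    nlinarith
  obtain ⟨C', hC'⟩ := hv.growth
  have hg := psh_bernstein hv.sm hv.usc hC' fun z hz => hmax (mem_closedBall_zero_iff.2 hz)
  obtain ⟨s, hs, hs1, hsK⟩ := exists_nbhd hv.usc hK hv.le0 one_pos
  obtain ⟨ρ, hρ, hρc, hρ1⟩ := exists_kernel (n := n) hs
  let b : SR n := ⟨fun z => mol ρ v z + -1, show ContDiff ℝ ∞ _ from
    (contDiff_mol hρ hρc hv.sm.meas hv.sm.lb).add contDiff_const⟩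
  have hb1 : ∀ z, b.1 z ≤ posLog ‖z‖ + M := fun z => by
    have := mol_le hρ hρ1 hv.sm.meas hv.sm.lb (z := z) (c := posLog ‖z‖ + 1 + M) fun w hw => by
      linarith [hg (z - w), posLog_sub_le (z := z) (hw.trans hs1)]
    change mol ρ v z + -1 ≤ _
    linarith
  have hb2 : ∀ z ∈ K, b.1 z ≤ 0 := fun z hz => by
    have := mol_le hρ hρ1 hv.sm.meas hv.sm.lb (z := z) (c := 0 + 1) fun w hw =>
      hsK z hz _ (by simpa using hw)
    change mol ρ v z + -1 ≤ _
    linarith
  have hb3 : ∀ z, v z - 1 ≤ b.1 z := fun z => by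
    change _ ≤ mol ρ v z + -1
    linarith [hv.sm.le_mol hρ hρ1 z]
  set R := max (max ρK R₀) (max 1 (exp (M + C + C + 1))) with hR
  have hR1 : 1 ≤ R := (le_max_left _ _).trans (le_max_right _ _)
  have hRe : exp (M + C + C + 1) ≤ R := (le_max_right _ _).trans (le_max_right _ _)
  have hP : PP R (g0 n C) (patch hm C b) := patch_PP hm
    (psd_of_sm ((hv.sm.mol hρ hρc).add_const _)) hb1 ((exp_le_exp.2 (by linarith)).trans hRe)
  have hP0 : PP R (g0 n C) (g0 n C) := ⟨fun z _ => by simp, psd_g0 C⟩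
  have hu := patch_bound hm (by linarith : 0 ≤ M + C) hb1
  set x := g0 n C with hx
  set u := patch hm C b - x with hudef
  set f : SR n := (M + C) • 1 - u with hf
  have hf1 : ∀ z, f.1 z = M + C - ((patch hm C b).1 z - x.1 z) := fun z => by simp [hf, hudef]
  have hf2 : ∀ z, 0 ≤ f.1 z ∧ f.1 z ≤ M + C := fun z => by
    rw [hf1]; constructor <;> linarith [hu z]
  have hlv : ∀ (τ : ℝ) z, lv (x - τ • f) z = lv (x + τ • u) z := fun τ z => by
    simp only [hf, lv_sub, lv_add, lv_smul, lv_one, smul_zero, zero_sub, smul_neg, sub_neg_eq_add]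
  have hom0 : om R x f ≤ 4 ^ n * |A₀| + (M + C) * (2 * cM n)⁻¹ := by
    rw [om_eq, ← integral_inter_add_sdiff (measurableSet_closedBall (x := 0) (ε := R₀))
      (intOn (by fun_prop) _ _), inter_eq_right.2 (closedBall_subset_closedBall
      ((le_max_right _ _).trans (le_max_left _ _)))]
    simp only [hx, lv_g0]
    refine add_le_add ?_ (le_trans ?_ (mul_le_mul_of_nonneg_left (htail R) (by linarith)))
    · have hi : IntegrableOn (fun z => M + posLog (R₀ + 2) - v z) (closedBall 0 R₀) :=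
        ((intOn (continuous_const (y := M + posLog (R₀ + 2))) 0 R₀).sub
        (hv.sm.lb.integrableOn hv.sm.meas 0 R₀))
      have hi2 := intOn (continuous_const (y := 2 + Γ)) (0 : Fin n → ℂ) R₀
      have a1 : ∫ z in closedBall 0 R₀, ((M + posLog (R₀ + 2) - v z) + (2 + Γ)) ≤ |A₀| := by
        rw [integral_add hi hi2, setIntegral_const, smul_eq_mul, mul_comm]
        exact (add_le_add (l1_bound hv.sm hg (by simpa using hy) le_rfl) le_rfl).trans
          (le_abs_self _)
      refine le_trans ?_ (mul_le_mul_of_nonneg_left a1 (by positivity))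
      rw [← integral_const_mul]
      refine setIntegral_mono_on (intOn (by fun_prop) _ _) ((hi.add hi2).const_mul _)
        measurableSet_closedBall fun z hz => ?_
      rw [mul_comm]
      refine mul_le_mul ((det_gg_le z).trans (mul_le_of_le_one_right (by positivity) (JJ_le_one z)))
        ?_ (hf2 z).1 (by positivity)
      have a2 := hm.ge (b.1 z - (g0 n C).1 z)
      have a3 := (le_abs_self _).trans (hΓ z (by simpa using hz))
      rw [hf1, patch_apply, add_sub_cancel_left]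
      rw [g0_apply] at a2 ⊢
      linarith [hb3 z, hm.c1, posLog_nonneg (x := R₀ + 2)]
    · rw [← integral_const_mul]
      exact setIntegral_mono_on ((intOn (by fun_prop) _ _).mono_set sdiff_subset)
        ((intOn (by fun_prop) _ _).mono_set sdiff_subset)
        (measurableSet_closedBall.diff measurableSet_closedBall) fun z _ =>
          mul_le_mul_of_nonneg_right (hf2 z).2 (det_re_nonneg (psd_gg z))
  have homτ : ∀ τ ∈ Icc (0 : ℝ) 1, om R (x + τ • u) f ≤ om R x f + τ * (Cb * ((M + C) * M₀)) := by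
    intro τ hτ
    have := le_of_deriv_nonpos (h := fun τ => om R (x + τ • u) f - τ * (Cb * ((M + C) * M₀)))
      (fun τ => (hasDerivAt_om x u f τ).sub ((hasDerivAt_id τ).mul_const _)) hτ.1 fun σ hσ => by
        have a1 := (le_abs_self _).trans (hCb R x x (patch hm C b) f (M + C) hP0 hP
          (fun z _ => by rw [abs_of_nonneg (hf2 z).1]; exact (hf2 z).2) σ ⟨hσ.1, hσ.2.trans hτ.2⟩)
        have a2 := mul_le_mul_of_nonneg_left (mul_le_mul_of_nonneg_left (om_g0_le (n := n) R C)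
          (by linarith : 0 ≤ M + C)) hCb0
        linarith
    simp only [zero_smul, add_zero, zero_mul, sub_zero] at this
    linarith
  have e1 : ∀ σ : ℝ, x + σ • (x - t • f - x) = x - (σ * t) • f := fun σ => by module
  have e2 : x - (x - t • f) = t • f := by module
  have key := det_path hn (by linarith : 0 ≤ R) (x := x) (y := x - t • f) (psd_g0 C)
    (fun z => hlv t z ▸ (hP0.conv hP ⟨ht0.le, ht1⟩).psd z)
    (fun z => by
      change x.1 z - t * f.1 z ≤ x.1 z
      linarith [mul_nonneg ht0.le (hf2 z).1])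
    (Θ := t * (4 ^ n * |A₀| + (M + C) * (2 * cM n)⁻¹ + t * (Cb * ((M + C) * M₀))))
    (A := (M + C) * (vb n 1)⁻¹)
    (fun σ hσ => by
      rw [e1, e2, om_smul, om_congr (hlv _)]
      have a1 : σ * t ≤ t := mul_le_of_le_one_left ht0.le hσ.2
      have a2 := homτ (σ * t) ⟨mul_nonneg hσ.1 ht0.le, a1.trans ht1⟩
      have a3 := mul_le_mul_of_nonneg_right a1 (show 0 ≤ Cb * ((M + C) * M₀) by positivity)
      exact mul_le_mul_of_nonneg_left (by linarith) ht0.le)
    (fun k σ hσ z hz _ => by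
      have a1 : σ * t ≤ 1 := mul_le_one₀ hσ.2 ht0.le ht1
      have a0 : 0 ≤ σ * t := mul_nonneg hσ.1 ht0.le
      rw [e1]
      refine mul_le_mul ?_ (tail (SR.cont _) (by linarith) (κ := 0) (fun w hw => ?_) ?_)
        (bd_nonneg (SR.cont _) (by linarith) z) (by linarith)
      · change x.1 z - (x.1 z - t * f.1 z) ≤ _
        nlinarith [hf2 z]
      · change x.1 w - σ * t * f.1 w ≤ 0
        have := (le_abs_self _).trans (hC w (hw.trans (le_max_right _ _)))
        rw [hx, g0_apply]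
        linarith [mul_nonneg a0 (hf2 w).1]
      · change _ ≤ x.1 z - σ * t * f.1 z
        have b1 := le_gg (hRe.trans hz.le)
        have b2 : log (1 + ‖z‖) ≤ posLog (1 + ‖z‖) := le_max_right _ _
        rw [hx, g0_apply]
        nlinarith [posLog_le_gg z, posLog_one_add ‖z‖, log_two_lt_d9, hf2 z])
    one_pos
  filter_upwards [key, maxV_le_gw hK (by linarith : 0 ≤ R)
    (fun z hz => (hρK z hz).trans ((le_max_left _ _).trans (le_max_left _ _)))
    (SR.cont (x - t • f)) (κ := -(t * (M + C))) (fun z hz => by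
      change x.1 z - t * f.1 z ≤ _
      have a1 : x.1 z ≤ 0 := by
        rw [hx, g0_apply]
        linarith [(le_abs_self _).trans (hC z ((hρK z hz).trans (le_max_left _ _)))]
      have a2 : (patch hm C b).1 z ≤ 0 := by
        rw [patch_apply]
        linarith [hm.le (x := b.1 z - x.1 z) (F := -x.1 z) (by linarith) (by linarith [hb2 z hz])]
      rw [hf1]
      nlinarith) one_pos, eventually_ge_atTop 2,
    eventually_le_exp n ((∫ z : Fin n → ℂ, JJ z) + 1) 0 one_pos] with k h1 h2 h3 h4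
  have h5 := det_gw_gg (n := n) h3 (R + 1) C
  have e3 : (fun z => (gg n).1 z - C) = x.1 := funext fun z => (g0_apply C z).symm
  have hJ : 0 ≤ ∫ z : Fin n → ℂ, JJ z := integral_nonneg JJ_nonneg
  rw [pow_zero, mul_one] at h4
  replace h5 := h5.trans (pow_le_pow_left₀ (by positivity)
    (mul_le_mul_of_nonneg_left h4 (exp_pos _).le) _)
  rw [e3, ← Real.exp_add, ← exp_nat_mul] at h5
  refine h2.trans ((mul_le_mul_of_nonneg_left (h1.trans (mul_le_mul_of_nonneg_right h5
    (exp_pos _).le)) (exp_pos _).le).trans ?_)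
  rw [← Real.exp_add, ← Real.exp_add, exp_le_exp]
  have a1 : cM n * t * (Cb * M₀) ≤ 1 / 2 := by
    have : t ≤ (2 * cM n * (Cb * M₀ + 1))⁻¹ := min_le_right _ _
    rw [inv_eq_one_div, le_div_iff₀ (by positivity)] at this
    nlinarith [mul_pos hc ht0]
  have a2 : cM n * (t * (4 ^ n * |A₀| + (M + C) * (2 * cM n)⁻¹ + t * (Cb * ((M + C) * M₀))) + 1) ≤
      cM n * (4 ^ n * |A₀| + 1) + t * (M + C) := by
    have b1 : cM n * (t * ((M + C) * (2 * cM n)⁻¹)) = t * (M + C) / 2 := by field_simp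
    have b2 := mul_le_mul_of_nonneg_left a1 (show 0 ≤ t * (M + C) by positivity)
    have b3 := mul_le_mul_of_nonneg_left ht1 (show 0 ≤ cM n * (4 ^ n * |A₀|) by positivity)
    nlinarith
  have a3 : (0 : ℝ) ≤ k * NN n k := by positivity
  nlinarith [mul_le_mul_of_nonneg_right a2 a3, mul_le_mul_of_nonneg_right hMT a3]

end Pool.Agent.Lib.MP_a839f6_an
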