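import Pool.Agent.Lib.MP_a839f6_an.MT1

namespace Pool.Agent.Lib.MP_a839f6_an

open MeasureTheory Matrix Filter Topology Metric Set Real
open scoped ContDiff ComplexOrder ComplexConjugate

variable {n : ℕ} {K : Set (Fin n → ℂ)}

lemma choquet (K : Set (Fin n → ℂ)) : ∃ u : ℕ → (Fin n → ℂ) → ℝ, (∀ j, Gc K (u j)) ∧ Monotone u ∧
    ∀ a : (Fin n → ℂ) → ℝ, Continuous a → (∀ j z, u j z ≤ a z) → ∀ v, Gc K v → ∀ z, v z ≤ a z := by
  have h : ∀ p : TopologicalSpace.countableBasis (Fin n → ℂ) × ℚ, ∃ w, Gc K w ∧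
      ((∃ v, Gc K v ∧ ∃ y ∈ p.1.1, (p.2 : ℝ) < v y) → ∃ y ∈ p.1.1, (p.2 : ℝ) < w y) := by
    intro p
    by_cases hp : ∃ v, Gc K v ∧ ∃ y ∈ p.1.1, (p.2 : ℝ) < v y
    · obtain ⟨v, hv, h⟩ := hp
      exact ⟨v, hv, fun _ => h⟩
    · exact ⟨_, Gc.zero, fun h => absurd h hp⟩
  choose f hf using h
  obtain ⟨B₀, hB₀, -⟩ := (TopologicalSpace.isBasis_countableBasis (Fin n → ℂ)).mem_nhds_iff.1
    (univ_mem (f := 𝓝 0))
  have : Nonempty (TopologicalSpace.countableBasis (Fin n → ℂ)) := ⟨⟨B₀, hB₀⟩⟩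
  obtain ⟨e, he⟩ := exists_surjective_nat (TopologicalSpace.countableBasis (Fin n → ℂ) × ℚ)
  refine ⟨partialSups (f ∘ e), fun j => ?_, (partialSups _).monotone, fun a ha hua v hv z => ?_⟩
  · induction j with
    | zero => simpa using (hf _).1
    | succ j ih => rw [partialSups_add_one]; exact ih.max (hf _).1
  · by_contra hlt
    obtain ⟨q, hq1, hq2⟩ := exists_rat_btwn (not_le.1 hlt)
    obtain ⟨B, hB, hzB, hBs⟩ := (TopologicalSpace.isBasis_countableBasis (Fin n → ℂ)).mem_nhds_iff.1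
      ((isOpen_lt ha continuous_const).mem_nhds hq1)
    obtain ⟨j, hj⟩ := he (⟨B, hB⟩, q)
    obtain ⟨y, hy, hy'⟩ := (hf (⟨B, hB⟩, q)).2 ⟨v, hv, z, hzB, hq2⟩
    have h1 := le_partialSups (f ∘ e) j y
    simp only [Function.comp_apply, hj] at h1
    have h2 : a y < q := hBs hy
    exact lt_irrefl _ ((hy'.trans_le (h1.trans (hua j y))).trans h2)

lemma exists_env {C : ℝ} (hC : ∀ v, Gc K v → ∀ z, v z ≤ posLog ‖z‖ + C) :
    ∃ U : (Fin n → ℂ) → ℝ, SM U ∧ (∀ z, 0 ≤ U z) ∧ (∀ z, U z ≤ posLog ‖z‖ + C) ∧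
      (∀ a : (Fin n → ℂ) → ℝ, Continuous a → (∀ z, U z ≤ a z) → ∀ v, Gc K v → ∀ z, v z ≤ a z) ∧
      ∀ R θ, 0 < θ → ∃ v, Gc K v ∧ ∫ z in closedBall 0 R, U z ≤ (∫ z in closedBall 0 R, v z) + θ := by
  obtain ⟨u, hu, hm, ha⟩ := choquet K
  have hb : ∀ z, BddAbove (range fun j => u j z) := fun z =>
    ⟨_, by rintro _ ⟨j, rfl⟩; exact hC _ (hu j) z⟩
  have h1 : ∀ j z, u j z ≤ ⨆ j, u j z := fun j z => le_ciSup (hb z) j
  have h0 : ∀ z, 0 ≤ ⨆ j, u j z := fun z => ((hu 0).nonneg z).trans (h1 0 z)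
  have h2 : ∀ z, ⨆ j, u j z ≤ posLog ‖z‖ + C := fun z => ciSup_le fun j => hC _ (hu j) z
  have hme : Measurable fun z => ⨆ j, u j z := Measurable.iSup fun j => (hu j).sm.meas
  have hl : LB fun z => ⨆ j, u j z := fun R => ⟨posLog R + C, fun z hz => by
    rw [abs_of_nonneg (h0 z)]
    linarith [h2 z, posLog_le_posLog (norm_nonneg _) hz]⟩
  refine ⟨fun z => ⨆ j, u j z, ⟨hme, hl, fun a b => ciSup_le fun j => ((hu j).sm.sub a b).trans
    (circleAverage_mono ((hu j).sm.ci a b) (hl.circleIntegrable hme a b) fun _ _ => h1 j _)⟩,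
    h0, h2, fun a hac h => ha a hac fun j z => (h1 j z).trans (h z), fun R θ hθ => ?_⟩
  have := integral_tendsto_of_tendsto_of_monotone
    (fun j => (hu j).sm.lb.integrableOn (hu j).sm.meas 0 R) (hl.integrableOn hme 0 R)
    (Eventually.of_forall fun z i j hij => hm hij z)
    (Eventually.of_forall fun z => tendsto_atTop_ciSup (fun i j hij => hm hij z) (hb z))
  obtain ⟨j, hj⟩ := (this.eventually (lt_mem_nhds (sub_lt_self _ hθ))).exists
  exact ⟨u j, hu j, by linarith⟩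

lemma exists_right {U : (Fin n → ℂ) → ℝ} (hU : SM U) (h0 : ∀ z, 0 ≤ U z) (R : ℝ) {θ : ℝ}
    (hθ : 0 < θ) : ∃ s > 0, ∀ r ≤ s,
      ∫ z in closedBall 0 (R + r), U z ≤ (∫ z in closedBall 0 R, U z) + θ := by
  have h := tendsto_setIntegral_of_antitone (μ := volume) (f := U)
    (s := fun i : ℕ => closedBall (0 : Fin n → ℂ) (R + 1 / (i + 1)))
    (fun _ => measurableSet_closedBall)
    (fun i j hij => closedBall_subset_closedBall (add_le_add_right (Nat.one_div_le_one_div hij) _))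
    ⟨0, hU.lb.integrableOn hU.meas _ _⟩
  have e : ⋂ i : ℕ, closedBall (0 : Fin n → ℂ) (R + 1 / (i + 1)) = closedBall 0 R := by
    ext z
    simp only [mem_iInter, mem_closedBall_zero_iff]
    refine ⟨fun h => le_of_forall_pos_le_add fun ε hε => ?_, fun h i => ?_⟩
    · obtain ⟨i, hi⟩ := exists_nat_one_div_lt hε
      linarith [h i]
    · linarith [Nat.one_div_pos_of_nat (α := ℝ) (n := i)]
  rw [e] at h
  obtain ⟨i, hi⟩ := (h.eventually (gt_mem_nhds (lt_add_of_pos_right _ hθ))).exists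
  refine ⟨1 / (i + 1), Nat.one_div_pos_of_nat, fun r hr => le_trans ?_ hi.le⟩
  exact setIntegral_mono_set (hU.lb.integrableOn hU.meas _ _) (Eventually.of_forall h0)
    (LE.le.eventuallyLE (closedBall_subset_closedBall (by linarith)))

lemma mt2 (hn : 0 < n) (hK : IsCompact K) {C₀ : ℝ}
    (hC₀ : ∀ v, Gc K v → ∀ z, v z ≤ posLog ‖z‖ + C₀) :
    ∃ R c : ℝ, 0 ≤ R ∧ (∀ z ∈ K, ‖z‖ ≤ R) ∧ ∀ ε > 0, ∃ a φ ψ : (Fin n → ℂ) → ℝ,
      Continuous a ∧ Continuous φ ∧ Continuous ψ ∧ (∀ z, 0 ≤ a z) ∧ (∀ z, extremal K z ≤ a z) ∧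
      (∀ z, a z - c ≤ φ z) ∧ (∀ z ∈ K, ψ z ≤ -c) ∧ ∀ᶠ k : ℕ in atTop,
        (gw (R + 1) k ψ).det.re ≤ (gw (R + 1) k φ).det.re * exp (ε * (k * NN n k)) := by
  obtain ⟨m, c, hm⟩ := exists_glue
  obtain ⟨ρK, hρK⟩ := hK.exists_bound_of_continuousOn continuousOn_id
  obtain ⟨Γ, hΓ⟩ := LB.of_continuous (SR.cont (gg n)) (max ρK 0)
  have hΓ0 : 0 ≤ Γ := (abs_nonneg _).trans (hΓ 0 (by simp))
  have hC0 : 0 ≤ C₀ := by simpa using hC₀ _ Gc.zero 0
  obtain ⟨U, hU, hU0, hUg, hUa, hUi⟩ := exists_env hC₀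
  set C := Γ + 2 with hC
  set R := max ρK (exp (C₀ + 2 + C)) with hR
  have hR0 : 0 ≤ R := (exp_pos _).le.trans (le_max_right _ _)
  refine ⟨R, c, hR0, fun z hz => (hρK z hz).trans (le_max_left _ _), fun ε hε => ?_⟩
  have hc := cM_pos n
  have hF : 0 ≤ C₀ + 2 + C := by linarith
  have hPP : ∀ ψ : SR n, SM ψ.1 → (∀ z, ψ.1 z ≤ posLog ‖z‖ + (C₀ + 2)) →
      PP R (g0 n C) (patch hm C ψ) ∧ ∀ z, 0 ≤ (patch hm C ψ).1 z - (g0 n C).1 z ∧
        (patch hm C ψ).1 z - (g0 n C).1 z ≤ C₀ + 2 + C := fun ψ h1 h2 =>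
    ⟨patch_PP hm (psd_of_sm h1) h2 (le_max_right _ _), patch_bound hm hF h2⟩
  set ε' := ε / (3 * cM n) with hε'
  have hε'0 : 0 < ε' := by positivity
  obtain ⟨_, ⟨b₀, ⟨hb₀1, hb₀2, hb₀3⟩, rfl⟩, η, hη, hen⟩ := energy_main (R := R) (psd_g0 C)
    (𝒜 := patch hm C '' {ψ : SR n | SM ψ.1 ∧ (∀ z, ψ.1 z ≤ posLog ‖z‖ + (C₀ + 2)) ∧
      ∀ z ∈ K, ψ.1 z ≤ 0})
    ⟨_, 0, ⟨SM.const 0, fun z => by
      change (0 : ℝ) ≤ _
      linarith [posLog_nonneg (x := ‖z‖)], fun _ _ => le_rfl⟩, rfl⟩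
    (by rintro _ ⟨ψ, h, rfl⟩; exact hPP ψ h.1 h.2.1) hε'0
  let b₁ : SR n := ⟨fun z => b₀.1 z + -η, show ContDiff ℝ ∞ _ from (SR.cd b₀).add contDiff_const⟩
  have hb₁ : ∀ z, b₁.1 z = b₀.1 z + -η := fun _ => rfl
  obtain ⟨hx1, hx2⟩ := hPP b₁ (hb₀1.add_const _) fun z => by rw [hb₁]; linarith [hb₀2 z]
  obtain ⟨D, hD⟩ := LB.of_continuous (continuous_det_lv (patch hm C b₁)) R
  have hD0 : 0 ≤ D := (abs_nonneg _).trans (hD 0 (by simpa using hR0))
  have hvb : 0 ≤ vb n R := measureReal_nonneg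
  set θ := ε' / ((D + 1) * (2 + vb n R)) with hθ
  have hθ0 : 0 < θ := by positivity
  obtain ⟨v, hv, hvi⟩ := hUi R θ hθ0
  have hw := (Gc.of_sm hb₀1 (SR.cont b₀).upperSemicontinuous hb₀3 ⟨_, hb₀2⟩).max hv
  set w := fun z => max (max (b₀.1 z) 0) (v z) with hwdef
  set e := min (min η 1) θ with he
  have he0 : 0 < e := lt_min (lt_min hη one_pos) hθ0
  have he1 : e ≤ η := (min_le_left _ _).trans (min_le_left _ _)
  have he2 : e ≤ 1 := (min_le_left _ _).trans (min_le_right _ _)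
  have he3 : e ≤ θ := min_le_right _ _
  obtain ⟨s₁, hs₁, hs₁1, hs₁K⟩ := exists_nbhd hw.usc hK hw.le0 he0
  obtain ⟨s₂, hs₂, hs₂'⟩ := exists_right hU hU0 R hθ0
  obtain ⟨ρ, hρ, hρc, hρ1⟩ := exists_kernel (n := n) (lt_min hs₁ (half_pos hs₂))
  set s := min s₁ (s₂ / 2) with hs
  have hs1 : s ≤ 1 := (min_le_left _ _).trans hs₁1
  let b : SR n := ⟨fun z => mol ρ w z + -e, show ContDiff ℝ ∞ _ from
    (contDiff_mol hρ hρc hw.sm.meas hw.sm.lb).add contDiff_const⟩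
  have hb : ∀ z, b.1 z = mol ρ w z + -e := fun _ => rfl
  have hU' := hU.mol hρ hρc
  let a : SR n := ⟨mol ρ (mol ρ U), show ContDiff ℝ ∞ _ from contDiff_mol hρ hρc hU'.meas hU'.lb⟩
  have ha : ∀ z, a.1 z = mol ρ (mol ρ U) z := fun _ => rfl
  have hUc := (contDiff_mol hρ hρc hU.meas hU.lb).continuous
  have hb1 : ∀ z, b.1 z ≤ posLog ‖z‖ + (C₀ + 2) := fun z => by
    have := mol_le hρ hρ1 hw.sm.meas hw.sm.lb (z := z) (c := posLog ‖z‖ + 1 + C₀) fun y hy => by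
      linarith [hC₀ _ hw (z - y), posLog_sub_le (z := z) (hy.trans hs1)]
    rw [hb]; linarith
  have hb2 : ∀ z ∈ K, b.1 z ≤ 0 := fun z hz => by
    have := mol_le hρ hρ1 hw.sm.meas hw.sm.lb (z := z) (c := 0 + e) fun y hy =>
      hs₁K z hz _ (by simpa using hy.trans (min_le_left _ _))
    rw [hb]; linarith
  have hb3 : ∀ z, w z - e ≤ b.1 z := fun z => by
    rw [hb]; linarith [hw.sm.le_mol hρ hρ1 z]
  have ha1 : ∀ z, a.1 z ≤ posLog ‖z‖ + (C₀ + 2) := fun z =>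
    mol_le hρ hρ1 hU'.meas hU'.lb fun y hy => by
      have := mol_le hρ hρ1 hU.meas hU.lb (z := z - y) (c := posLog ‖z - y‖ + 1 + C₀) fun y' hy' => by
        linarith [hUg (z - y - y'), posLog_sub_le (z := z - y) (hy'.trans hs1)]
      linarith [posLog_sub_le (z := z) (hy.trans hs1)]
  have ha2 : ∀ v, Gc K v → ∀ z, v z ≤ mol ρ U z := hUa _ hUc (hU.le_mol hρ hρ1)
  have hab : ∀ z, b.1 z ≤ a.1 z := fun z => by
    have := mol_mono hρ hw.sm.meas hw.sm.lb hU'.meas hU'.lb (z := z) fun y _ => ha2 _ hw _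
    rw [hb, ha]; linarith
  obtain ⟨hy1, -⟩ := hPP b ((hw.sm.mol hρ hρc).add_const _) hb1
  obtain ⟨hA1, hA2⟩ := hPP a (hU'.mol hρ hρc) ha1
  have k1 := hen (patch hm C b₁) hx1 hx2 (fun z => by
      rw [patch_apply, patch_apply, hb₁]
      linarith [hm.lip (b₀.1 z + -η - (g0 n C).1 z) (b₀.1 z - (g0 n C).1 z) (by linarith)])
    (patch hm C b) ⟨b, ⟨(hw.sm.mol hρ hρc).add_const _, hb1, hb2⟩, rfl⟩ (fun z => by
      rw [patch_apply, patch_apply, hb₁]
      have : b₀.1 z ≤ w z := (le_max_left _ _).trans (le_max_left _ _)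
      linarith [hm.mono (show b₀.1 z + -η - (g0 n C).1 z ≤ b.1 z - (g0 n C).1 z by
        linarith [hb3 z])]) (patch hm C a) hA1 hA2
  have hyA : ∀ z, (patch hm C b).1 z ≤ (patch hm C a).1 z := fun z => by
    rw [patch_apply, patch_apply]
    linarith [hm.mono (show b.1 z - (g0 n C).1 z ≤ a.1 z - (g0 n C).1 z by linarith [hab z])]
  have k2 : ∫ z in closedBall 0 R, (a.1 z - b.1 z) ≤ θ * (2 + vb n R) := by
    have i1 := hv.sm.lb.integrableOn hv.sm.meas 0 R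
    have a1 : ∫ z in closedBall 0 R, a.1 z ≤ (∫ z in closedBall 0 R, U z) + θ :=
      (integral_mol_le hρ hρ1 hU'.meas hU'.lb (fun z => (hU0 z).trans (hU.le_mol hρ hρ1 z)) R).trans
        ((integral_mol_le hρ hρ1 hU.meas hU.lb hU0 _).trans (by
          rw [add_assoc]; exact hs₂' _ (by linarith [min_le_right s₁ (s₂ / 2)])))
    have a2 : ∫ z in closedBall 0 R, (v z - θ) ≤ ∫ z in closedBall 0 R, b.1 z :=
      setIntegral_mono_on (i1.sub (intOn continuous_const _ _)) (intOn (SR.cont b) _ _)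
        measurableSet_closedBall fun z _ => by
          have : v z ≤ w z := le_max_right _ _
          linarith [hb3 z]
    rw [integral_sub i1 (intOn continuous_const _ _), setIntegral_const, smul_eq_mul] at a2
    rw [integral_sub (intOn (SR.cont a) _ _) (intOn (SR.cont b) _ _)]
    simp only [vb]
    linarith
  have k3 : om R (patch hm C b₁) (patch hm C a - patch hm C b) ≤ ε' := by
    have a1 : D * (θ * (2 + vb n R)) ≤ ε' := by
      rw [hθ, div_mul_eq_mul_div, mul_div_assoc', div_le_iff₀ (by positivity)]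
      nlinarith [mul_nonneg hε'0.le hvb]
    refine le_trans ?_ ((mul_le_mul_of_nonneg_left k2 hD0).trans a1)
    rw [om_eq, ← integral_const_mul]
    refine setIntegral_mono_on (intOn (by fun_prop) _ _)
      (intOn (continuous_const.mul ((SR.cont a).sub (SR.cont b))) _ _)
      measurableSet_closedBall fun z hz => ?_
    rw [mul_comm]
    refine mul_le_mul ((le_abs_self _).trans (hD z (by simpa using hz))) ?_
      (sub_nonneg.2 (hyA z)) hD0
    change (patch hm C a).1 z - (patch hm C b).1 z ≤ _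
    rw [patch_apply, patch_apply]
    linarith [hm.lip (b.1 z - (g0 n C).1 z) (a.1 z - (g0 n C).1 z) (by linarith [hab z])]
  have key := det_path hn hR0 hA1.psd hy1.psd hyA (Θ := 2 * ε') (A := 0)
    (fun σ hσ => by
      have e1 : patch hm C a + σ • (patch hm C b - patch hm C a) =
          patch hm C b + (1 - σ) • (patch hm C a - patch hm C b) := by module
      rw [e1]
      linarith [hy1.om_antitone hA1 (t := 1 - σ) ⟨by linarith [hσ.2], by linarith [hσ.1]⟩])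
    (fun k σ _ z hz _ => by
      have : (patch hm C a).1 z - (patch hm C b).1 z = 0 := hy1.supp_sub hA1 z hz
      rw [this, zero_mul]) hε'0
  refine ⟨a.1, (patch hm C a).1, (patch hm C b).1, SR.cont _, SR.cont _, SR.cont _,
    fun z => (hU0 z).trans ((hU.le_mol hρ hρ1 z).trans (hU'.le_mol hρ hρ1 z)),
    fun z => extremal_le fun v hv => (ha2 v hv z).trans (hU'.le_mol hρ hρ1 z), fun z => ?_,
    fun z hz => ?_, ?_⟩
  · rw [patch_apply]; linarith [hm.ge (a.1 z - (g0 n C).1 z)]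
  · rw [patch_apply, hm.eq _ (by
      rw [g0_apply]
      linarith [hb3 z, hw.nonneg z,
        (le_abs_self _).trans (hΓ z ((hρK z hz).trans (le_max_left _ _)))])]
    linarith [hb2 z hz]
  · have : cM n * (2 * ε' + ε') = ε := by rw [hε']; field_simp; ring
    rwa [this] at key

end Pool.Agent.Lib.MP_a839f6_an
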