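import Pool.Agent.Lib.MP_a839f6_an.Zah

namespace Pool.Agent.Lib.MP_a839f6_an

open MeasureTheory Filter Topology Set Real

variable {n k : ℕ} {K : Set (Fin n → ℂ)} {μ : Measure (Fin n → ℂ)}

lemma exp_rpow (hn : 0 < n) (hk : 0 < k) (c : ℝ) :
    exp (c * (k * NN n k)) ^ (1 / (2 * ell n k)) = exp (c * ((n + 1) / (2 * n))) := by
  have hN := one_le_NN n k
  have hn' : (0 : ℝ) < n := by exact_mod_cast hn
  have hk' : (0 : ℝ) < k := by exact_mod_cast hk
  rw [← exp_mul, ell, ← card_Idx]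
  congr 1
  field_simp

lemma ell_nonneg : 0 ≤ 1 / (2 * ell n k) := by unfold ell; positivity

lemma rpow_le (hn : 0 < n) (hk : 0 < k) {x c : ℝ} (hx : 0 ≤ x) (h : x ≤ exp (c * (k * NN n k))) :
    x ^ (1 / (2 * ell n k)) ≤ exp (c * ((n + 1) / (2 * n))) :=
  (rpow_le_rpow hx h ell_nonneg).trans_eq (exp_rpow hn hk c)

lemma le_rpow (hn : 0 < n) (hk : 0 < k) {x c : ℝ} (h : exp (c * (k * NN n k)) ≤ x) :
    exp (c * ((n + 1) / (2 * n))) ≤ x ^ (1 / (2 * ell n k)) :=
  (exp_rpow hn hk c).symm.trans_le (rpow_le_rpow (exp_pos _).le h ell_nonneg)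

lemma tendsto_of_exp (hn : 0 < n) {x : ℕ → ℝ} {L : ℝ} (h : ∀ ε > 0, ∀ᶠ k : ℕ in atTop,
    exp ((L - ε) * (k * NN n k)) ≤ x k ∧ x k ≤ exp ((L + ε) * (k * NN n k))) :
    Tendsto (fun k => x k ^ (1 / (2 * ell n k))) atTop (𝓝 (exp (L * ((n + 1) / (2 * n))))) := by
  have hc : Continuous fun y : ℝ => exp (y * ((n + 1) / (2 * n))) := by fun_prop
  refine tendsto_order.2 ⟨fun a ha => ?_, fun a ha => ?_⟩
  · obtain ⟨ε, hε, h1⟩ := Metric.nhds_basis_closedBall.eventually_iff.1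
      ((hc.tendsto L).eventually (lt_mem_nhds ha))
    filter_upwards [eventually_gt_atTop 0, h ε hε] with k hk h2
    exact (h1 (by simp [abs_of_pos hε])).trans_le (le_rpow hn hk h2.1)
  · obtain ⟨ε, hε, h1⟩ := Metric.nhds_basis_closedBall.eventually_iff.1
      ((hc.tendsto L).eventually (gt_mem_nhds ha))
    filter_upwards [eventually_gt_atTop 0, h ε hε] with k hk h2
    exact (rpow_le hn hk ((exp_pos _).le.trans h2.1) h2.2).trans_lt (h1 (by simp [abs_of_pos hε]))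

lemma tendsto_zero_of_exp (hn : 0 < n) {x : ℕ → ℝ} (hx : ∀ k, 0 ≤ x k)
    (h : ∀ T : ℝ, ∀ᶠ k : ℕ in atTop, x k ≤ exp (-T * (k * NN n k))) :
    Tendsto (fun k => x k ^ (1 / (2 * ell n k))) atTop (𝓝 0) := by
  refine tendsto_order.2 ⟨fun a ha => Eventually.of_forall fun k =>
    ha.trans_le (rpow_nonneg (hx k) _), fun a ha => ?_⟩
  have hn' : (0 : ℝ) < n := by exact_mod_cast hn
  filter_upwards [eventually_gt_atTop 0, h (-(log (a / 2) / ((n + 1) / (2 * n))))] with k hk h2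
  refine (rpow_le hn hk (hx k) h2).trans_lt ?_
  rw [neg_neg, div_mul_cancel₀ _ (by positivity), exp_log (half_pos ha)]
  exact half_lt_self ha

lemma maxV_rpow : maxV K k ^ (1 / ell n k) = (maxV K k ^ 2) ^ (1 / (2 * ell n k)) := by
  rw [← rpow_two, ← rpow_mul maxV_nonneg]
  congr 1
  ring

theorem main (hn : 0 < n) (hK : IsCompact K) [IsFiniteMeasure μ] (hμ : μ Kᶜ = 0) :
    ∃ δ : ℝ, Tendsto (fun k => maxV K k ^ (1 / ell n k)) atTop (𝓝 δ) ∧
      (CondR K μ ↔ Tendsto (fun k => (∫ x, ‖vdm k x‖ ^ 2 ∂Measure.pi fun _ : Idx n k => μ) ^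
        (1 / (2 * ell n k))) atTop (𝓝 δ)) := by
  simp only [maxV_rpow]
  have hn' : (0 : ℝ) < n := by exact_mod_cast hn
  have hZ : ∀ k, 0 ≤ ∫ x, ‖vdm k x‖ ^ 2 ∂Measure.pi fun _ : Idx n k => μ :=
    fun k => integral_nonneg fun _ => sq_nonneg _
  by_cases h : ∃ M, ∀ v, Gc K v → ∀ z, ‖z‖ ≤ 1 → v z ≤ M
  · obtain ⟨M, hM⟩ := h
    obtain ⟨L, hL⟩ := zah hK (z₀ := 0) (t := M) one_pos fun y hy =>
      extremal_le fun v hv => hM v hv y (by simpa using hy)
    refine ⟨_, tendsto_of_exp hn hL, fun hR => tendsto_of_exp hn fun ε hε => ?_, fun hz => ?_⟩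
    · filter_upwards [hL _ (half_pos hε), upper hK hμ (half_pos hε),
        lower hn hK (ci_of_compact hK hμ) hR (C₀ := M) (fun v hv z => by
          obtain ⟨C, hC⟩ := hv.growth
          exact psh_bernstein hv.sm hv.usc hC (hM v hv) z) (half_pos hε)] with k h1 h2 h3
      constructor
      · have := h1.1.trans h3
        rw [← div_le_iff₀' (exp_pos _), ← Real.exp_sub] at this
        refine le_of_eq_of_le ?_ this
        congr 1; ring
      · refine h2.trans ((mul_le_mul_of_nonneg_left h1.2 (exp_pos _).le).trans_eq ?_)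
        rw [← Real.exp_add]; congr 1; ring
    · by_contra hR
      obtain ⟨-, c, hc, h1⟩ := not_condR hK hμ hR
      have h2 : exp ((L - c / 2) * ((n + 1) / (2 * n))) < exp (L * ((n + 1) / (2 * n))) :=
        exp_lt_exp.2 (mul_lt_mul_of_pos_right (by linarith) (by positivity))
      refine h1 ?_
      filter_upwards [eventually_gt_atTop 0, hL _ (half_pos hc), hz.eventually (lt_mem_nhds h2)]
        with k hk h3 h4 h5
      refine absurd (rpow_le hn hk (hZ k) (h5.trans ((mul_le_mul_of_nonneg_left h3.2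
        (exp_pos _).le).trans_eq ?_))) (not_le.2 h4)
      rw [← Real.exp_add]; congr 1; ring
  · refine ⟨0, tendsto_zero_of_exp hn (fun _ => sq_nonneg _) (mt1 hn hK h), fun _ =>
      tendsto_zero_of_exp hn hZ fun T => ?_, fun _ => ?_⟩
    · filter_upwards [mt1 hn hK h (T + 1), upper hK hμ one_pos] with k h1 h2
      refine h2.trans ((mul_le_mul_of_nonneg_left h1 (exp_pos _).le).trans_eq ?_)
      rw [← Real.exp_add]; congr 1; ring
    · by_contra hR
      obtain ⟨⟨T, hT⟩, -⟩ := not_condR hK hμ hR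
      obtain ⟨k, hk, h1, h2⟩ := ((eventually_gt_atTop 0).and (hT.and (mt1 hn hK h (T + 1)))).exists
      have := h1.trans (mul_le_mul_of_nonneg_left h2 (exp_pos _).le)
      rw [← Real.exp_add, one_le_exp_iff] at this
      have hk' : (0 : ℝ) < k := by exact_mod_cast hk
      nlinarith [one_le_NN n k]

end Pool.Agent.Lib.MP_a839f6_an
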