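import Pool.Agent.Lib.MP_a839f6_an.Poly

namespace Pool.Agent.Lib.MP_a839f6_an

open MeasureTheory Real Filter Topology Metric Set
open scoped ContDiff

variable {n : ℕ}

/-- locally bounded -/
def LB (v : (Fin n → ℂ) → ℝ) : Prop := ∀ R : ℝ, ∃ C, ∀ z, ‖z‖ ≤ R → |v z| ≤ C

lemma LB.of_continuous {v : (Fin n → ℂ) → ℝ} (hv : Continuous v) : LB v := fun R => by
  obtain ⟨C, hC⟩ := (isCompact_closedBall (0 : Fin n → ℂ) R).exists_bound_of_continuousOn
    hv.continuousOn
  exact ⟨C, fun z hz => hC z (by simpa using hz)⟩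

lemma LB.integrableOn {v : (Fin n → ℂ) → ℝ} (hv : LB v) (hm : Measurable v) (a : Fin n → ℂ)
    (r : ℝ) : IntegrableOn v (closedBall a r) := by
  obtain ⟨C, hC⟩ := hv (‖a‖ + r)
  refine Measure.integrableOn_of_bounded (M := C) measure_closedBall_lt_top.ne
    hm.aestronglyMeasurable ?_
  filter_upwards [ae_restrict_mem measurableSet_closedBall] with z hz
  exact hC z (norm_le_norm_add_const_of_dist_le hz)

lemma LB.comp {v : (Fin n → ℂ) → ℝ} (hv : LB v) {f : (Fin n → ℂ) → (Fin n → ℂ)}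
    (hf : Continuous f) : LB fun z => v (f z) := fun R => by
  obtain ⟨R', hR'⟩ := LB.of_continuous hf.norm R
  obtain ⟨C, hC⟩ := hv R'
  exact ⟨C, fun z hz => hC _ ((le_abs_self _).trans (hR' z hz))⟩

lemma LB.circleIntegrable {v : (Fin n → ℂ) → ℝ} (hv : LB v) (hm : Measurable v)
    (a b : Fin n → ℂ) : CircleIntegrable (fun ζ : ℂ => v (a + ζ • b)) 0 1 := by
  obtain ⟨C, hC⟩ := hv (‖a‖ + ‖b‖)
  refine (intervalIntegrable_const (c := C)).mono_fun' ?_ (Eventually.of_forall fun θ => ?_)
  · exact (hm.comp (by fun_prop)).aestronglyMeasurable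
  · exact hC _ ((norm_add_le _ _).trans (by simp [norm_smul]))

/-- arc length on the circle -/
noncomputable abbrev arc : Measure ℝ := volume.restrict (Ioc 0 (2 * π))

lemma avg_eq (f : ℂ → ℝ) :
    circleAverage f 0 1 = (2 * π)⁻¹ * ∫ θ, f (circleMap 0 1 θ) ∂arc := by
  rw [circleAverage_def, intervalIntegral.integral_of_le two_pi_pos.le, smul_eq_mul]

lemma measurePreserving_rot {ζ : ℂ} (hζ : ‖ζ‖ = 1) :
    MeasurePreserving (fun w : Fin n → ℂ => ζ • w) volume volume :=
  volume_preserving_pi fun _ : Fin n =>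
    (rotation ⟨ζ, by simpa [Submonoid.unitSphere] using hζ⟩).measurePreserving

lemma avg_rot {H : (Fin n → ℂ) → ℝ} (hm : Measurable H) (hi : Integrable H) :
    Integrable (fun w => circleAverage (fun ζ : ℂ => H (ζ • w)) 0 1) ∧
      ∫ w, circleAverage (fun ζ : ℂ => H (ζ • w)) 0 1 = ∫ w, H w := by
  have h0 : ∀ θ, MeasurePreserving (fun w : Fin n → ℂ => circleMap 0 1 θ • w) volume volume :=
    fun θ => measurePreserving_rot (by simp)
  have h1 : ∀ (G : (Fin n → ℂ) → ℝ), Measurable G → ∀ θ,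
      ∫ w, G (circleMap 0 1 θ • w) = ∫ w, G w := by
    intro G hG θ
    rw [← integral_map (h0 θ).aemeasurable hG.aestronglyMeasurable, (h0 θ).map_eq]
  have hp : Integrable (fun p : ℝ × (Fin n → ℂ) => H (circleMap 0 1 p.1 • p.2))
      (arc.prod volume) := by
    have hm' : Measurable (fun p : ℝ × (Fin n → ℂ) => H (circleMap 0 1 p.1 • p.2)) :=
      hm.comp (by fun_prop)
    rw [integrable_prod_iff hm'.aestronglyMeasurable]
    refine ⟨Eventually.of_forall fun θ => (h0 θ).integrable_comp_of_integrable hi, ?_⟩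
    simp only [h1 (fun w => ‖H w‖) hm.norm]
    exact integrable_const _
  simp only [avg_eq]
  refine ⟨hp.integral_prod_right.const_mul _, ?_⟩
  rw [integral_const_mul, ← integral_integral_swap hp]
  simp only [h1 H hm, integral_const]
  simp [two_pi_pos.le]
  field_simp

/-- circle invariant kernels -/
structure Ker (s : ℝ) (ρ : (Fin n → ℂ) → ℝ) : Prop where
  meas : Measurable ρ
  nonneg : ∀ w, 0 ≤ ρ w
  bdd : ∃ B, ∀ w, ρ w ≤ B
  supp : ∀ w, ρ w ≠ 0 → ‖w‖ ≤ s
  inv : ∀ (ζ : ℂ) w, ‖ζ‖ = 1 → ρ (ζ • w) = ρ w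

variable {s : ℝ} {ρ : (Fin n → ℂ) → ℝ}

lemma Ker.integrable_prod (h : Ker s ρ) {α : Type*} [MeasurableSpace α] (ν : Measure α)
    [IsFiniteMeasure ν] {G : α × (Fin n → ℂ) → ℝ} (hG : Measurable G) {C : ℝ}
    (hC : ∀ᵐ p ∂(ν.prod volume), ‖p.2‖ ≤ s → |G p| ≤ C) :
    Integrable (fun p : α × (Fin n → ℂ) => ρ p.2 * G p) (ν.prod volume) := by
  obtain ⟨B, hB⟩ := h.bdd
  have hi : Integrable ((closedBall (0 : Fin n → ℂ) s).indicator fun _ => B * C) :=
    (integrable_indicator_iff measurableSet_closedBall).2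
      (integrableOn_const measure_closedBall_lt_top.ne)
  refine (hi.comp_snd ν).mono' ((h.meas.comp measurable_snd).mul hG).aestronglyMeasurable ?_
  filter_upwards [hC] with p hp
  by_cases h0 : ρ p.2 = 0
  · rw [h0, zero_mul, norm_zero]
    by_cases h1 : ‖p.2‖ ≤ s
    · rw [indicator_of_mem (by simpa using h1)]
      exact mul_nonneg ((h.nonneg 0).trans (hB 0)) ((abs_nonneg _).trans (hp h1))
    · rw [indicator_of_notMem (by simpa using h1)]
  · have h1 := h.supp _ h0
    rw [indicator_of_mem (by simpa using h1), norm_mul, Real.norm_of_nonneg (h.nonneg _)]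
    exact mul_le_mul (hB _) (hp h1) (norm_nonneg _) ((h.nonneg 0).trans (hB 0))

lemma Ker.integrable (h : Ker s ρ) {G : (Fin n → ℂ) → ℝ} (hm : Measurable G) (hG : LB G) :
    Integrable fun w => ρ w * G w := by
  obtain ⟨B, hB⟩ := h.bdd
  have := (hG.integrableOn hm 0 s).bdd_mul (c := B) h.meas.aestronglyMeasurable
    (Eventually.of_forall fun w => by rw [Real.norm_of_nonneg (h.nonneg _)]; exact hB w)
  refine (integrableOn_iff_integrable_of_support_subset fun w hw => ?_).1 this
  simpa using h.supp w (left_ne_zero_of_mul hw)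

lemma Ker.integrable' (h : Ker s ρ) : Integrable ρ := by
  simpa using h.integrable (G := fun _ => 1) measurable_const (.of_continuous continuous_const)

lemma Ker.le_integral (h : Ker s ρ) {G : (Fin n → ℂ) → ℝ} (hm : Measurable G) (hG : LB G) {c : ℝ}
    (hc : ∀ w, ρ w ≠ 0 → c ≤ circleAverage (fun ζ : ℂ => G (ζ • w)) 0 1) :
    c * ∫ w, ρ w ≤ ∫ w, ρ w * G w := by
  obtain ⟨h1, h2⟩ := avg_rot (H := fun w => ρ w * G w) (h.meas.mul hm) (h.integrable hm hG)
  rw [← h2, ← integral_const_mul]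
  refine integral_mono (h.integrable'.const_mul c) h1 fun w => ?_
  have : circleAverage (fun ζ : ℂ => ρ (ζ • w) * G (ζ • w)) 0 1 =
      ρ w * circleAverage (fun ζ : ℂ => G (ζ • w)) 0 1 := by
    rw [← smul_eq_mul, ← circleAverage_fun_smul]
    exact circleAverage_congr_sphere fun ζ hζ => by
      simp only [smul_eq_mul]; rw [h.inv ζ w (by simpa using hζ)]
  simp only [this]
  by_cases h0 : ρ w = 0
  · simp [h0]
  · rw [mul_comm]; exact mul_le_mul_of_nonneg_left (hc w h0) (h.nonneg w)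

lemma set_le_integral {Ω : Set (Fin n → ℂ)} (hΩ : MeasurableSet Ω) (hs : Ω ⊆ closedBall 0 s)
    (hinv : ∀ (ζ : ℂ) w, ‖ζ‖ = 1 → (ζ • w ∈ Ω ↔ w ∈ Ω))
    {G : (Fin n → ℂ) → ℝ} (hm : Measurable G) (hG : LB G) {c : ℝ}
    (hc : ∀ w ∈ Ω, c ≤ circleAverage (fun ζ : ℂ => G (ζ • w)) 0 1) :
    c * volume.real Ω ≤ ∫ w in Ω, G w := by
  have hk : Ker s (Ω.indicator fun _ => (1 : ℝ)) :=
    ⟨measurable_const.indicator hΩ, fun w => indicator_nonneg (fun _ _ => zero_le_one) w,
      ⟨1, fun w => indicator_le_self' (fun _ _ => zero_le_one) w⟩,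
      fun w hw => by simpa using hs (mem_of_indicator_ne_zero hw),
      fun ζ w hζ => by
        by_cases hw : w ∈ Ω
        · rw [indicator_of_mem hw, indicator_of_mem ((hinv ζ w hζ).2 hw)]
        · rw [indicator_of_notMem hw, indicator_of_notMem (mt (hinv ζ w hζ).1 hw)]⟩
  have := hk.le_integral hm hG fun w hw => hc w (mem_of_indicator_ne_zero hw)
  rw [integral_indicator hΩ] at this
  simp only [← indicator_mul_left, one_mul] at this
  rw [integral_indicator hΩ] at this
  simpa using this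

lemma integral_ball_translate (G : (Fin n → ℂ) → ℝ) (a : Fin n → ℂ) (r : ℝ) :
    ∫ w in closedBall 0 r, G (a + w) = ∫ y in closedBall a r, G y := by
  rw [← (measurePreserving_add_left volume a).setIntegral_preimage_emb
    (measurableEmbedding_addLeft a) G (closedBall a r)]
  congr 2
  ext w; simp

/-- real functions with the sub mean value property on circles -/
structure SM (v : (Fin n → ℂ) → ℝ) : Prop where
  meas : Measurable v
  lb : LB v
  sub : ∀ a b, v a ≤ circleAverage (fun ζ : ℂ => v (a + ζ • b)) 0 1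

variable {v u : (Fin n → ℂ) → ℝ}

lemma SM.ci (h : SM v) (a b : Fin n → ℂ) : CircleIntegrable (fun ζ : ℂ => v (a + ζ • b)) 0 1 :=
  h.lb.circleIntegrable h.meas a b

lemma SM.le_ball (h : SM v) (a : Fin n → ℂ) (r : ℝ) :
    v a * volume.real (closedBall (0 : Fin n → ℂ) r) ≤ ∫ y in closedBall a r, v y := by
  rw [← integral_ball_translate]
  exact set_le_integral measurableSet_closedBall subset_rfl
    (fun ζ w hζ => by simp [norm_smul, hζ]) (G := fun w => v (a + w)) (h.meas.comp (by fun_prop))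
    (h.lb.comp (by fun_prop)) fun w _ => h.sub a w

lemma SM.const (c : ℝ) : SM (fun _ : Fin n → ℂ => c) :=
  ⟨measurable_const, .of_continuous continuous_const, fun _ _ => by rw [circleAverage_const]⟩

lemma SM.max (h : SM v) (h' : SM u) : SM fun z => max (v z) (u z) := by
  have hm : Measurable fun z => Max.max (v z) (u z) := h.meas.max h'.meas
  have hl : LB fun z => Max.max (v z) (u z) := fun R => by
    obtain ⟨C, hC⟩ := h.lb R
    obtain ⟨C', hC'⟩ := h'.lb R
    exact ⟨Max.max C C', fun z hz =>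
      (abs_max_le_max_abs_abs).trans (max_le_max (hC z hz) (hC' z hz))⟩
  refine ⟨hm, hl, fun a b => max_le ?_ ?_⟩
  · exact (h.sub a b).trans (circleAverage_mono (h.ci a b) (hl.circleIntegrable hm a b)
      fun _ _ => le_max_left _ _)
  · exact (h'.sub a b).trans (circleAverage_mono (h'.ci a b) (hl.circleIntegrable hm a b)
      fun _ _ => le_max_right _ _)

lemma SM.add_const (h : SM v) (c : ℝ) : SM fun z => v z + c := by
  refine ⟨h.meas.add_const c, fun R => ?_, fun a b => ?_⟩
  · obtain ⟨C, hC⟩ := h.lb R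
    exact ⟨C + |c|, fun z hz => (abs_add_le _ _).trans (by linarith [hC z hz])⟩
  · rw [circleAverage_fun_add (h.ci a b) (circleIntegrable_const _ _ _), circleAverage_const]
    linarith [h.sub a b]

lemma SM.const_mul (h : SM v) {c : ℝ} (hc : 0 ≤ c) : SM fun z => c * v z := by
  refine ⟨h.meas.const_mul c, fun R => ?_, fun a b => ?_⟩
  · obtain ⟨C, hC⟩ := h.lb R
    exact ⟨c * C, fun z hz => by
      rw [abs_mul, abs_of_nonneg hc]; exact mul_le_mul_of_nonneg_left (hC z hz) hc⟩
  · have := circleAverage_fun_smul (a := c) (f := fun ζ : ℂ => v (a + ζ • b)) (c := 0) (R := 1)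
    simp only [smul_eq_mul] at this
    rw [this]
    exact mul_le_mul_of_nonneg_left (h.sub a b) hc

lemma sm_posLog (p : MvPolynomial (Fin n) ℂ) : SM fun z => posLog ‖MvPolynomial.eval z p‖ := by
  have hc : Continuous fun z => posLog ‖MvPolynomial.eval z p‖ := by
    have := MvPolynomial.continuous_eval p
    fun_prop
  refine ⟨hc.measurable, .of_continuous hc, fun a b => ?_⟩
  simpa [eval_line] using posLog_submean (line p a b)

lemma sm_sq (p : MvPolynomial (Fin n) ℂ) : SM fun z => ‖MvPolynomial.eval z p‖ ^ 2 := by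
  have hc : Continuous fun z => ‖MvPolynomial.eval z p‖ ^ 2 := by
    have := MvPolynomial.continuous_eval p
    fun_prop
  refine ⟨hc.measurable, .of_continuous hc, fun a b => ?_⟩
  simpa [eval_line] using sq_submean (F := fun ζ => (line p a b).eval ζ) (by fun_prop)

lemma exists_kernel (hs : 0 < s) :
    ∃ ρ : (Fin n → ℂ) → ℝ, Ker s ρ ∧ ContDiff ℝ ∞ ρ ∧ ∫ w, ρ w = 1 := by
  let κ : (Fin n → ℂ) → ℝ := fun w => expNegInvGlue (s ^ 2 - ∑ i, ‖w i‖ ^ 2)
  have hκ : ContDiff ℝ ∞ κ := by
    refine expNegInvGlue.contDiff.comp (contDiff_const.sub (ContDiff.sum fun i _ => ?_))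
    exact (contDiff_norm_sq ℝ).comp (contDiff_apply ℝ ℂ i)
  have hsupp : ∀ w, κ w ≠ 0 → ‖w‖ ≤ s := by
    intro w hw
    rw [pi_norm_le_iff_of_nonneg hs.le]
    intro i
    by_contra hi
    apply hw
    apply expNegInvGlue.zero_of_nonpos
    have h1 : ‖w i‖ ^ 2 ≤ ∑ i, ‖w i‖ ^ 2 :=
      Finset.single_le_sum (f := fun i => ‖w i‖ ^ 2) (fun _ _ => by positivity) (Finset.mem_univ i)
    have h2 : s ^ 2 ≤ ‖w i‖ ^ 2 := pow_le_pow_left₀ hs.le (not_le.1 hi).le 2
    linarith
  have hc : HasCompactSupport κ := HasCompactSupport.intro (isCompact_closedBall 0 s)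
    fun w hw => by by_contra h; exact hw (by simpa using hsupp w h)
  have hpos : 0 < ∫ w, κ w := hκ.continuous.integral_pos_of_hasCompactSupport_nonneg_nonzero hc
    (fun w => expNegInvGlue.nonneg _) (x := 0)
    (expNegInvGlue.pos_of_pos (by simpa using pow_pos hs 2)).ne'
  obtain ⟨B, hB⟩ := hκ.continuous.bounded_above_of_compact_support hc
  refine ⟨fun w => κ w / ∫ w, κ w, ⟨hκ.continuous.measurable.div_const _,
    fun w => div_nonneg (expNegInvGlue.nonneg _) hpos.le, ⟨B / ∫ w, κ w, fun w => ?_⟩,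
    fun w hw => hsupp w fun h => hw (by simp [h]), fun ζ w hζ => ?_⟩, hκ.div_const _, ?_⟩
  · exact div_le_div_of_nonneg_right ((le_abs_self _).trans (hB w)) hpos.le
  · simp [κ, hζ]
  · rw [integral_div, div_self hpos.ne']

/-- mollification -/
noncomputable def mol (ρ v : (Fin n → ℂ) → ℝ) (z : Fin n → ℂ) : ℝ := ∫ w, ρ w * v (z - w)

lemma contDiff_mol (h : Ker s ρ) (hρ : ContDiff ℝ ∞ ρ) (hm : Measurable v) (hv : LB v) :
    ContDiff ℝ ∞ (mol ρ v) := by
  have hc : HasCompactSupport ρ := HasCompactSupport.intro (isCompact_closedBall 0 s)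
    fun w hw => by by_contra h'; exact hw (by simpa using h.supp w h')
  have hl : LocallyIntegrable v := fun x =>
    ⟨closedBall x 1, closedBall_mem_nhds x one_pos, hv.integrableOn hm x 1⟩
  exact hc.contDiff_convolution_left (ContinuousLinearMap.lsmul ℝ ℝ) hρ hl

lemma Ker.integrable_mol (h : Ker s ρ) (hm : Measurable v) (hv : LB v) (z : Fin n → ℂ) :
    Integrable fun w => ρ w * v (z - w) :=
  h.integrable (hm.comp (by fun_prop)) (hv.comp (by fun_prop))

lemma mol_mono (h : Ker s ρ) (hm : Measurable v) (hv : LB v) (hm' : Measurable u) (hu : LB u)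
    {z : Fin n → ℂ} (hle : ∀ w, ‖w‖ ≤ s → v (z - w) ≤ u (z - w)) : mol ρ v z ≤ mol ρ u z := by
  refine integral_mono (h.integrable_mol hm hv z) (h.integrable_mol hm' hu z) fun w => ?_
  by_cases h0 : ρ w = 0
  · simp [h0]
  · exact mul_le_mul_of_nonneg_left (hle w (h.supp w h0)) (h.nonneg w)

lemma mol_const (h1 : ∫ w, ρ w = 1) (c : ℝ) (z : Fin n → ℂ) : mol ρ (fun _ => c) z = c := by
  rw [mol, integral_mul_const, h1, one_mul]

lemma mol_le (h : Ker s ρ) (h1 : ∫ w, ρ w = 1) (hm : Measurable v) (hv : LB v)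
    {z : Fin n → ℂ} {c : ℝ} (hle : ∀ w, ‖w‖ ≤ s → v (z - w) ≤ c) : mol ρ v z ≤ c :=
  (mol_mono h hm hv measurable_const (.of_continuous continuous_const) hle).trans_eq
    (mol_const h1 c z)

lemma SM.le_mol (hv : SM v) (h : Ker s ρ) (h1 : ∫ w, ρ w = 1) (z : Fin n → ℂ) :
    v z ≤ mol ρ v z := by
  have := h.le_integral (G := fun w => v (z - w)) (hv.meas.comp (by fun_prop))
    (hv.lb.comp (by fun_prop)) (c := v z) fun w _ => by
      simpa [sub_eq_add_neg] using hv.sub z (-w)
  rwa [h1, mul_one] at this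

lemma SM.mol (hv : SM v) (h : Ker s ρ) (hρ : ContDiff ℝ ∞ ρ) : SM (mol ρ v) := by
  have hc := (contDiff_mol h hρ hv.meas hv.lb).continuous
  refine ⟨hc.measurable, .of_continuous hc, fun a b => ?_⟩
  obtain ⟨C, hC⟩ := hv.lb (‖a‖ + ‖b‖ + s)
  have hp := h.integrable_prod arc (G := fun p => v (a + circleMap 0 1 p.1 • b - p.2))
    (hv.meas.comp (by fun_prop)) (C := C) (Eventually.of_forall fun p hp => hC _
      ((norm_sub_le _ _).trans (add_le_add ((norm_add_le _ _).trans (by simp [norm_smul])) hp)))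
  rw [avg_eq]
  simp only [Pool.Agent.Lib.MP_a839f6_an.mol]
  rw [integral_integral_swap hp, ← integral_const_mul]
  refine integral_mono (h.integrable_mol hv.meas hv.lb a) (hp.integral_prod_right.const_mul _)
    fun w => ?_
  have := hv.sub (a - w) b
  rw [avg_eq] at this
  simp only [integral_const_mul]
  rw [mul_left_comm]
  refine mul_le_mul_of_nonneg_left ?_ (h.nonneg w)
  simpa only [add_sub_right_comm] using this

lemma integral_mol_le (h : Ker s ρ) (h1 : ∫ w, ρ w = 1) (hm : Measurable v) (hv : LB v)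
    (h0 : ∀ z, 0 ≤ v z) (R : ℝ) :
    ∫ z in closedBall 0 R, mol ρ v z ≤ ∫ z in closedBall 0 (R + s), v z := by
  obtain ⟨C, hC⟩ := hv (R + s)
  have : IsFiniteMeasure (volume.restrict (closedBall (0 : Fin n → ℂ) R)) :=
    isFiniteMeasure_restrict.2 measure_closedBall_lt_top.ne
  have hp := h.integrable_prod (volume.restrict (closedBall (0 : Fin n → ℂ) R))
    (G := fun p => v (p.1 - p.2)) (hm.comp (by fun_prop)) (C := C) (by
      have : ∀ᵐ p ∂((volume.restrict (closedBall (0 : Fin n → ℂ) R)).prod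
          (volume : Measure (Fin n → ℂ))), p.1 ∈ closedBall (0 : Fin n → ℂ) R :=
        Measure.quasiMeasurePreserving_fst.ae (ae_restrict_mem measurableSet_closedBall)
      filter_upwards [this] with p hp hp'
      exact hC _ ((norm_sub_le _ _).trans (add_le_add (by simpa using hp) hp')))
  simp only [mol]
  rw [integral_integral_swap hp, ← one_mul (∫ z in closedBall 0 (R + s), v z), ← h1,
    ← integral_mul_const]
  refine integral_mono hp.integral_prod_right (h.integrable'.mul_const _) fun w => ?_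
  simp only [integral_const_mul]
  by_cases hw : ρ w = 0
  · simp [hw]
  refine mul_le_mul_of_nonneg_left ?_ (h.nonneg w)
  have := integral_ball_translate v (-w) R
  simp only [neg_add_eq_sub] at this
  rw [this]
  refine setIntegral_mono_set (hv.integrableOn hm _ _) (Eventually.of_forall h0)
    (LE.le.eventuallyLE (closedBall_subset_closedBall' ?_))
  simpa using h.supp w hw

end Pool.Agent.Lib.MP_a839f6_an
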