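import Pool.Agent.Lib.MP_a839f6_an.Energy
import Pool.Agent.Lib.MP_a839f6_an.SubMean
import Pool.Agent.Lib.MP_a839f6_an.Gram

namespace Pool.Agent.Lib.MP_a839f6_an

open MeasureTheory Matrix Filter Topology Metric Set Real
open scoped ContDiff ComplexOrder ComplexConjugate

variable {n : ℕ}

lemma ddR_add (v : Fin n → ℂ) (f g : SR n) : ddR v (f + g) = ddR v f + ddR v g := by
  ext z
  change fderiv ℝ (f.1 + g.1) z v = fderiv ℝ f.1 z v + fderiv ℝ g.1 z v
  rw [fderiv_add (SR.diff f z) (SR.diff g z)]; rfl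

lemma ddR_smul (v : Fin n → ℂ) (c : ℝ) (f : SR n) : ddR v (c • f) = c • ddR v f := by
  ext z
  change fderiv ℝ (c • f.1) z v = c • fderiv ℝ f.1 z v
  rw [fderiv_const_smul (SR.diff f z)]; rfl

lemma hess_eq (φ : SR n) (z v w : Fin n → ℂ) : hess φ z v w = (ddR v (ddR w φ)).1 z :=
  (fderiv_fderiv_apply (SR.cd φ) z v w).symm

/-- upper Taylor bound -/
def TayU (φ : SR n) (z : Fin n → ℂ) (δ r : ℝ) : Prop :=
  ∀ w, ‖w‖ ≤ r → φ.1 (z + w) ≤ φ.1 z + (ddR w φ).1 z + hess φ z w w / 2 + δ * ‖w‖ ^ 2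

lemma TayU.conv {x y : SR n} {z : Fin n → ℂ} {δ r : ℝ} (hx : TayU x z δ r) (hy : TayU y z δ r)
    {t : ℝ} (ht : t ∈ Icc (0 : ℝ) 1) : TayU (x + t • (y - x)) z δ r := by
  intro w hw
  have e : x + t • (y - x) = (1 - t) • x + t • y := by module
  have h1 := mul_le_mul_of_nonneg_left (hx w hw) (sub_nonneg.2 ht.2)
  have h2 := mul_le_mul_of_nonneg_left (hy w hw) ht.1
  simp only [e, hess_eq, ddR_add, ddR_smul] at h1 h2 ⊢
  change (1 - t) * x.1 (z + w) + t * y.1 (z + w) ≤ (1 - t) * x.1 z + t * y.1 z +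
    ((1 - t) * (ddR w x).1 z + t * (ddR w y).1 z) +
    ((1 - t) * (ddR w (ddR w x)).1 z + t * (ddR w (ddR w y)).1 z) / 2 + δ * ‖w‖ ^ 2
  linarith

lemma TayU.mono {x : SR n} {z : Fin n → ℂ} {δ r r' : ℝ} (hx : TayU x z δ r) (h : r' ≤ r) :
    TayU x z δ r' := fun w hw => hx w (hw.trans h)

lemma hasDerivAt_line (f : SR n) (z w : Fin n → ℂ) (t : ℝ) :
    HasDerivAt (fun t : ℝ => f.1 (z + t • w)) ((ddR w f).1 (z + t • w)) t := by
  have h1 : HasDerivAt (fun t : ℝ => z + t • w) w t := by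
    simpa using ((hasDerivAt_id t).smul_const w).const_add z
  exact (SR.diff f _).hasFDerivAt.comp_hasDerivAt t h1

lemma exists_tayU (φ : SR n) (R : ℝ) {δ : ℝ} (hδ : 0 < δ) :
    ∃ r, 0 < r ∧ r ≤ 1 ∧ ∀ z, ‖z‖ ≤ R → TayU φ z δ r := by
  have hc : Continuous (fderiv ℝ (fderiv ℝ φ.1)) :=
    ((SR.cd φ).fderiv_right (m := 1) (by norm_cast)).continuous_fderiv one_ne_zero
  have hu : UniformContinuousOn (fderiv ℝ (fderiv ℝ φ.1)) (closedBall 0 (R + 1)) :=
    (isCompact_closedBall (0 : Fin n → ℂ) (R + 1)).uniformContinuousOn_of_continuous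
      hc.continuousOn
  obtain ⟨r, hr, h⟩ := (Metric.uniformContinuousOn_iff_le
    (β := (Fin n → ℂ) →L[ℝ] (Fin n → ℂ) →L[ℝ] ℝ)).1 hu (2 * δ) (by positivity)
  refine ⟨min r 1, lt_min hr one_pos, min_le_right _ _, fun z hz w hw => ?_⟩
  have hw1 : ‖w‖ ≤ r := hw.trans (min_le_left _ _)
  have hw2 : ‖w‖ ≤ 1 := hw.trans (min_le_right _ _)
  have h2 : ∀ t ∈ Icc (0 : ℝ) 1, hess φ (z + t • w) w w ≤ hess φ z w w + 2 * δ * ‖w‖ ^ 2 := by
    intro t ht
    have a0 : ‖t • w‖ ≤ ‖w‖ := by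
      rw [norm_smul, Real.norm_of_nonneg ht.1]; exact mul_le_of_le_one_left (norm_nonneg _) ht.2
    have a1 := h (z + t • w) (by
      simpa using (norm_add_le _ _).trans (add_le_add hz (a0.trans hw2))) z (by
      simpa using hz.trans (by linarith)) (by simpa using a0.trans hw1)
    replace a1 : ‖fderiv ℝ (fderiv ℝ φ.1) (z + t • w) - fderiv ℝ (fderiv ℝ φ.1) z‖ ≤ 2 * δ :=
      (dist_eq_norm (E := (Fin n → ℂ) →L[ℝ] (Fin n → ℂ) →L[ℝ] ℝ) _ _).symm.trans_le a1
    have a2 := (fderiv ℝ (fderiv ℝ φ.1) (z + t • w) - fderiv ℝ (fderiv ℝ φ.1) z).le_opNorm₂ w w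
    have a3 := (le_abs_self _).trans a2
    simp only [_root_.sub_apply] at a3
    have a4 := mul_le_mul_of_nonneg_right a1 (sq_nonneg ‖w‖)
    simp only [hess]
    nlinarith
  have h3 : ∀ t ∈ Icc (0 : ℝ) 1, (ddR w φ).1 (z + t • w) ≤
      (ddR w φ).1 z + t * (hess φ z w w + 2 * δ * ‖w‖ ^ 2) := by
    intro t ht
    have := le_of_deriv_nonpos
      (h := fun t => (ddR w φ).1 (z + t • w) - t * (hess φ z w w + 2 * δ * ‖w‖ ^ 2))
      (fun t => (hasDerivAt_line (ddR w φ) z w t).sub ((hasDerivAt_id t).mul_const _)) ht.1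
      fun s hs => by rw [← hess_eq]; linarith [h2 s ⟨hs.1, hs.2.trans ht.2⟩]
    simp only [zero_smul, add_zero, zero_mul, sub_zero] at this
    linarith
  have := le_of_deriv_nonpos
    (h := fun t => φ.1 (z + t • w) - t * (ddR w φ).1 z -
      t ^ 2 * ((hess φ z w w + 2 * δ * ‖w‖ ^ 2) / 2))
    (fun t => ((hasDerivAt_line φ z w t).sub ((hasDerivAt_id t).mul_const _)).sub
      ((hasDerivAt_pow 2 t).mul_const _)) zero_le_one
    fun s hs => by have := h3 s hs; norm_num; linarith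
  simp only [zero_smul, add_zero, zero_mul, sub_zero, one_smul] at this
  linarith

lemma TayU.circ {φ : SR n} {z : Fin n → ℂ} {δ r : ℝ} (h : TayU φ z δ r) {w : Fin n → ℂ}
    (hw : ‖w‖ ≤ r) : ∃ a b : ℂ, ∀ ζ : ℂ, ‖ζ‖ = 1 → φ.1 (z + ζ • w) ≤ φ.1 z +
      (hess φ z w w + hess φ z (Complex.I • w) (Complex.I • w)) / 4 + δ * ‖w‖ ^ 2 +
        (ζ * a + ζ ^ 2 * b).re := by
  refine ⟨⟨fderiv ℝ φ.1 z w, -fderiv ℝ φ.1 z (Complex.I • w)⟩,
    ⟨(hess φ z w w - hess φ z (Complex.I • w) (Complex.I • w)) / 4,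
      -hess φ z w (Complex.I • w) / 2⟩, fun ζ hζ => ?_⟩
  have h1 := h (ζ • w) (by simpa [norm_smul, hζ] using hw)
  have e : ζ • w = ζ.re • w + ζ.im • (Complex.I • w) := by
    funext i
    simp only [Pi.smul_apply, Pi.add_apply, smul_eq_mul, Complex.real_smul]
    conv_lhs => rw [← Complex.re_add_im ζ]
    ring
  have e1 : (ddR (ζ • w) φ).1 z =
      ζ.re * fderiv ℝ φ.1 z w + ζ.im * fderiv ℝ φ.1 z (Complex.I • w) := by
    change fderiv ℝ φ.1 z (ζ • w) = _
    rw [e, map_add, map_smul, map_smul]; rfl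
  have e2 : hess φ z (ζ • w) (ζ • w) = ζ.re ^ 2 * hess φ z w w +
      2 * ζ.re * ζ.im * hess φ z w (Complex.I • w) +
        ζ.im ^ 2 * hess φ z (Complex.I • w) (Complex.I • w) := by
    have := hess_symm φ z (Complex.I • w) w
    simp only [hess] at this ⊢
    rw [e]
    simp only [map_add, map_smul, _root_.add_apply, _root_.smul_apply, smul_eq_mul, this]
    ring
  have e3 : ζ.re ^ 2 + ζ.im ^ 2 = 1 := by
    have := Complex.sq_norm ζ
    rw [hζ, Complex.normSq_apply] at this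
    linarith
  rw [e1, e2, norm_smul, hζ, one_mul] at h1
  simp only [Complex.add_re, Complex.mul_re, Complex.mul_im, sq]
  refine h1.trans_eq ?_
  linear_combination (hess φ z w w + hess φ z (Complex.I • w) (Complex.I • w)) / 4 * e3

lemma avg_re (a b : ℂ) : circleAverage (fun ζ : ℂ => (ζ * a + ζ ^ 2 * b).re) 0 1 = 0 := by
  have h1 : circleAverage (fun ζ : ℂ => ζ * a + ζ ^ 2 * b) 0 1 = 0 * a + 0 ^ 2 * b :=
    DiffContOnCl.circleAverage (Differentiable.diffContOnCl (by fun_prop))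
  have h2 := Complex.reCLM.circleAverage_comp_comm (f := fun ζ : ℂ => ζ * a + ζ ^ 2 * b)
    (c := 0) (R := 1) (ContinuousOn.circleIntegrable zero_le_one (by fun_prop))
  rw [h1] at h2
  exact h2.trans (by simp)

lemma psd_of_sm {φ : SR n} (h : SM φ.1) (z : Fin n → ℂ) : (lv φ z).PosSemidef := by
  refine lv_psd fun w => le_of_forall_pos_le_add fun ε hε => ?_
  obtain ⟨r, hr, -, hT⟩ := exists_tayU φ ‖z‖ (δ := ε / (4 * (‖w‖ ^ 2 + 1))) (by positivity)
  set t := r / (‖w‖ + 1) with ht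
  have ht0 : 0 < t := by positivity
  have hn : ‖t • w‖ = t * ‖w‖ := by rw [norm_smul, Real.norm_of_nonneg ht0.le]
  obtain ⟨a, b, hab⟩ := (hT z le_rfl).circ (w := t • w) (by
    rw [hn, ht, div_mul_eq_mul_div, div_le_iff₀ (by positivity)]; nlinarith)
  have h1 := (h.sub z (t • w)).trans (circleAverage_mono (h.ci _ _)
    (ContinuousOn.circleIntegrable zero_le_one (by fun_prop)) fun ζ hζ => hab ζ (by simpa using hζ))
  rw [circleAverage_fun_add (circleIntegrable_const _ _ _)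
    (ContinuousOn.circleIntegrable zero_le_one (by fun_prop)), circleAverage_const, avg_re, hn,
    smul_comm] at h1
  simp only [hess, map_smul, _root_.smul_apply, smul_eq_mul] at h1 ⊢
  have h2 : ε / (4 * (‖w‖ ^ 2 + 1)) * ‖w‖ ^ 2 ≤ ε / 4 := by
    rw [div_mul_eq_mul_div, div_le_div_iff₀ (by positivity) (by positivity)]; nlinarith
  refine le_of_mul_le_mul_left ?_ (show 0 < t ^ 2 by positivity)
  nlinarith [mul_le_mul_of_nonneg_left h2 (sq_nonneg t)]

/-- weight -/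
noncomputable def wt (k : ℕ) (φ : (Fin n → ℂ) → ℝ) (z : Fin n → ℂ) : ℝ := exp (-(2 * k * φ z))

@[fun_prop] lemma continuous_wt (k : ℕ) {φ : (Fin n → ℂ) → ℝ} (hφ : Continuous φ) :
    Continuous (wt k φ) := by unfold wt; fun_prop

lemma wt_pos (k : ℕ) (φ : (Fin n → ℂ) → ℝ) (z : Fin n → ℂ) : 0 < wt k φ z := exp_pos _

/-- weighted Gram matrix on a ball -/
noncomputable def gw (R : ℝ) (k : ℕ) (φ : (Fin n → ℂ) → ℝ) : Matrix (Idx n k) (Idx n k) ℂ :=
  gram k (volume.restrict (closedBall 0 R)) (wt k φ)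

/-- volume of a ball -/
noncomputable abbrev vb (n : ℕ) (r : ℝ) : ℝ := volume.real (closedBall (0 : Fin n → ℂ) r)

lemma vb_pos {r : ℝ} (hr : 0 < r) : 0 < vb n r :=
  ENNReal.toReal_pos (measure_closedBall_pos _ _ hr).ne' measure_closedBall_lt_top.ne

variable {R : ℝ} {k : ℕ}

lemma qf_gw {φ : (Fin n → ℂ) → ℝ} (hφ : Continuous φ) (c : Idx n k → ℂ) :
    qf (gw R k φ) c = ∫ z in closedBall 0 R, wt k φ z * ‖c ⬝ᵥ mono k z‖ ^ 2 :=
  qf_gram (ci_ball R) (continuous_wt k hφ) c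

@[fun_prop] lemma continuous_dot_mono (c : Idx n k → ℂ) : Continuous fun z => c ⬝ᵥ mono k z :=
  Continuous.dotProduct continuous_const continuous_mono

lemma integral_ball_le {φ : (Fin n → ℂ) → ℝ} (hφ : Continuous φ) (c : Idx n k → ℂ)
    {y : Fin n → ℂ} {r : ℝ} (h : ‖y‖ + r ≤ R) :
    ∫ z in closedBall y r, wt k φ z * ‖c ⬝ᵥ mono k z‖ ^ 2 ≤ qf (gw R k φ) c := by
  rw [qf_gw hφ]
  refine setIntegral_mono_set (intOn (by fun_prop) _ _)
    (Eventually.of_forall fun z => mul_nonneg (wt_pos _ _ _).le (sq_nonneg _))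
    (LE.le.eventuallyLE (closedBall_subset_closedBall' (by simpa [add_comm] using h)))

lemma sup_le_L2 {φ : (Fin n → ℂ) → ℝ} (hφ : Continuous φ) (c : Idx n k → ℂ) {y : Fin n → ℂ}
    {r κ : ℝ} (h : ‖y‖ + r ≤ R) (hκ : ∀ z ∈ closedBall y r, φ z ≤ κ) :
    ‖c ⬝ᵥ mono k y‖ ^ 2 * vb n r ≤ exp (2 * k * κ) * qf (gw R k φ) c := by
  have h1 := (sm_sq (polyOf c)).le_ball y r
  simp only [eval_polyOf] at h1
  refine h1.trans (le_trans ?_ (mul_le_mul_of_nonneg_left (integral_ball_le hφ c h) (exp_pos _).le))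
  rw [← integral_const_mul]
  refine setIntegral_mono_on (intOn (by fun_prop) _ _) (intOn (by fun_prop) _ _)
    measurableSet_closedBall fun z hz => ?_
  rw [← mul_assoc, wt, ← exp_add]
  refine le_mul_of_one_le_left (sq_nonneg _) (one_le_exp ?_)
  nlinarith [hκ z hz, mul_le_mul_of_nonneg_left (hκ z hz) (Nat.cast_nonneg (α := ℝ) k)]

lemma eq_zero_of_ball {c : Idx n k → ℂ} {a : Fin n → ℂ} {r : ℝ} (hr : 0 < r)
    (h : ∀ y, ‖y - a‖ ≤ r → c ⬝ᵥ mono k y = 0) : c = 0 := by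
  have h1 := coef_bound c (T := 0) fun z _ => by
    have := bernstein (polyOf c) (totalDegree_polyOf c) a z hr (T := 0) fun y hy => by
      rw [eval_polyOf, h y hy, norm_zero]
    rwa [eval_polyOf, mul_zero] at this
  funext α
  have := Finset.single_le_sum (f := fun α => ‖c α‖ ^ 2) (fun _ _ => sq_nonneg _)
    (Finset.mem_univ α)
  have h2 : ‖c α‖ ^ 2 = 0 := le_antisymm (by simpa using this.trans h1) (sq_nonneg _)
  simpa using h2

lemma gw_pd {φ : (Fin n → ℂ) → ℝ} (hφ : Continuous φ) (hR : 0 < R) : (gw R k φ).PosDef := by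
  refine gram_pd (ci_ball R) (continuous_wt k hφ) fun c hc => ?_
  by_contra h
  obtain ⟨C, hC⟩ := LB.of_continuous hφ R
  refine hc (eq_zero_of_ball (a := 0) (half_pos hR) fun y hy => ?_)
  rw [sub_zero] at hy
  have h1 := sup_le_L2 (R := R) hφ c (y := y) (r := R / 2) (κ := C) (by linarith) fun z hz =>
    (le_abs_self _).trans (hC z ((norm_le_norm_add_const_of_dist_le hz).trans (by linarith)))
  have h2 := h1.trans (mul_nonpos_of_nonneg_of_nonpos (exp_pos _).le (not_lt.1 h))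
  have h3 : ‖c ⬝ᵥ mono k y‖ ^ 2 ≤ 0 := nonpos_of_mul_nonpos_left h2 (vb_pos (half_pos hR))
  simpa using le_antisymm h3 (sq_nonneg _)

lemma vol_ellipsoid (T : Matrix (Fin n) (Fin n) ℂ) (hT : T.det ≠ 0) (hk : 0 < k) :
    volume.real {w : Fin n → ℂ | ‖T *ᵥ w‖ ≤ (√k)⁻¹} * (‖T.det‖ ^ 2 * k ^ n) = vb n 1 := by
  have hk' : (0 : ℝ) < k := by exact_mod_cast hk
  have hd : LinearMap.det ((Matrix.toLin' T).restrictScalars ℝ) = ‖T.det‖ ^ 2 := by
    rw [LinearMap.det_restrictScalars, LinearMap.det_toLin', Algebra.norm_complex_apply,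
      Complex.normSq_eq_norm_sq]
  have h0 : 0 < ‖T.det‖ := norm_pos_iff.2 hT
  have := Measure.addHaar_preimage_linearMap volume (f := (Matrix.toLin' T).restrictScalars ℝ)
    (by rw [hd]; positivity) (closedBall 0 (√k)⁻¹)
  have e : {w : Fin n → ℂ | ‖T *ᵥ w‖ ≤ (√k)⁻¹} =
      (Matrix.toLin' T).restrictScalars ℝ ⁻¹' closedBall 0 (√k)⁻¹ := by
    ext w; simp
  rw [e, measureReal_def, this, ENNReal.toReal_mul, ENNReal.toReal_ofReal (abs_nonneg _), hd,
    ← measureReal_def, Measure.addHaar_real_closedBall' _ _ (by positivity),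
    abs_of_pos (by positivity)]
  have hf : Module.finrank ℝ (Fin n → ℂ) = 2 * n := by
    rw [Module.finrank_pi_fintype]; simp [mul_comm]
  rw [hf, pow_mul, inv_pow, sq_sqrt hk'.le, inv_pow]
  field_simp

lemma morse {φ : SR n} {z : Fin n → ℂ} {δ r : ℝ} (hδ : 0 < δ) (hT : TayU φ z δ r) (hr : 0 < r)
    (hp : (lv φ z).PosSemidef) (hk : 0 < k) (hkr : (n : ℝ) ≤ k * (4 * δ * r ^ 2))
    (hz : ‖z‖ + r ≤ R) : wt k φ.1 z * berg (gw R k φ.1) (mono k z) ≤
      exp (n / 2) / vb n 1 * k ^ n * (lv φ z + (4 * δ) • (1 : Matrix _ _ ℂ)).det.re := by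
  have hk' : (0 : ℝ) < k := by exact_mod_cast hk
  have hA : (lv φ z + (4 * δ) • (1 : Matrix _ _ ℂ)).PosDef :=
    PosDef.posSemidef_add hp (PosDef.one.smul (by positivity))
  set A := lv φ z + (4 * δ) • (1 : Matrix _ _ ℂ) with hAdef
  obtain ⟨T, hT'⟩ := exists_conj hA.transpose.posSemidef
  have hdet : A.det.re = ‖T.det‖ ^ 2 := by
    rw [← det_transpose, hT', det_conj, Complex.ofReal_re]
  have hT0 : T.det ≠ 0 := by
    have := det_re_pos hA
    rw [hdet] at this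
    intro h; simp [h] at this
  have hq : ∀ w, hess φ z w w + hess φ z (Complex.I • w) (Complex.I • w) +
      4 * δ * ∑ i, ‖w i‖ ^ 2 = ∑ i, ‖(T *ᵥ w) i‖ ^ 2 := by
    intro w
    have h1 := qf_lv φ z (star w)
    rw [star_star] at h1
    have h2 : qf Aᵀ w = qf A (star w) := by
      rw [qf, qf, star_star, mulVec_transpose, dotProduct_comm, ← dotProduct_mulVec]
    have h3 : qf A (star w) = qf (lv φ z) (star w) + 4 * δ * qf 1 (star w) := by
      simp only [qf, hAdef, add_mulVec, dotProduct_add, Complex.add_re, smul_mulVec,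
        dotProduct_smul, Complex.smul_re, smul_eq_mul]
    rw [← h1, ← qf_one, ← qf_one, ← qf_conj, Matrix.mul_one, ← hT', h2, h3, qf_one, qf_one]
    simp
  set Ω := {w : Fin n → ℂ | ‖T *ᵥ w‖ ≤ (√k)⁻¹} with hΩ
  have hΩ1 : ∀ w ∈ Ω, hess φ z w w + hess φ z (Complex.I • w) (Complex.I • w) +
      4 * δ * ‖w‖ ^ 2 ≤ n / k ∧ ‖w‖ ≤ r := by
    intro w hw
    have a1 : ∑ i, ‖(T *ᵥ w) i‖ ^ 2 ≤ n / k := by
      have : ∀ i, ‖(T *ᵥ w) i‖ ^ 2 ≤ (k : ℝ)⁻¹ := fun i => by
        have := pow_le_pow_left₀ (norm_nonneg _) ((norm_le_pi_norm _ i).trans hw) 2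
        rwa [inv_pow, sq_sqrt hk'.le] at this
      simpa [div_eq_mul_inv] using Finset.sum_le_sum fun i (_ : i ∈ Finset.univ) => this i
    have a2 : ‖w‖ ^ 2 ≤ ∑ i, ‖w i‖ ^ 2 := by
      rw [← Real.le_sqrt (norm_nonneg _) (by positivity), pi_norm_le_iff_of_nonneg (by positivity)]
      exact fun i => Real.le_sqrt_of_sq_le (Finset.single_le_sum (f := fun i => ‖w i‖ ^ 2)
        (fun _ _ => sq_nonneg _) (Finset.mem_univ i))
    have a3 : 0 ≤ hess φ z w w + hess φ z (Complex.I • w) (Complex.I • w) := by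
      have := qf_nonneg hp (star w)
      rwa [qf_lv, star_star] at this
    have a4 := mul_le_mul_of_nonneg_left a2 (show 0 ≤ 4 * δ by positivity)
    refine ⟨by linarith [hq w], ?_⟩
    have a5 : 4 * δ * ‖w‖ ^ 2 ≤ 4 * δ * r ^ 2 := by
      rw [← div_le_iff₀' hk'] at hkr
      linarith [hq w]
    exact (abs_le_of_sq_le_sq' (le_of_mul_le_mul_left a5 (by positivity)) hr.le).2
  have hR : 0 < R := by linarith [norm_nonneg z]
  have hG := gw_pd (k := k) (SR.cont φ) hR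
  have hvb := vb_pos (n := n) one_pos
  rw [← le_div_iff₀' (wt_pos _ _ _)]
  refine berg_le hG _ (div_nonneg (mul_nonneg (by positivity) (det_re_pos hA).le)
    (wt_pos _ _ _).le) fun c => ?_
  have hc : Continuous fun w => wt k φ.1 (z + w) * ‖c ⬝ᵥ mono k (z + w)‖ ^ 2 :=
    ((continuous_wt k (SR.cont φ)).mul ((continuous_dot_mono c).norm.pow 2)).comp
      (continuous_const.add continuous_id)
  have hΩm : MeasurableSet Ω := (isClosed_le (Continuous.matrix_mulVec continuous_const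
    continuous_id).norm continuous_const).measurableSet
  have hΩs : Ω ⊆ closedBall 0 r := fun w hw => by simpa using (hΩ1 w hw).2
  have key := set_le_integral hΩm hΩs (fun ζ w hζ => by
      simp only [hΩ, mem_ofPred_eq, mulVec_smul, norm_smul, hζ, one_mul])
    hc.measurable (.of_continuous hc)
    (c := exp (-(n / 2)) * (wt k φ.1 z * ‖c ⬝ᵥ mono k z‖ ^ 2)) fun w hw => by
      obtain ⟨a, b, hab⟩ := hT.circ (hΩ1 w hw).2
      have b1 := sq_submean (F := fun ζ => (line (polyOf c) z w).eval ζ *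
        Complex.exp (-(k * (ζ * a + ζ ^ 2 * b)))) (by fun_prop)
      simp only [eval_line, eval_polyOf, zero_smul, add_zero, zero_mul, ne_eq, OfNat.ofNat_ne_zero,
        not_false_eq_true, zero_pow, mul_zero, neg_zero, Complex.exp_zero, mul_one] at b1
      rw [← mul_assoc]
      refine (mul_le_mul_of_nonneg_left b1 (mul_pos (exp_pos _) (wt_pos _ _ _)).le).trans ?_
      rw [← smul_eq_mul, ← circleAverage_fun_smul]
      refine circleAverage_mono (ContinuousOn.circleIntegrable zero_le_one (by fun_prop))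
        (ContinuousOn.circleIntegrable zero_le_one
          (hc.comp (continuous_id.smul continuous_const)).continuousOn) fun ζ hζ => ?_
      rw [smul_eq_mul, norm_mul, mul_pow, Complex.norm_exp, ← exp_nat_mul, mul_comm (_ ^ 2),
        ← mul_assoc, wt, wt, ← exp_add, ← exp_add]
      refine mul_le_mul_of_nonneg_right (exp_le_exp.2 ?_) (sq_nonneg _)
      have b2 := mul_le_mul_of_nonneg_left (hab ζ (by simpa using hζ)) hk'.le
      have b3 := (hΩ1 w hw).1
      rw [le_div_iff₀ hk'] at b3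
      rw [Complex.neg_re, ← Complex.ofReal_natCast, Complex.re_ofReal_mul]
      push_cast
      nlinarith
  have k2 : ∫ w in Ω, wt k φ.1 (z + w) * ‖c ⬝ᵥ mono k (z + w)‖ ^ 2 ≤ qf (gw R k φ.1) c := by
    refine le_trans ?_ (integral_ball_le (SR.cont φ) c hz)
    rw [← integral_ball_translate]
    exact setIntegral_mono_set (intOn hc _ _)
      (Eventually.of_forall fun z => mul_nonneg (wt_pos _ _ _).le (sq_nonneg _))
      (LE.le.eventuallyLE hΩs)
  have k3 := mul_le_mul_of_nonneg_right (key.trans k2) (show 0 ≤ ‖T.det‖ ^ 2 * k ^ n by positivity)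
  rw [mul_assoc, vol_ellipsoid T hT0 hk, Real.exp_neg] at k3
  have hw := wt_pos k φ.1 z
  have he := exp_pos ((n : ℝ) / 2)
  rw [hdet, div_mul_eq_mul_div, le_div_iff₀ hw]
  refine le_of_mul_le_mul_left ?_ (show 0 < (exp (n / 2))⁻¹ * vb n 1 by positivity)
  refine (le_of_eq (by ring)).trans (k3.trans_eq ?_)
  field_simp

end Pool.Agent.Lib.MP_a839f6_an
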