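import Pool.Agent.Lib.MP_a839f6_an.Chain

namespace Pool.Agent.Lib.MP_a839f6_an

open MeasureTheory Matrix Filter Topology Metric Set Real
open scoped ContDiff ComplexOrder ComplexConjugate

variable {n : ℕ}

/-- coordinate function -/
noncomputable def zc (i : Fin n) : Sm n :=
  ⟨fun z => z i, show ContDiff ℝ ∞ _ from contDiff_apply ℝ ℂ i⟩

/-- conjugate coordinate function -/
noncomputable def zb (i : Fin n) : Sm n :=
  ⟨fun z => conj (z i), show ContDiff ℝ ∞ _ from Complex.conjCLE.contDiff.comp (contDiff_apply ℝ ℂ i)⟩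

lemma dd_zc (v : Fin n → ℂ) (i : Fin n) : dd v (zc i) = v i • 1 := by
  ext z
  change fderiv ℝ (ContinuousLinearMap.proj (R := ℝ) (φ := fun _ : Fin n => ℂ) i) z v = v i * 1
  rw [ContinuousLinearMap.fderiv, mul_one]; rfl

lemma dd_zb (v : Fin n → ℂ) (i : Fin n) : dd v (zb i) = conj (v i) • 1 := by
  ext z
  change fderiv ℝ ((Complex.conjCLE : ℂ →L[ℝ] ℂ).comp
    (ContinuousLinearMap.proj (R := ℝ) (φ := fun _ : Fin n => ℂ) i)) z v = conj (v i) * 1
  rw [ContinuousLinearMap.fderiv, mul_one]; rfl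

/-- squared modulus of a coordinate -/
noncomputable def nsq (i : Fin n) : SR n :=
  ⟨fun z => ‖z i‖ ^ 2, show ContDiff ℝ ∞ _ from (contDiff_norm_sq ℝ).comp (contDiff_apply ℝ ℂ i)⟩

lemma Dw_nsq (w : Fin n → ℂ) (i : Fin n) : Dw w (cx (nsq i)) = (2 * w i) • zb i := by
  have e : cx (nsq i) = zc i * zb i := by
    ext z
    change ((‖z i‖ ^ 2 : ℝ) : ℂ) = z i * conj (z i)
    rw [Complex.mul_conj']; push_cast; rfl
  have h1 : Dw w (zc i) = (2 * w i) • 1 := by
    simp only [Dw, Derivation.sub_apply, Derivation.smul_apply, dd_zc, smul_smul, ← sub_smul,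
      Pi.smul_apply, smul_eq_mul]
    congr 1
    linear_combination (-w i) * Complex.I_mul_I
  have h2 : Dw w (zb i) = 0 := by
    simp only [Dw, Derivation.sub_apply, Derivation.smul_apply, dd_zb, smul_smul, ← sub_smul,
      Pi.smul_apply, smul_eq_mul, map_mul, Complex.conj_I]
    rw [show conj (w i) - Complex.I * (-Complex.I * conj (w i)) = 0 by
      linear_combination (conj (w i)) * Complex.I_mul_I, zero_smul]
  rw [e, Derivation.leibniz, h1, h2, smul_zero, zero_add, smul_eq_mul, mul_smul_comm, mul_one]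

lemma Dbw_zb (w : Fin n → ℂ) (i : Fin n) : Dbw w (zb i) = (2 * conj (w i)) • 1 := by
  simp only [Dbw, Derivation.add_apply, Derivation.smul_apply, dd_zb, smul_smul, ← add_smul,
    Pi.smul_apply, smul_eq_mul, map_mul, Complex.conj_I]
  congr 1
  linear_combination (-conj (w i)) * Complex.I_mul_I

/-- profile of the reference function -/
noncomputable def pf (s : ℝ) : ℝ := log (1 + s ^ 2) / 2

lemma contDiff_pf : ContDiff ℝ ∞ pf :=
  (ContDiff.log (by fun_prop) fun s => by positivity).div_const 2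

lemma deriv_pf : deriv pf = fun s => s / (1 + s ^ 2) := by
  funext s
  have := (((hasDerivAt_pow 2 s).const_add 1).log (by positivity)).div_const 2
  refine this.deriv.trans ?_
  norm_num; field_simp

lemma deriv_deriv_pf (s : ℝ) : deriv (deriv pf) s = (1 - s ^ 2) / (1 + s ^ 2) ^ 2 := by
  rw [deriv_pf]
  have := (hasDerivAt_id s).div ((hasDerivAt_pow 2 s).const_add 1) (by positivity)
  refine this.deriv.trans ?_
  norm_num; ring

/-- reference function -/
noncomputable def gg (n : ℕ) : SR n := ∑ i, cmp pf contDiff_pf (nsq i)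

lemma gg_apply (z : Fin n → ℂ) : (gg n).1 z = ∑ i, pf (‖z i‖ ^ 2) := by
  rw [gg, AddSubmonoidClass.coe_finsetSum, Finset.sum_apply]; rfl

lemma lv_gg (z : Fin n → ℂ) : lv (gg n) z =
    diagonal fun i => ((8 * ‖z i‖ ^ 2 / (1 + (‖z i‖ ^ 2) ^ 2) ^ 2 : ℝ) : ℂ) := by
  have : lv (gg n) z = ∑ i, lv (cmp pf contDiff_pf (nsq i)) z := by simp only [lv, gg, map_sum]
  rw [this, ← sum_single_eq_diagonal]
  refine Finset.sum_congr rfl fun i _ => ?_
  rw [lv_cmp, deriv_deriv_pf, deriv_pf]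
  ext a b
  simp only [Matrix.add_apply, Matrix.smul_apply, vecMulVec_apply, lv_apply, gr, Dw_nsq,
    Derivation.map_smul, Dbw_zb, Pi.star_apply, Complex.real_smul]
  change ((‖z i‖ ^ 2 / (1 + (‖z i‖ ^ 2) ^ 2) : ℝ) : ℂ) * (2 * bv a i * (2 * conj (bv b i) * 1)) +
    (((1 - (‖z i‖ ^ 2) ^ 2) / (1 + (‖z i‖ ^ 2) ^ 2) ^ 2 : ℝ) : ℂ) *
      (2 * bv a i * conj (z i) * conj (2 * bv b i * conj (z i))) = _
  by_cases ha : i = a
  · by_cases hb : i = b
    · subst ha hb
      simp only [Pi.single_eq_same, map_one, mul_one, map_mul, Complex.conj_conj, single_apply_same,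
        Complex.conj_ofNat]
      rw [show 2 * conj (z i) * (2 * z i) = 4 * (z i * conj (z i)) by ring, Complex.mul_conj']
      have : (0 : ℝ) < 1 + (‖z i‖ ^ 2) ^ 2 := by positivity
      norm_cast
      field_simp
      ring
    · simp [hb]
  · simp [ha]

lemma psd_gg (z : Fin n → ℂ) : (lv (gg n) z).PosSemidef := by
  rw [lv_gg]
  exact PosSemidef.diagonal fun i => by
    simp only [Pi.zero_apply]
    exact_mod_cast (by positivity)

/-- integrable majorant -/
noncomputable def JJ (z : Fin n → ℂ) : ℝ := ∏ i, (1 + (‖z i‖ ^ 2) ^ 2)⁻¹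

lemma integrable_JJ : Integrable (JJ (n := n)) := by
  have h : Integrable fun x : ℂ => (1 + (‖x‖ ^ 2) ^ 2)⁻¹ := by
    refine ((integrable_rpow_neg_one_add_norm_sq (E := ℂ) (μ := volume) (r := 4)
      (by simp; norm_num)).const_mul 2).mono' (Measurable.aestronglyMeasurable (by fun_prop))
      (Eventually.of_forall fun x => ?_)
    rw [Real.norm_of_nonneg (by positivity), show (-4 / 2 : ℝ) = -(2 : ℕ) by norm_num,
      rpow_neg (by positivity), rpow_natCast, ← div_eq_mul_inv, inv_eq_one_div,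
      div_le_div_iff₀ (by positivity) (by positivity)]
    nlinarith [sq_nonneg (‖x‖ ^ 2 - 1)]
  exact Integrable.fintype_prod (f := fun _ (x : ℂ) => (1 + (‖x‖ ^ 2) ^ 2)⁻¹) fun _ => h

lemma JJ_nonneg (z : Fin n → ℂ) : 0 ≤ JJ z := Finset.prod_nonneg fun _ _ => by positivity

lemma JJ_le_one (z : Fin n → ℂ) : JJ z ≤ 1 :=
  Finset.prod_le_one (fun _ _ => by positivity) fun _ _ =>
    inv_le_one_of_one_le₀ (le_add_of_nonneg_right (by positivity))

lemma det_gg_le (z : Fin n → ℂ) : (lv (gg n) z).det.re ≤ 4 ^ n * JJ z := by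
  rw [lv_gg, det_diagonal, ← Complex.ofReal_prod, Complex.ofReal_re, JJ, ← Fin.prod_const,
    ← Finset.prod_mul_distrib]
  refine Finset.prod_le_prod (fun _ _ => by positivity) fun i _ => ?_
  rw [← div_eq_mul_inv, div_le_div_iff₀ (by positivity) (by positivity)]
  nlinarith [sq_nonneg (‖z i‖ ^ 2 - 1), mul_nonneg (sq_nonneg (‖z i‖ ^ 2 - 1))
    (show 0 ≤ 1 + (‖z i‖ ^ 2) ^ 2 by positivity)]

lemma integrable_det_gg : Integrable fun z : Fin n → ℂ => (lv (gg n) z).det.re :=
  (integrable_JJ.const_mul (4 ^ n)).mono' (continuous_det_lv _).aestronglyMeasurable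
    (Eventually.of_forall fun z => by
      rw [Real.norm_of_nonneg (det_re_nonneg (psd_gg z))]; exact det_gg_le z)

lemma pf_nonneg (s : ℝ) : 0 ≤ pf s :=
  div_nonneg (log_nonneg (le_add_of_nonneg_right (by positivity))) zero_le_two

lemma gg_nonneg (z : Fin n → ℂ) : 0 ≤ (gg n).1 z := by
  rw [gg_apply]; exact Finset.sum_nonneg fun _ _ => pf_nonneg _

lemma norm_le_exp_gg (z : Fin n → ℂ) : ‖z‖ ≤ exp ((gg n).1 z / 2) := by
  rw [pi_norm_le_iff_of_nonneg (exp_pos _).le]
  intro i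
  have h1 : pf (‖z i‖ ^ 2) ≤ (gg n).1 z := by
    rw [gg_apply]
    exact Finset.single_le_sum (f := fun i => pf (‖z i‖ ^ 2)) (fun _ _ => pf_nonneg _)
      (Finset.mem_univ i)
  refine le_of_pow_le_pow_left₀ (n := 4) (by norm_num) (exp_pos _).le ?_
  have h2 : log (1 + (‖z i‖ ^ 2) ^ 2) ≤ 4 * ((gg n).1 z / 2) := by
    simp only [pf] at h1
    linarith
  rw [log_le_iff_le_exp (by positivity)] at h2
  rw [← exp_nat_mul]
  push_cast
  nlinarith

lemma posLog_le_gg (z : Fin n → ℂ) : posLog ‖z‖ ≤ (gg n).1 z / 2 := by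
  refine (posLog_le_posLog (norm_nonneg _) (norm_le_exp_gg z)).trans ?_
  rw [posLog_apply, log_exp]
  exact max_le (by linarith [gg_nonneg z]) le_rfl

lemma le_gg {a : ℝ} {z : Fin n → ℂ} (h : exp a ≤ ‖z‖) : a ≤ (gg n).1 z / 2 :=
  exp_le_exp.1 (h.trans (norm_le_exp_gg z))

lemma wt_mono_le {k : ℕ} (hk : 2 ≤ k) (α : Idx n k) (z : Fin n → ℂ) :
    wt k (gg n).1 z * ‖mono k z α‖ ^ 2 ≤ JJ z := by
  rw [wt, gg_apply, Finset.mul_sum, ← Finset.sum_neg_distrib, Real.exp_sum, mono, norm_prod,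
    ← Finset.prod_pow, ← Finset.prod_mul_distrib, JJ]
  refine Finset.prod_le_prod (fun _ _ => by positivity) fun i _ => ?_
  set s := ‖z i‖ ^ 2 with hs
  have hs0 : 0 ≤ s := by positivity
  have h1 : (1 : ℝ) ≤ 1 + s ^ 2 := le_add_of_nonneg_right (by positivity)
  have e : exp (-(2 * k * pf s)) = ((1 + s ^ 2) ^ k)⁻¹ := by
    rw [Real.exp_neg, pf, show 2 * k * (log (1 + s ^ 2) / 2) = k * log (1 + s ^ 2) by ring,
      exp_nat_mul, exp_log (by positivity)]
  rw [e, norm_pow, pow_right_comm ‖z i‖ (α.1 i : ℕ) 2, ← hs, inv_mul_le_iff₀ (by positivity),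
    ← div_eq_mul_inv, le_div_iff₀ (by positivity)]
  refine le_of_pow_le_pow_left₀ two_ne_zero (by positivity) ?_
  have h2 : (s ^ 2) ^ (α.1 i : ℕ) ≤ (1 + s ^ 2) ^ k :=
    (pow_le_pow_left₀ (by positivity) (by linarith) _).trans
      (pow_le_pow_right₀ h1 (Nat.le_of_lt_succ (α.1 i).2))
  have h3 : (1 + s ^ 2) ^ 2 ≤ (1 + s ^ 2) ^ k := pow_le_pow_right₀ h1 hk
  rw [mul_pow, pow_right_comm s, sq ((1 + s ^ 2) ^ k)]
  exact mul_le_mul h2 h3 (by positivity) (by positivity)

lemma det_gw_gg {k : ℕ} (hk : 2 ≤ k) (R C : ℝ) :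
    (gw R k fun z => (gg n).1 z - C).det.re ≤
      (exp (2 * k * C) * ((∫ z : Fin n → ℂ, JJ z) + 1)) ^ NN n k := by
  have hJ : 0 ≤ ∫ z : Fin n → ℂ, JJ z := integral_nonneg JJ_nonneg
  have hc : Continuous (wt k fun z => (gg n).1 z - C) := continuous_wt k (by fun_prop)
  have := det_le_of_trace (G₁ := gw R k fun z => (gg n).1 z - C) (G₂ := 1)
    (gram_psd (ci_ball R) hc fun z => (wt_pos _ _ _).le) PosDef.one
    (c := exp (2 * k * C) * ((∫ z : Fin n → ℂ, JJ z) + 1)) (by positivity) (by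
      rw [inv_one, Matrix.one_mul, Matrix.trace, Complex.re_sum, mul_comm, ← nsmul_eq_mul,
        ← Finset.card_univ, ← Finset.sum_const]
      refine Finset.sum_le_sum fun α _ => ?_
      have h1 := qf_gw (R := R) (φ := fun z => (gg n).1 z - C) (by fun_prop) (Pi.single α 1)
      simp only [qf, mulVec_single_one, Pi.star_single, star_one, single_one_dotProduct] at h1
      rw [diag_apply]
      refine h1.le.trans (le_trans ?_ (mul_le_mul_of_nonneg_left
        ((setIntegral_le_integral (s := closedBall 0 R) integrable_JJ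
          (Eventually.of_forall JJ_nonneg)).trans (le_add_of_nonneg_right zero_le_one))
        (exp_pos _).le))
      rw [← integral_const_mul]
      refine setIntegral_mono_on (intOn (by fun_prop) _ _)
        (integrable_JJ.const_mul _).integrableOn measurableSet_closedBall fun z _ => ?_
      have e : wt k (fun z => (gg n).1 z - C) z = exp (2 * k * C) * wt k (gg n).1 z := by
        rw [wt, wt, ← Real.exp_add]; congr 1; ring
      rw [e, mul_assoc]
      exact mul_le_mul_of_nonneg_left (wt_mono_le hk α z) (exp_pos _).le)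
  simpa using this

/-- regularised positive part -/
structure Glue (m : ℝ → ℝ) (c : ℝ) : Prop where
  cd : ContDiff ℝ ∞ m
  d0 : ∀ x, 0 ≤ deriv m x
  d1 : ∀ x, deriv m x ≤ 1
  d2 : ∀ x, 0 ≤ deriv (deriv m) x
  zero : ∀ x ≤ 0, m x = 0
  ge : ∀ x, x - c ≤ m x
  eq : ∀ x, 1 ≤ x → m x = x - c
  c1 : c ≤ 1
  mono : Monotone m
  lip : ∀ x y, x ≤ y → m y - m x ≤ y - x

lemma exists_glue : ∃ m c, Glue m c := by
  let m : ℝ → ℝ := fun x => ∫ t in (0 : ℝ)..x, smoothTransition t
  have hd : ∀ x, HasDerivAt m (smoothTransition x) x := fun x =>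
    (smoothTransition.continuous.integral_hasStrictDerivAt 0 x).hasDerivAt
  have hd' : deriv m = smoothTransition := funext fun x => (hd x).deriv
  have hdiff : Differentiable ℝ m := fun x => (hd x).differentiableAt
  have hmono : Monotone m := monotone_of_deriv_nonneg hdiff fun x => by
    rw [hd']; exact smoothTransition.nonneg x
  have hanti : Antitone fun x => m x - x := antitone_of_deriv_nonpos (hdiff.sub differentiable_id)
    fun x => by
      rw [((hd x).fun_sub (hasDerivAt_id' x)).deriv]; linarith [smoothTransition.le_one x]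
  have h0 : m 0 = 0 := by simp [m]
  have heq : ∀ x, 1 ≤ x → m x = x - (1 - m 1) := fun x hx => by
    have h1 := intervalIntegral.integral_add_adjacent_intervals (μ := volume)
      (smoothTransition.continuous.intervalIntegrable 0 1)
      (smoothTransition.continuous.intervalIntegrable 1 x)
    have h2 : ∫ t in (1 : ℝ)..x, smoothTransition t = ∫ t in (1 : ℝ)..x, (1 : ℝ) :=
      intervalIntegral.integral_congr fun t ht => by
        rw [uIcc_of_le hx] at ht; exact smoothTransition.one_of_one_le ht.1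
    simp only [h2, intervalIntegral.integral_const, smul_eq_mul, mul_one] at h1
    simp only [m]
    linarith
  refine ⟨m, 1 - m 1, contDiff_infty_iff_deriv.2 ⟨hdiff, hd' ▸ smoothTransition.contDiff⟩,
    fun x => hmono.deriv_nonneg, fun x => hd' ▸ smoothTransition.le_one x,
    fun x => hd' ▸ smoothTransition.monotone.deriv_nonneg, fun x hx => ?_, fun x => ?_, heq,
    by linarith [hmono zero_le_one], hmono, fun x y h => by linarith [hanti h]⟩
  · have : m x = ∫ t in (0 : ℝ)..x, (0 : ℝ) := intervalIntegral.integral_congr fun t ht => by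
      rw [uIcc_of_ge hx] at ht; exact smoothTransition.zero_of_nonpos ht.2
    simpa using this
  · rcases le_total 1 x with h | h
    · exact (heq x h).ge
    · linarith [hanti h]

variable {m : ℝ → ℝ} {c : ℝ}

lemma Glue.nonneg (h : Glue m c) (x : ℝ) : 0 ≤ m x := by
  rcases le_total 0 x with hx | hx
  · exact (h.zero 0 le_rfl).ge.trans (h.mono hx)
  · exact (h.zero x hx).ge

lemma Glue.le (h : Glue m c) {x F : ℝ} (hF : 0 ≤ F) (hx : x ≤ F) : m x ≤ F := by
  linarith [h.lip 0 F hF, h.zero 0 le_rfl, h.mono hx]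

/-- shifted reference function -/
noncomputable def g0 (n : ℕ) (C : ℝ) : SR n := gg n - C • 1

lemma g0_apply (C : ℝ) (z : Fin n → ℂ) : (g0 n C).1 z = (gg n).1 z - C := by simp [g0]

lemma lv_g0 (C : ℝ) (z : Fin n → ℂ) : lv (g0 n C) z = lv (gg n) z := by
  rw [g0, lv_sub, lv_smul, lv_one, smul_zero, sub_zero]

lemma psd_g0 (C : ℝ) (z : Fin n → ℂ) : (lv (g0 n C) z).PosSemidef := lv_g0 C z ▸ psd_gg z

lemma om_g0_le (R C : ℝ) : om R (g0 n C) 1 ≤ ∫ z, (lv (gg n) z).det.re := by
  rw [om_eq]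
  simp only [lv_g0]
  refine le_trans (le_of_eq ?_) (setIntegral_le_integral (s := closedBall 0 R) integrable_det_gg
    (Eventually.of_forall fun z => det_re_nonneg (psd_gg z)))
  simp

/-- patching with the reference function -/
noncomputable def patch (h : Glue m c) (C : ℝ) (ψ : SR n) : SR n :=
  g0 n C + cmp m h.cd (ψ - g0 n C)

lemma patch_apply (h : Glue m c) (C : ℝ) (ψ : SR n) (z : Fin n → ℂ) :
    (patch h C ψ).1 z = (g0 n C).1 z + m (ψ.1 z - (g0 n C).1 z) := rfl

lemma patch_PP (h : Glue m c) {C C₁ R : ℝ} {ψ : SR n} (hψ : ∀ z, (lv ψ z).PosSemidef)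
    (hg : ∀ z, ψ.1 z ≤ posLog ‖z‖ + C₁) (hR : exp (C₁ + C) ≤ R) : PP R (g0 n C) (patch h C ψ) := by
  refine ⟨fun z hz => ?_, fun z => ?_⟩
  · rw [patch, add_sub_cancel_left]
    refine h.zero _ ?_
    change ψ.1 z - (g0 n C).1 z ≤ 0
    rw [g0_apply]
    linarith [le_gg (hR.trans hz.le), posLog_le_gg z, hg z]
  · rw [patch, lv_add, lv_cmp, lv_sub]
    set t := deriv m ((ψ - g0 n C).1 z)
    have : lv (g0 n C) z + (t • (lv ψ z - lv (g0 n C) z) + deriv (deriv m) ((ψ - g0 n C).1 z) •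
        vecMulVec (gr (ψ - g0 n C) z) (star (gr (ψ - g0 n C) z))) =
        (1 - t) • lv (g0 n C) z + t • lv ψ z + deriv (deriv m) ((ψ - g0 n C).1 z) •
        vecMulVec (gr (ψ - g0 n C) z) (star (gr (ψ - g0 n C) z)) := by module
    rw [this]
    exact (((psd_g0 C z).smul (sub_nonneg.2 (h.d1 _))).add ((hψ z).smul (h.d0 _))).add
      ((posSemidef_vecMulVec_self_star _).smul (h.d2 _))

lemma patch_bound (h : Glue m c) {C C₁ : ℝ} {ψ : SR n} (hC : 0 ≤ C₁ + C)
    (hg : ∀ z, ψ.1 z ≤ posLog ‖z‖ + C₁) (z : Fin n → ℂ) :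
    0 ≤ (patch h C ψ).1 z - (g0 n C).1 z ∧ (patch h C ψ).1 z - (g0 n C).1 z ≤ C₁ + C := by
  rw [patch_apply, add_sub_cancel_left]
  refine ⟨h.nonneg _, h.le hC ?_⟩
  rw [g0_apply]
  linarith [posLog_le_gg z, hg z, gg_nonneg z]

end Pool.Agent.Lib.MP_a839f6_an
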