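import Pool.Agent.Lib.MP_a839f6_an.Defs

namespace Pool.Agent.Lib.MP_a839f6_an

open MvPolynomial Real Filter Topology

variable {n k : ℕ}

/-- vector of monomials -/
noncomputable def mono (k : ℕ) (z : Fin n → ℂ) : Idx n k → ℂ := fun α => ∏ i, z i ^ (α.1 i : ℕ)

noncomputable def expo (α : Idx n k) : Fin n →₀ ℕ :=
  Finsupp.equivFunOnFinite.symm fun i => (α.1 i : ℕ)

@[simp] lemma expo_apply (α : Idx n k) (i : Fin n) : expo α i = (α.1 i : ℕ) := rfl

lemma expo_injective : Function.Injective (expo : Idx n k → _) := by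
  intro α β h
  apply Subtype.ext
  funext i
  apply Fin.ext
  rw [← expo_apply, h, expo_apply]

lemma sum_expo_le (α : Idx n k) : ∑ i, expo α i ≤ k := α.2

lemma exists_expo {d : Fin n →₀ ℕ} (hd : ∑ i, d i ≤ k) : ∃ α : Idx n k, expo α = d := by
  refine ⟨⟨fun i => ⟨d i, Nat.lt_succ_of_le ((Finset.single_le_sum (f := fun i => d i)
    (fun _ _ => Nat.zero_le _) (Finset.mem_univ i)).trans hd)⟩, hd⟩, ?_⟩
  ext i; rfl

noncomputable def polyOf : (Idx n k → ℂ) →ₗ[ℂ] MvPolynomial (Fin n) ℂ :=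
  ∑ α : Idx n k, (monomial (expo α)).comp (LinearMap.proj α)

lemma polyOf_apply (c : Idx n k → ℂ) : polyOf c = ∑ α, monomial (expo α) (c α) := by
  simp [polyOf]

noncomputable def coefs (k : ℕ) : MvPolynomial (Fin n) ℂ →ₗ[ℂ] (Idx n k → ℂ) :=
  LinearMap.pi fun α => lcoeff ℂ (expo α)

lemma coefs_apply (p : MvPolynomial (Fin n) ℂ) (α : Idx n k) : coefs k p α = coeff (expo α) p := rfl

lemma eval_polyOf (c : Idx n k → ℂ) (z : Fin n → ℂ) : eval z (polyOf c) = c ⬝ᵥ mono k z := by
  rw [polyOf_apply, map_sum]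
  refine Finset.sum_congr rfl fun α _ => ?_
  rw [eval_monomial, Finsupp.prod_fintype _ _ (by simp)]
  rfl

lemma coefs_polyOf (c : Idx n k → ℂ) : coefs k (polyOf c) = c := by
  funext α
  rw [coefs_apply, polyOf_apply, coeff_sum, Finset.sum_eq_single α]
  · simp
  · intro β _ hβ
    rw [coeff_monomial, if_neg (expo_injective.ne hβ)]
  · simp

lemma totalDegree_polyOf (c : Idx n k → ℂ) : (polyOf c).totalDegree ≤ k := by
  rw [polyOf_apply]
  refine totalDegree_finsetSum_le fun α _ => (totalDegree_monomial_le _ _).trans ?_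
  rw [Finsupp.sum_fintype _ _ (by simp)]
  exact α.2

lemma polyOf_coefs {p : MvPolynomial (Fin n) ℂ} (hp : p.totalDegree ≤ k) :
    polyOf (coefs k p) = p := by
  ext d
  by_cases hd : ∑ i, d i ≤ k
  · obtain ⟨α, rfl⟩ := exists_expo hd
    rw [← coefs_apply, coefs_polyOf, coefs_apply]
  · have h : ∀ q : MvPolynomial (Fin n) ℂ, q.totalDegree ≤ k → coeff d q = 0 := by
      intro q hq
      apply coeff_eq_zero_of_totalDegree_lt
      rw [Finset.sum_subset (Finset.subset_univ _) (by simp)]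
      omega
    rw [h _ hp, h _ (totalDegree_polyOf _)]

lemma eval_eq_coefs {p : MvPolynomial (Fin n) ℂ} (hp : p.totalDegree ≤ k) (z : Fin n → ℂ) :
    eval z p = coefs k p ⬝ᵥ mono k z := by
  rw [← eval_polyOf, polyOf_coefs hp]

@[fun_prop] lemma continuous_mono_apply (α : Idx n k) : Continuous fun z => mono k z α := by
  unfold mono; fun_prop

@[fun_prop] lemma continuous_mono : Continuous (mono k : (Fin n → ℂ) → _) :=
  continuous_pi continuous_mono_apply

lemma card_Idx : Fintype.card (Idx n k) = (n + k).choose k := by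
  have h := Finset.card_finsuppAntidiag_nat_eq_choose (s := (Finset.univ : Finset (Fin (n + 1)))) k
  rw [Finset.card_univ, Fintype.card_fin, show n + 1 + k - 1 = n + k by omega] at h
  rw [← h, ← Finset.card_univ]
  refine Finset.card_bij (fun α _ => Finsupp.equivFunOnFinite.symm
    (Fin.cons (k - ∑ i, (α.1 i : ℕ)) fun i => (α.1 i : ℕ))) ?_ ?_ ?_
  · intro α _
    have := α.2
    simp [Finset.mem_finsuppAntidiag, Fin.sum_univ_succ]
    omega
  · intro α _ β _ h
    apply expo_injective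
    ext i
    have := congrArg (fun f : Fin (n + 1) →₀ ℕ => f i.succ) h
    simpa using this
  · intro f hf
    have hf' : f 0 + ∑ i : Fin n, f i.succ = k := by
      simpa [Finset.mem_finsuppAntidiag, Fin.sum_univ_succ] using hf
    obtain ⟨α, hα⟩ := exists_expo (k := k) (d := Finsupp.equivFunOnFinite.symm fun i => f i.succ)
      (by simp; omega)
    have hα' : ∀ i, (α.1 i : ℕ) = f i.succ := fun i => by rw [← expo_apply, hα]; simp
    refine ⟨α, Finset.mem_univ _, ?_⟩
    ext i
    refine Fin.cases ?_ (fun i => ?_) i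
    · simp [hα']; omega
    · simp [hα']

instance : Nonempty (Idx n k) := ⟨⟨fun _ => 0, by simp⟩⟩

/-- restriction to a complex line -/
noncomputable def line (p : MvPolynomial (Fin n) ℂ) (a b : Fin n → ℂ) : Polynomial ℂ :=
  aeval (fun i => Polynomial.C (a i) + Polynomial.C (b i) * Polynomial.X) p

lemma eval_aeval_poly (f : Fin n → Polynomial ℂ) (p : MvPolynomial (Fin n) ℂ) (ζ : ℂ) :
    (aeval f p).eval ζ = eval (fun i => (f i).eval ζ) p := by
  induction p using MvPolynomial.induction_on with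
  | C c => simp
  | add p q hp hq => simp [hp, hq]
  | mul_X p i hp => simp [hp]

lemma eval_line (p : MvPolynomial (Fin n) ℂ) (a b : Fin n → ℂ) (ζ : ℂ) :
    (line p a b).eval ζ = eval (a + ζ • b) p := by
  rw [line, eval_aeval_poly]
  congr 2; funext i
  simp only [Polynomial.eval_add, Polynomial.eval_mul, Polynomial.eval_C, Polynomial.eval_X,
    Pi.add_apply, Pi.smul_apply, smul_eq_mul]
  ring

lemma natDegree_line (p : MvPolynomial (Fin n) ℂ) (a b : Fin n → ℂ) :
    (line p a b).natDegree ≤ p.totalDegree := by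
  have := aeval_natDegree_le p (le_refl _)
    (fun i => Polynomial.C (a i) + Polynomial.C (b i) * Polynomial.X) (n := 1) (fun i => by
      compute_degree)
  rw [mul_one] at this
  exact this

lemma sum_sq_le {P : Polynomial ℂ} {T : ℝ} (h : ∀ ζ : ℂ, ‖ζ‖ = 1 → ‖P.eval ζ‖ ≤ T) :
    ∑ i ∈ P.support, ‖P.coeff i‖ ^ 2 ≤ T ^ 2 := by
  rw [P.sum_sq_norm_coeff_eq_circleAverage]
  refine circleAverage_mono_on_of_le_circle (ContinuousOn.circleIntegrable zero_le_one
    (Continuous.continuousOn (by fun_prop))) fun x hx => ?_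
  exact pow_le_pow_left₀ (norm_nonneg _) (h x (by simpa using hx)) 2

lemma mahler_le {P : Polynomial ℂ} {T : ℝ} (h : ∀ ζ : ℂ, ‖ζ‖ = 1 → ‖P.eval ζ‖ ≤ T) :
    P.mahlerMeasure ≤ T := by
  have hT : 0 ≤ T := (norm_nonneg _).trans (h 1 (by simp))
  refine P.mahlerMeasure_le_sqrt_sum_sq_norm_coeff.trans ?_
  rw [Real.sqrt_le_left hT]
  exact sum_sq_le h

lemma eval_le_mahler {P : Polynomial ℂ} {d : ℕ} (hd : P.natDegree ≤ d) (t : ℂ) :
    ‖P.eval t‖ ≤ (1 + ‖t‖) ^ d * P.mahlerMeasure := by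
  have hM := P.mahlerMeasure_nonneg
  have h1 : ‖P.eval t‖ ≤ (‖t‖ + 1) ^ P.natDegree * P.mahlerMeasure := by
    rw [Polynomial.eval_eq_sum_range, add_pow, Finset.sum_mul]
    refine norm_sum_le_of_le _ fun i _ => ?_
    rw [norm_mul, norm_pow, one_pow, mul_one, mul_comm, mul_assoc]
    exact mul_le_mul_of_nonneg_left (P.norm_coeff_le_choose_mul_mahlerMeasure i) (by positivity)
  refine h1.trans (mul_le_mul_of_nonneg_right ?_ hM)
  rw [add_comm]
  exact pow_le_pow_right₀ (by simp) hd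

lemma mul_bound (p q : MvPolynomial (Fin n) ℂ) {d : ℕ} (hq : q.totalDegree ≤ d) (a z : Fin n → ℂ)
    {r T : ℝ} (hr : 0 < r) (h : ∀ y, ‖y - a‖ ≤ r → ‖eval y p * eval y q‖ ≤ T) :
    ‖eval a p‖ * ‖eval z q‖ ≤ (1 + ‖z - a‖ / r) ^ d * T := by
  have hT : 0 ≤ T := (norm_nonneg _).trans (h a (by simpa using hr.le))
  by_cases hz : z = a
  · subst hz
    simpa using h z (by simpa using hr.le)
  have hs : 0 < ‖z - a‖ := norm_pos_iff.2 (sub_ne_zero.2 hz)
  set b : Fin n → ℂ := ((r / ‖z - a‖ : ℝ) : ℂ) • (z - a) with hb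
  have hbn : ‖b‖ = r := by
    rw [hb, norm_smul, Complex.norm_real, Real.norm_of_nonneg (by positivity)]; field_simp
  have h1 : ‖eval a p‖ ≤ (line p a b).mahlerMeasure := by
    have := eval_le_mahler (P := line p a b) le_rfl 0
    simpa [eval_line] using this
  have h2 : ‖eval z q‖ ≤ (1 + ‖z - a‖ / r) ^ d * (line q a b).mahlerMeasure := by
    have := eval_le_mahler ((natDegree_line q a b).trans hq) ((‖z - a‖ / r : ℝ) : ℂ)
    rw [eval_line, Complex.norm_real, Real.norm_of_nonneg (by positivity), hb, smul_smul,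
      ← Complex.ofReal_mul, show ‖z - a‖ / r * (r / ‖z - a‖) = 1 by field_simp,
      Complex.ofReal_one, one_smul, add_sub_cancel] at this
    exact this
  have h3 : (line p a b).mahlerMeasure * (line q a b).mahlerMeasure ≤ T := by
    rw [← Polynomial.mahlerMeasure_mul]
    refine mahler_le fun ζ hζ => ?_
    rw [Polynomial.eval_mul, eval_line, eval_line]
    apply h
    simp [norm_smul, hζ, hbn]
  calc ‖eval a p‖ * ‖eval z q‖
      ≤ (line p a b).mahlerMeasure * ((1 + ‖z - a‖ / r) ^ d * (line q a b).mahlerMeasure) :=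
        mul_le_mul h1 h2 (norm_nonneg _) (Polynomial.mahlerMeasure_nonneg _)
    _ = (1 + ‖z - a‖ / r) ^ d * ((line p a b).mahlerMeasure * (line q a b).mahlerMeasure) := by ring
    _ ≤ _ := mul_le_mul_of_nonneg_left h3 (by positivity)

lemma bernstein (q : MvPolynomial (Fin n) ℂ) {d : ℕ} (hq : q.totalDegree ≤ d) (a z : Fin n → ℂ)
    {r T : ℝ} (hr : 0 < r) (h : ∀ y, ‖y - a‖ ≤ r → ‖eval y q‖ ≤ T) :
    ‖eval z q‖ ≤ (1 + ‖z - a‖ / r) ^ d * T := by
  simpa using mul_bound 1 q hq a z hr (T := T) (by simpa using h)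

lemma posLog_submean (P : Polynomial ℂ) :
    posLog ‖P.eval 0‖ ≤ circleAverage (fun ζ => posLog ‖P.eval ζ‖) 0 1 := by
  have hi : CircleIntegrable (fun ζ => posLog ‖P.eval ζ‖) 0 1 :=
    ContinuousOn.circleIntegrable zero_le_one (Continuous.continuousOn (by fun_prop))
  rw [posLog_apply, max_le_iff]
  refine ⟨circleAverage_nonneg_of_nonneg fun _ _ => posLog_nonneg, ?_⟩
  by_cases h0 : P.eval 0 = 0
  · rw [h0, norm_zero, log_zero]
    exact circleAverage_nonneg_of_nonneg fun _ _ => posLog_nonneg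
  have h1 : ‖P.eval 0‖ ≤ P.mahlerMeasure := by simpa using eval_le_mahler (P := P) le_rfl 0
  refine (log_le_log (norm_pos_iff.2 h0) h1).trans ?_
  rw [← Polynomial.logMahlerMeasure_eq_log_MahlerMeasure, Polynomial.logMahlerMeasure_def]
  refine circleAverage_mono ?_ hi fun x _ => le_max_right _ _
  exact P.intervalIntegrable_mahlerMeasure

lemma sq_submean {F : ℂ → ℂ} (hF : Differentiable ℂ F) :
    ‖F 0‖ ^ 2 ≤ circleAverage (fun ζ => ‖F ζ‖ ^ 2) 0 1 := by
  have h1 : circleAverage (fun ζ => F ζ ^ 2) 0 1 = F 0 ^ 2 :=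
    DiffContOnCl.circleAverage (Differentiable.diffContOnCl (by fun_prop))
  rw [← norm_pow, ← h1, circleAverage_def, circleAverage_def, norm_smul, smul_eq_mul,
    Real.norm_of_nonneg (by positivity)]
  refine mul_le_mul_of_nonneg_left ?_ (by positivity)
  refine (intervalIntegral.norm_integral_le_integral_norm two_pi_pos.le).trans_eq ?_
  simp

lemma coef_bound (c : Idx n k → ℂ) {T : ℝ} (h : ∀ z, ‖z‖ ≤ 1 → ‖c ⬝ᵥ mono k z‖ ≤ T) :
    ∑ α, ‖c α‖ ^ 2 ≤ T ^ 2 := by
  let e : Idx n k → ℕ := fun α => ∑ i, (α.1 i : ℕ) * (k + 1) ^ (i : ℕ)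
  have he : Function.Injective e := by
    intro α β hab
    apply Subtype.ext
    apply finFunctionFinEquiv.injective
    apply Fin.ext
    simpa [finFunctionFinEquiv_apply] using hab
  let P : Polynomial ℂ := ∑ α, Polynomial.monomial (e α) (c α)
  have hP : ∀ α, P.coeff (e α) = c α := by
    intro α
    rw [Polynomial.finsetSum_coeff, Finset.sum_eq_single α]
    · simp
    · intro β _ hβ
      rw [Polynomial.coeff_monomial, if_neg (he.ne hβ)]
    · simp
  have h1 := sum_sq_le (P := P) (T := T) fun ζ hζ => by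
    have := h (fun i => ζ ^ (k + 1) ^ (i : ℕ)) (by
      rw [pi_norm_le_iff_of_nonneg zero_le_one]; intro i; simp [hζ])
    refine le_of_eq_of_le ?_ this
    congr 1
    rw [Polynomial.eval_finsetSum]
    refine Finset.sum_congr rfl fun α _ => ?_
    rw [Polynomial.eval_monomial]
    congr 1
    simp only [mono, e, ← Finset.prod_pow_eq_pow_sum, ← pow_mul, mul_comm]
  refine le_trans ?_ h1
  have h2 : ∑ α, ‖c α‖ ^ 2 = ∑ i ∈ Finset.univ.image e, ‖P.coeff i‖ ^ 2 := by
    rw [Finset.sum_image he.injOn]; simp [hP]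
  rw [h2]
  rw [← Finset.sum_filter_ne_zero]
  refine Finset.sum_le_sum_of_subset_of_nonneg (fun i hi => ?_) (fun _ _ _ => by positivity)
  rw [Polynomial.mem_support_iff]
  intro h0
  simp [h0] at hi

lemma posLog_one_add (x : ℝ) : posLog (1 + x) ≤ log 2 + posLog x := by
  simpa using posLog_add (x := 1) (y := x)

lemma posLog_eval_le (p : MvPolynomial (Fin n) ℂ) (hp : p.totalDegree ≤ k) :
    ∃ C : ℝ, ∀ z, posLog ‖eval z p‖ ≤ k * posLog ‖z‖ + C := by
  obtain ⟨T, hT⟩ := (isCompact_closedBall (0 : Fin n → ℂ) 1).exists_bound_of_continuousOn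
    (f := fun y => eval y p) (continuous_eval p).continuousOn
  refine ⟨k * log 2 + posLog T, fun z => ?_⟩
  have := bernstein p hp 0 z one_pos (T := T) fun y hy => hT y (by simpa using hy)
  simp only [sub_zero, div_one] at this
  refine (posLog_le_posLog (norm_nonneg _) this).trans (posLog_mul.trans ?_)
  rw [posLog_pow]
  have := mul_le_mul_of_nonneg_left (posLog_one_add ‖z‖) (Nat.cast_nonneg (α := ℝ) k)
  linarith

end Pool.Agent.Lib.MP_a839f6_an
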