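import Pool.Agent.Lib.MP_a839f6_an.MT2

namespace Pool.Agent.Lib.MP_a839f6_an

open MeasureTheory Matrix Filter Topology Metric Set Real MvPolynomial
open scoped ContDiff ComplexOrder ComplexConjugate

variable {n k : ℕ} {K : Set (Fin n → ℂ)} {μ : Measure (Fin n → ℂ)}

/-- condition R -/
def CondR (K : Set (Fin n → ℂ)) (μ : Measure (Fin n → ℂ)) : Prop :=
  ∀ p : ℕ → MvPolynomial (Fin n) ℂ, (∀ j, p j ≠ 0) →
    Tendsto (fun j => (p j).totalDegree) atTop atTop → ∀ z,
      limsup (fun j => (‖eval z (p j)‖ₑ / eLpNorm (fun x => eval x (p j)) 2 μ) ^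
        (1 / ((p j).totalDegree : ℝ))) atTop ≤ EReal.exp (limsup (extremal K) (𝓝 z))

/-- squared norm -/
noncomputable def l2 (μ : Measure (Fin n → ℂ)) (p : MvPolynomial (Fin n) ℂ) : ℝ :=
  ∫ x, ‖eval x p‖ ^ 2 ∂μ

lemma l2_nonneg (p : MvPolynomial (Fin n) ℂ) : 0 ≤ l2 μ p := integral_nonneg fun _ => sq_nonneg _

lemma eLpNorm_eq (hμ : CI μ) (p : MvPolynomial (Fin n) ℂ) :
    eLpNorm (fun x => eval x p) 2 μ = ENNReal.ofReal √(l2 μ p) := by
  have hc := continuous_eval p
  rw [MemLp.eLpNorm_eq_integral_rpow_norm two_ne_zero ENNReal.ofNat_ne_top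
    ((memLp_two_iff_integrable_sq_norm hc.aestronglyMeasurable).2 (hμ.real (by fun_prop))),
    sqrt_eq_rpow, l2]
  simp

lemma qf_mu (hμ : CI μ) (c : Idx n k → ℂ) : qf (gram k μ fun _ => 1) c = l2 μ (polyOf c) := by
  rw [qf_gram hμ continuous_const, l2]
  simp only [one_mul, eval_polyOf]

lemma vstar_le {a : (Fin n → ℂ) → ℝ} (ha : Continuous a) (h : ∀ z, extremal K z ≤ a z)
    (z : Fin n → ℂ) : limsup (extremal K) (𝓝 z) ≤ a z :=
  (limsup_le_limsup (Eventually.of_forall h)).trans_eq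
    ((continuous_coe_real_ereal.comp ha).tendsto z).limsup_eq

lemma CondR.core (hR : CondR K μ) (hμ : CI μ) {z : Fin n → ℂ} {t T : ℝ}
    (ht : limsup (extremal K) (𝓝 z) ≤ t) (hT : t < T) {p : ℕ → MvPolynomial (Fin n) ℂ}
    (hd : Tendsto (fun j => (p j).totalDegree) atTop atTop)
    (h : ∀ j, exp (2 * (p j).totalDegree * T) * l2 μ (p j) < ‖eval z (p j)‖ ^ 2) : False := by
  have h0 : ∀ j, eval z (p j) ≠ 0 := fun j h0 => by
    have := h j
    rw [h0, norm_zero, zero_pow two_ne_zero] at this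
    exact absurd this (not_lt.2 (mul_nonneg (exp_pos _).le (l2_nonneg _)))
  have h1 := (hR p (fun j hj => h0 j (by rw [hj, map_zero])) hd z).trans (EReal.exp_monotone ht)
  refine absurd ((le_limsup_of_frequently_le' (Eventually.frequently ?_)).trans h1)
    (not_le.2 (show EReal.exp t < EReal.exp T from EReal.exp_strictMono (by exact_mod_cast hT)))
  filter_upwards [hd.eventually_gt_atTop 0] with j hj
  have hj' : (0 : ℝ) < (p j).totalDegree := by exact_mod_cast hj
  rw [one_div, ENNReal.le_rpow_inv_iff hj', ENNReal.le_div_iff_mul_le (Or.inr (by simp [h0 j]))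
    (Or.inr enorm_ne_top), eLpNorm_eq hμ, EReal.exp_coe, ENNReal.ofReal_rpow_of_pos (exp_pos _),
    ← ENNReal.ofReal_mul (by positivity), ← ofReal_norm]
  refine ENNReal.ofReal_le_ofReal (le_of_pow_le_pow_left₀ two_ne_zero (norm_nonneg _) ?_)
  rw [mul_pow, sq_sqrt (l2_nonneg _), ← exp_mul, ← exp_nat_mul]
  refine le_of_eq_of_le ?_ (h j).le
  congr 2; push_cast; ring

lemma CondR.pd (hn : 0 < n) (hR : CondR K μ) (hμ : CI μ) {a : (Fin n → ℂ) → ℝ}
    (ha : ∀ z, limsup (extremal K) (𝓝 z) ≤ a z) : (gram k μ fun _ => 1).PosDef := by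
  refine gram_pd hμ continuous_const fun c hc => ?_
  by_contra h
  have hp : polyOf c ≠ 0 := fun h0 => hc (by rw [← coefs_polyOf c, h0, map_zero])
  rw [qf_mu hμ] at h
  have h1 : ∀ᵐ x ∂μ, eval x (polyOf c) = 0 := by
    have hc := continuous_eval (polyOf c)
    have := (integral_eq_zero_iff_of_nonneg (fun _ => sq_nonneg _) (hμ.real
      (f := fun x => ‖eval x (polyOf c)‖ ^ 2) (by fun_prop))).1
      (le_antisymm (not_lt.1 h) (l2_nonneg _))
    filter_upwards [this] with x hx
    simpa using hx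
  let i : Fin n := ⟨0, hn⟩
  obtain ⟨z, hz⟩ : ∃ z, eval z (polyOf c * X i) ≠ 0 := by
    by_contra h2
    push Not at h2
    exact mul_ne_zero hp (X_ne_zero i) (MvPolynomial.funext fun z => by rw [h2, map_zero])
  rw [map_mul, eval_X, mul_ne_zero_iff] at hz
  refine hR.core hμ (ha z) (lt_add_one _) (p := fun j => polyOf c * X i ^ j) ?_ fun j => ?_
  · simp only [totalDegree_mul_of_isDomain hp (pow_ne_zero _ (X_ne_zero i)), totalDegree_X_pow]
    exact tendsto_atTop_mono (fun _ => Nat.le_add_left _ _) tendsto_id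
  · have : l2 μ (polyOf c * X i ^ j) = 0 := integral_eq_zero_of_ae (by
      filter_upwards [h1] with x hx
      simp [hx])
    rw [this, mul_zero, map_mul, map_pow, eval_X]
    exact pow_pos (norm_pos_iff.2 (mul_ne_zero hz.1 (pow_ne_zero _ hz.2))) 2

lemma CondR.berg_le (hn : 0 < n) (hR : CondR K μ) (hμ : CI μ) {a : (Fin n → ℂ) → ℝ}
    (ha : ∀ z, limsup (extremal K) (𝓝 z) ≤ a z) (ha0 : ∀ z, 0 ≤ a z) (z : Fin n → ℂ) {T : ℝ}
    (hT : a z < T) :
    ∀ᶠ k : ℕ in atTop, berg (gram k μ fun _ => 1) (mono k z) ≤ exp (2 * k * T) := by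
  have hT0 : 0 < T := (ha0 z).trans_lt hT
  by_contra h
  rw [not_eventually] at h
  obtain ⟨φ, hφ, h1⟩ := extraction_of_frequently_atTop h
  have h2 : ∀ j, ∃ p : MvPolynomial (Fin n) ℂ, p.totalDegree ≤ φ j ∧
      exp (2 * φ j * T) * l2 μ p < ‖eval z p‖ ^ 2 := fun j => by
    by_contra h3
    push Not at h3
    refine h1 j (Pool.Agent.Lib.MP_a839f6_an.berg_le (hR.pd hn hμ ha) _ (exp_pos _).le fun c => ?_)
    rw [qf_mu hμ, ← eval_polyOf]
    exact h3 _ (totalDegree_polyOf c)
  choose p hp1 hp2 using h2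
  refine hR.core hμ (ha z) hT (p := p) (tendsto_atTop.2 fun D => ?_) fun j => lt_of_le_of_lt
    (mul_le_mul_of_nonneg_right (exp_le_exp.2 ?_) (l2_nonneg _)) (hp2 j)
  · have h4 : Tendsto (fun j => exp (2 * φ j * T)) atTop atTop := tendsto_exp_atTop.comp
      (((tendsto_natCast_atTop_atTop.comp hφ.tendsto_atTop).const_mul_atTop two_pos).atTop_mul_const
        hT0)
    filter_upwards [h4.eventually_ge_atTop (berg (gram D μ fun _ => 1) (mono D z))] with j hj
    by_contra h5
    have h6 := sq_le_berg (hR.pd (k := D) hn hμ ha) (mono D z) (coefs D (p j))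
    rw [qf_mu hμ, ← eval_eq_coefs (not_le.1 h5).le, polyOf_coefs (not_le.1 h5).le] at h6
    exact absurd (h6.trans (mul_le_mul_of_nonneg_right hj (l2_nonneg _))) (not_le.2 (hp2 j))
  · have : ((p j).totalDegree : ℝ) ≤ φ j := by exact_mod_cast hp1 j
    nlinarith

lemma hartogs {G : ∀ k, Matrix (Idx n k) (Idx n k) ℂ} (hG : ∀ k, (G k).PosDef)
    {a : (Fin n → ℂ) → ℝ} (ha : Continuous a) (ha0 : ∀ z, 0 ≤ a z)
    (h : ∀ z T, a z < T → ∀ᶠ k : ℕ in atTop, berg (G k) (mono k z) ≤ exp (2 * k * T))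
    (R : ℝ) {ε : ℝ} (hε : 0 < ε) : ∀ᶠ k : ℕ in atTop, ∀ z, ‖z‖ ≤ R →
      berg (G k) (mono k z) ≤ exp (2 * k * (a z + ε)) := by
  obtain ⟨m, z₁, hz₁⟩ := nonempty_interior_of_iUnion_of_closed
    (f := fun m : ℕ => ⋂ k : ℕ, {z | berg (G k) (mono k z) ≤ exp (m * (k + 1))})
    (fun m => isClosed_iInter fun k => isClosed_le (continuous_berg _) continuous_const) (by
      refine eq_univ_of_forall fun z => ?_
      obtain ⟨B, hB⟩ := (isBoundedUnder_of_eventually_le (a := 2 * (a z + 1))
        (u := fun k : ℕ => log (berg (G k) (mono k z)) / (k + 1)) (by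
          filter_upwards [h z _ (lt_add_one _)] with k hk
          rw [div_le_iff₀ (by positivity)]
          have := (posLog_le_posLog (berg_nonneg (hG k) _) hk)
          rw [posLog_apply, posLog_apply, log_exp] at this
          have h0 := ha0 z
          have := (le_max_right _ _).trans (this.trans (max_le (by positivity) le_rfl))
          nlinarith)).bddAbove_range
      obtain ⟨m, hm⟩ := exists_nat_ge B
      refine mem_iUnion.2 ⟨m, mem_iInter.2 fun k => (le_exp_log _).trans (exp_le_exp.2 ?_)⟩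
      exact (div_le_iff₀ (by positivity)).1 ((hB ⟨k, rfl⟩).trans hm))
  obtain ⟨r₁, hr₁, hz₁'⟩ := nhds_basis_closedBall.mem_iff.1 (mem_interior_iff_mem_nhds.1 hz₁)
  set M := m + log (1 + (|R| + 1 + ‖z₁‖) / r₁) with hM
  have hL : 0 ≤ log (1 + (|R| + 1 + ‖z₁‖) / r₁) :=
    log_nonneg (le_add_of_nonneg_right (by positivity))
  have hb : ∀ k : ℕ, 0 < k → ∀ z, ‖z‖ ≤ R + 1 → berg (G k) (mono k z) ≤ exp (2 * k * M) := by
    intro k hk z hz
    refine berg_le (hG k) _ (exp_pos _).le fun c => ?_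
    have hq := qf_nonneg (hG k).posSemidef c
    have h1 := bernstein (polyOf c) (totalDegree_polyOf c) z₁ z hr₁
      (T := √(exp (m * (k + 1)) * qf (G k) c)) fun y hy => by
        rw [eval_polyOf]
        exact Real.le_sqrt_of_sq_le ((sq_le_berg (hG k) _ c).trans (mul_le_mul_of_nonneg_right
          (mem_iInter.1 (hz₁' (by rwa [mem_closedBall, dist_eq_norm])) k) hq))
    have h2 : 1 + ‖z - z₁‖ / r₁ ≤ exp (log (1 + (|R| + 1 + ‖z₁‖) / r₁)) := by
      rw [exp_log (by positivity)]
      gcongr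
      linarith [norm_sub_le z z₁, le_abs_self R]
    have h3 := pow_le_pow_left₀ (norm_nonneg _) (h1.trans (mul_le_mul_of_nonneg_right
      (pow_le_pow_left₀ (by positivity) h2 k) (sqrt_nonneg _))) 2
    rw [eval_polyOf, mul_pow, sq_sqrt (by positivity), ← exp_nat_mul, ← exp_nat_mul, ← mul_assoc,
      ← Real.exp_add] at h3
    refine h3.trans (mul_le_mul_of_nonneg_right (exp_le_exp.2 ?_) hq)
    have : (1 : ℝ) ≤ k := by exact_mod_cast hk
    push_cast
    nlinarith [Nat.cast_nonneg (α := ℝ) m]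
  let w : ℕ → (Fin n → ℂ) → ℝ := fun k z =>
    max (posLog (berg (G k) (mono k z)) / (2 * k) - a z) 0
  have hw : ∀ k, Continuous (w k) := fun k => by
    have := continuous_berg (G k)
    fun_prop
  have hw1 : ∀ (k : ℕ) z T, 0 < k → 0 ≤ T → berg (G k) (mono k z) ≤ exp (2 * k * T) →
      posLog (berg (G k) (mono k z)) / (2 * k) ≤ T := fun k z T hk hT h => by
    have := (posLog_le_posLog (berg_nonneg (hG k) _) h)
    rw [posLog_apply (x := exp _), log_exp] at this
    rw [div_le_iff₀' (by positivity)]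
    exact this.trans (max_le (by positivity) le_rfl)
  have hlim := tendsto_integral_filter_of_dominated_convergence
    (μ := volume.restrict (closedBall (0 : Fin n → ℂ) (R + 1))) (l := atTop) (F := w)
    (f := fun _ => 0) (fun _ => M) (Eventually.of_forall fun k => (hw k).aestronglyMeasurable) (by
      filter_upwards [eventually_gt_atTop 0] with k hk
      filter_upwards [ae_restrict_mem measurableSet_closedBall] with z hz
      rw [Real.norm_of_nonneg (le_max_right _ _)]
      exact max_le (by linarith [hw1 k z M hk (by positivity) (hb k hk z (by simpa using hz)), ha0 z])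
        (by positivity)) (intOn continuous_const _ _) (Eventually.of_forall fun z => by
      refine tendsto_order.2 ⟨fun b hb => Eventually.of_forall fun k => hb.trans_le
        (le_max_right _ _), fun b hb => ?_⟩
      filter_upwards [h z (a z + b / 2) (by linarith), eventually_gt_atTop 0] with k hk hk0
      exact max_lt (by linarith [hw1 k z _ hk0 (by linarith [ha0 z]) hk]) hb)
  obtain ⟨r, hr, hu⟩ := Metric.uniformContinuousOn_iff_le.1
    ((isCompact_closedBall (0 : Fin n → ℂ) (R + 1)).uniformContinuousOn_of_continuous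
      ha.continuousOn) (ε / 2) (half_pos hε)
  set s := min r 1 with hs
  have hs0 : 0 < s := lt_min hr one_pos
  have hvb := vb_pos (n := n) hs0
  rw [integral_zero] at hlim
  filter_upwards [hlim.eventually (gt_mem_nhds (show 0 < ε / 2 * vb n s by positivity)),
    eventually_gt_atTop 0] with k hk hk0 z hz
  have hk' : (0 : ℝ) < k := by exact_mod_cast hk0
  refine berg_le (hG k) _ (exp_pos _).le fun c => ?_
  by_cases hc : c = 0
  · simp [hc, qf]
  have hq : 0 < qf (G k) c := (hG k).re_dotProduct_pos hc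
  have hsub : closedBall z s ⊆ closedBall 0 (R + 1) :=
    closedBall_subset_closedBall' (by simpa using by linarith [min_le_right r 1])
  have e : ∀ y, ‖eval y (polyOf ((((√(qf (G k) c))⁻¹ : ℝ) : ℂ) • c))‖ ^ 2 =
      ‖c ⬝ᵥ mono k y‖ ^ 2 / qf (G k) c := fun y => by
    rw [eval_polyOf, smul_dotProduct, norm_smul, mul_pow, Complex.norm_real, Real.norm_eq_abs,
      sq_abs, inv_pow, sq_sqrt hq.le, div_eq_inv_mul]
  have h1 := ((sm_posLog (polyOf ((((√(qf (G k) c))⁻¹ : ℝ) : ℂ) • c))).const_mul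
    (c := (2 : ℕ)) (by positivity)).le_ball z s
  simp only [← posLog_pow, e] at h1
  have h2 : ∫ y in closedBall z s, posLog (‖c ⬝ᵥ mono k y‖ ^ 2 / qf (G k) c) ≤
      ∫ y in closedBall z s, 2 * k * (a z + ε / 2 + w k y) := by
    refine setIntegral_mono_on (intOn (by fun_prop) _ _) (intOn (by have := hw k; fun_prop) _ _)
      measurableSet_closedBall fun y hy => ?_
    refine (posLog_le_posLog (by positivity)
      ((div_le_iff₀ hq).2 (sq_le_berg (hG k) _ c))).trans ?_
    rw [← div_le_iff₀' (by positivity)]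
    have a1 := hu y (hsub hy) z (by simpa using by linarith) (hy.trans (min_le_left _ _))
    rw [Real.dist_eq] at a1
    have a2 : _ ≤ w k y := le_max_left _ _
    linarith [le_abs_self (a y - a z)]
  have h3 : ∫ y in closedBall z s, w k y ≤ ∫ y in closedBall 0 (R + 1), w k y :=
    setIntegral_mono_set (intOn (hw k) _ _) (Eventually.of_forall fun y => le_max_right _ _)
      (LE.le.eventuallyLE hsub)
  rw [integral_const_mul, integral_add (intOn continuous_const _ _) (intOn (hw k) _ _),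
    setIntegral_const, Measure.addHaar_real_closedBall_center, smul_eq_mul] at h2
  rw [← div_le_iff₀ hq]
  refine le_exp_of_log_le ((le_max_right 0 _).trans (le_of_mul_le_mul_right (h1.trans
    (h2.trans ?_)) hvb))
  simp only [vb] at hk ⊢
  nlinarith

lemma lower (hn : 0 < n) (hK : IsCompact K) [IsFiniteMeasure μ] (hμ : CI μ) (hR : CondR K μ)
    {C₀ : ℝ} (hC₀ : ∀ v, Gc K v → ∀ z, v z ≤ posLog ‖z‖ + C₀) {ε : ℝ} (hε : 0 < ε) :
    ∀ᶠ k : ℕ in atTop, maxV K k ^ 2 ≤ exp (ε * (k * NN n k)) *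
      ∫ x, ‖vdm k x‖ ^ 2 ∂(Measure.pi fun _ : Idx n k => μ) := by
  obtain ⟨R, c, hR0, hKR, h⟩ := mt2 hn hK hC₀
  have hε' : 0 < ε / 6 := by positivity
  obtain ⟨a, φ, ψ, ha, hφ, hψ, ha0, hVa, h1, h2, h3⟩ := h _ hε'
  have hva := vstar_le ha hVa
  have hG : ∀ k, (gram k μ fun _ => 1).PosDef := fun k => hR.pd hn hμ hva
  filter_upwards [h3, maxV_le_gw hK hR0 hKR hψ h2 hε',
    hartogs hG ha ha0 (fun z T => hR.berg_le hn hμ hva ha0 z) (R + 1) hε',
    eventually_le_exp n (vb n (R + 1)) 0 hε'] with k k1 k2 k3 k4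
  have k5 := det_le_of_trace (gw_pd (k := k) hφ (by linarith : 0 < R + 1)).posSemidef (hG k)
    (c := exp (ε / 6 * k + 2 * k * (c + ε / 6))) (exp_pos _) (by
      rw [gw, trace_gram (ci_ball _) (continuous_wt k hφ)]
      refine le_trans ?_ (le_mul_of_one_le_right (exp_pos _).le (one_le_NN n k))
      rw [pow_zero, mul_one] at k4
      rw [Real.exp_add]
      refine le_trans ?_ (mul_le_mul_of_nonneg_right k4 (exp_pos _).le)
      rw [← smul_eq_mul (vb n (R + 1)), ← setIntegral_const]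
      refine setIntegral_mono_on (intOn (by fun_prop) _ _) (intOn continuous_const _ _)
        measurableSet_closedBall fun z hz => ?_
      refine (mul_le_mul_of_nonneg_left (k3 z (by simpa using hz)) (wt_pos _ _ _).le).trans ?_
      rw [wt, ← Real.exp_add, exp_le_exp]
      nlinarith [h1 z, Nat.cast_nonneg (α := ℝ) k])
  rw [← exp_nat_mul] at k5
  have k6 : (gram k μ fun _ => 1).det.re ≤
      ∫ x, ‖vdm k x‖ ^ 2 ∂(Measure.pi fun _ : Idx n k => μ) := by
    rw [andreief hμ]
    exact le_mul_of_one_le_left (det_re_pos (hG k)).le (by exact_mod_cast Nat.factorial_pos _)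
  refine k2.trans ((mul_le_mul_of_nonneg_left (k1.trans (mul_le_mul_of_nonneg_right
    (k5.trans (mul_le_mul_of_nonneg_left k6 (exp_pos _).le)) (exp_pos _).le))
    (exp_pos _).le).trans_eq ?_)
  rw [mul_right_comm (exp (NN n k * _)), ← mul_assoc, ← Real.exp_add, ← Real.exp_add]
  congr 2; ring

end Pool.Agent.Lib.MP_a839f6_an
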