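import Pool.Agent.Lib.MP_a839f6_an.RZ

namespace Pool.Agent.Lib.MP_a839f6_an

open MeasureTheory Matrix Filter Topology Metric Set Real MvPolynomial
open scoped ContDiff ComplexOrder ComplexConjugate

variable {n k : ℕ} {K : Set (Fin n → ℂ)} {μ : Measure (Fin n → ℂ)}

lemma upper (hK : IsCompact K) [IsFiniteMeasure μ] (hμ : μ Kᶜ = 0) {ε : ℝ} (hε : 0 < ε) :
    ∀ᶠ k : ℕ in atTop, ∫ x, ‖vdm k x‖ ^ 2 ∂(Measure.pi fun _ : Idx n k => μ) ≤
      exp (ε * (k * NN n k)) * maxV K k ^ 2 := by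
  filter_upwards [eventually_le_exp n (μ.real univ) 0 hε] with k hk
  have h1 : ∀ᵐ x ∂(Measure.pi fun _ : Idx n k => μ), ∀ β, x β ∈ K :=
    ae_all_iff.2 fun β => (Measure.quasiMeasurePreserving_eval (fun _ : Idx n k => μ) β).ae hμ
  have h2 := norm_integral_le_of_norm_le_const (μ := Measure.pi fun _ : Idx n k => μ)
    (f := fun x => ‖vdm k x‖ ^ 2) (C := maxV K k ^ 2) (by
      filter_upwards [h1] with x hx
      rw [Real.norm_of_nonneg (sq_nonneg _)]
      exact pow_le_pow_left₀ (norm_nonneg _) (le_maxV hK hx) 2)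
  refine (Real.le_norm_self _).trans (h2.trans ?_)
  rw [mul_comm, measureReal_def, Measure.pi_univ, Finset.prod_const, ENNReal.toReal_pow,
    Finset.card_univ, show ε * (k * NN n k) = NN n k * (ε * k) by ring, exp_nat_mul]
  rw [pow_zero, mul_one] at hk
  exact mul_le_mul_of_nonneg_right (pow_le_pow_left₀ ENNReal.toReal_nonneg hk _) (sq_nonneg _)

lemma unisolvent {z₀ : Fin n → ℂ} {r t : ℝ} (hr : 0 < r)
    (h : ∀ y, ‖y - z₀‖ ≤ r → extremal K y ≤ t) (hk : 0 < k) (c : Idx n k → ℂ)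
    (hc : ∀ z ∈ K, c ⬝ᵥ mono k z = 0) : c = 0 := by
  refine eq_zero_of_ball (a := z₀) hr fun y hy => ?_
  have := norm_eval_le (totalDegree_polyOf c) hk le_rfl
    (fun z hz => by rw [eval_polyOf, hc z hz, norm_zero]) (h y hy)
  rwa [mul_zero, norm_le_zero_iff, eval_polyOf] at this

lemma coef_le {z₀ : Fin n → ℂ} {r t : ℝ} (hr : 0 < r)
    (h : ∀ y, ‖y - z₀‖ ≤ r → extremal K y ≤ t) (hk : 0 < k) (c : Idx n k → ℂ) {S : ℝ} (hS : 0 ≤ S)
    (hc : ∀ z ∈ K, ‖c ⬝ᵥ mono k z‖ ≤ S) :
    ∑ α, ‖c α‖ ^ 2 ≤ (exp (k * (t + log (1 + (1 + ‖z₀‖) / r))) * S) ^ 2 := by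
  refine coef_bound c fun z hz => ?_
  have h1 := bernstein (polyOf c) (totalDegree_polyOf c) z₀ z hr fun y hy =>
    norm_eval_le (totalDegree_polyOf c) hk hS (fun z hz => by rw [eval_polyOf]; exact hc z hz)
      (h y hy)
  rw [eval_polyOf] at h1
  refine h1.trans ?_
  rw [← mul_assoc, mul_add, Real.exp_add, mul_comm (exp _), exp_nat_mul (log _),
    exp_log (by positivity)]
  gcongr
  linarith [norm_sub_le z z₀]

lemma maxV_ge (hK : IsCompact K) {z₀ : Fin n → ℂ} {r t : ℝ} (hr : 0 < r)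
    (h : ∀ y, ‖y - z₀‖ ≤ r → extremal K y ≤ t) :
    ∃ T : ℝ, ∀ᶠ k : ℕ in atTop, 1 ≤ exp (T * (k * NN n k)) * maxV K k ^ 2 := by
  refine ⟨1 + 2 * (t + log (1 + (1 + ‖z₀‖) / r)), ?_⟩
  filter_upwards [eventually_gt_atTop 0, eventually_le_exp n 1 1 one_pos] with k hk hk1
  obtain ⟨F, hF, hdet, h1, -⟩ := exists_fekete hK (unisolvent hr h hk)
  have hN := one_le_NN n k
  have := det_le_of_qf (G₁ := 1) PosSemidef.one hF
    (c := exp (k * (1 + 2 * (t + log (1 + (1 + ‖z₀‖) / r))))) (exp_pos _) fun c => by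
      have hq := qf_nonneg hF.posSemidef c
      rw [qf_one]
      refine (coef_le hr h hk c (sqrt_nonneg _) fun z hz =>
        Real.le_sqrt_of_sq_le (h1 z hz c)).trans ?_
      rw [mul_pow, sq_sqrt (by positivity), ← mul_assoc, ← exp_nat_mul]
      refine mul_le_mul_of_nonneg_right ?_ hq
      simp only [one_mul, pow_one] at hk1
      refine (mul_le_mul_of_nonneg_left hk1 (exp_pos _).le).trans_eq ?_
      rw [← Real.exp_add]; congr 1; push_cast; ring
  rw [det_one, Complex.one_re, hdet, ← exp_nat_mul] at this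
  refine this.trans_eq ?_
  congr 2; ring

lemma l2_le (hμ : CI μ) [IsFiniteMeasure μ] (hK : μ Kᶜ = 0) (p : MvPolynomial (Fin n) ℂ) {S : ℝ}
    (h : ∀ z ∈ K, ‖eval z p‖ ^ 2 ≤ S) : l2 μ p ≤ μ.real univ * S := by
  rw [← smul_eq_mul, ← integral_const]
  have hc := continuous_eval p
  refine integral_mono_ae (hμ.real (by fun_prop)) (integrable_const _) ?_
  filter_upwards [show ∀ᵐ z ∂μ, z ∈ K from hK] with z hz using h z hz

lemma NN_ratio {d q : ℕ} (hq : 0 < q) (h1 : q ≤ d) (h2 : n ≤ d) :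
    (NN n (d + d / q) : ℝ) ≤ (6 * q) ^ n * NN n (d / q) := by
  have a1 := NN_le_pow n (d + d / q)
  have a2 := pow_le_NN n (d / q)
  have a3 : d + d / q + n ≤ 6 * q * (d / q) := by
    have b1 : d / q ≤ d := Nat.div_le_self _ _
    have b2 : 1 ≤ d / q := (Nat.le_div_iff_mul_le hq).2 (by omega)
    have b3 := Nat.lt_mul_div_succ d hq
    nlinarith
  have a4 : (((d + d / q : ℕ) : ℝ) + n) ^ n ≤ (6 * q * (d / q : ℕ)) ^ n :=
    pow_le_pow_left₀ (by positivity) (by exact_mod_cast a3) n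
  rw [mul_pow] at a4
  refine le_of_mul_le_mul_left (a1.trans (a4.trans ?_))
    (show (0 : ℝ) < n.factorial by exact_mod_cast n.factorial_pos)
  rw [mul_left_comm]
  exact mul_le_mul_of_nonneg_left a2 (by positivity)

lemma not_condR (hK : IsCompact K) [IsFiniteMeasure μ] (hμ : μ Kᶜ = 0) (hR : ¬CondR K μ) :
    (∃ T : ℝ, ∀ᶠ k : ℕ in atTop, 1 ≤ exp (T * (k * NN n k)) * maxV K k ^ 2) ∧
      ∃ c > 0, ∃ᶠ k : ℕ in atTop, ∫ x, ‖vdm k x‖ ^ 2 ∂(Measure.pi fun _ : Idx n k => μ) ≤
        exp (-c * (k * NN n k)) * maxV K k ^ 2 := by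
  have hci := ci_of_compact hK hμ
  simp only [CondR, not_forall, not_le] at hR
  obtain ⟨p, hp, hd, z, hz⟩ := hR
  obtain ⟨y, -, hy1, hy2⟩ := ENNReal.lt_iff_exists_real_btwn.1 hz
  have hy0 : 0 < y := ENNReal.ofReal_pos.1 (zero_le.trans_lt hy1)
  rw [← exp_log hy0] at hy1 hy2
  set T := log y
  rw [← EReal.exp_coe, EReal.exp_lt_exp_iff] at hy1
  obtain ⟨t, ht1, ht2⟩ := EReal.lt_iff_exists_real_btwn.1 hy1
  rw [EReal.coe_lt_coe_iff] at ht2
  obtain ⟨r, hr, hrt⟩ := nhds_basis_closedBall.eventually_iff.1 (eventually_lt_of_limsup_lt ht1)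
  have h : ∀ y, ‖y - z‖ ≤ r → extremal K y ≤ t := fun y hy =>
    (hrt (by rwa [mem_closedBall, dist_eq_norm])).le
  refine ⟨maxV_ge hK hr h, ?_⟩
  obtain ⟨ρ, hρ⟩ := hK.exists_bound_of_continuousOn (f := fun y => y - z) (by fun_prop)
  set L := log (1 + |ρ| / r) with hL
  have hL0 : 0 ≤ L := log_nonneg (le_add_of_nonneg_right (by positivity))
  obtain ⟨q, hq⟩ := exists_nat_gt (2 * (L + |t|) / (T - t))
  have hTt : 0 < T - t := sub_pos.2 ht2
  have hq0 : (0 : ℝ) < q := lt_of_le_of_lt (by positivity) hq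
  have hq0' : 0 < q := by exact_mod_cast hq0
  set c := (T - t) / (4 * (6 * q) ^ n) with hc
  have hc0 : 0 < c := by positivity
  have hk : Tendsto (fun j => (p j).totalDegree + (p j).totalDegree / q) atTop atTop :=
    tendsto_atTop_mono (fun _ => Nat.le_add_right _ _) hd
  refine ⟨c, hc0, hk.frequently ((frequently_lt_of_lt_limsup (by isBoundedDefault) hy2).mp ?_)⟩
  filter_upwards [hd.eventually_ge_atTop q, hd.eventually_ge_atTop n,
    hk.eventually (eventually_le_exp n (μ.real univ + 1) 2 hc0)] with j h1 h2 h3 h4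
  set d := (p j).totalDegree with hdj
  set k := d + d / q with hkdef
  have hd0 : 0 < d := hq0'.trans_le h1
  have hd0' : (0 : ℝ) < d := by exact_mod_cast hd0
  have hk0 : 0 < k := Nat.add_pos_left hd0 _
  rw [one_div, ENNReal.lt_rpow_inv_iff hd0', eLpNorm_eq hci,
    ENNReal.ofReal_rpow_of_pos (exp_pos _)] at h4
  have h5 : eval z (p j) ≠ 0 := fun h0 => by simp [h0] at h4
  have h6 : exp (2 * d * T) * l2 μ (p j) ≤ ‖eval z (p j)‖ ^ 2 := by
    have := h4.le
    rw [ENNReal.le_div_iff_mul_le (Or.inr (by simp [h5])) (Or.inr enorm_ne_top),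
      ← ENNReal.ofReal_mul (by positivity), ← ofReal_norm,
      ENNReal.ofReal_le_ofReal_iff (norm_nonneg _)] at this
    have := pow_le_pow_left₀ (by positivity) this 2
    rw [mul_pow, sq_sqrt (l2_nonneg _), ← exp_mul, ← exp_nat_mul] at this
    refine le_of_eq_of_le ?_ this
    congr 2; push_cast; ring
  obtain ⟨F, hF, hdet, hF1, -⟩ := exists_fekete hK (unisolvent hr h hk0)
  let Φ : (Idx n (d / q) → ℂ) →ₗ[ℂ] (Idx n k → ℂ) :=
    coefs k ∘ₗ LinearMap.mulLeft ℂ (p j) ∘ₗ polyOf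
  have hΦ : ∀ c', polyOf (Φ c') = p j * polyOf c' := fun c' =>
    polyOf_coefs ((totalDegree_mul _ _).trans (add_le_add le_rfl (totalDegree_polyOf c')))
  have hΦi : Function.Injective Φ := by
    rw [injective_iff_map_eq_zero]
    intro c' hc'
    have := hΦ c'
    rw [hc', map_zero, eq_comm, mul_eq_zero] at this
    rw [← coefs_polyOf c', this.resolve_left (hp j), map_zero]
  have hN := one_le_NN n k
  have hm : 0 ≤ μ.real univ := measureReal_nonneg
  have key := det_le_sub (gram_psd hci continuous_const fun _ => zero_le_one) hF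
    (c := (μ.real univ + 1) * NN n k) (ε := exp (-(d * (T - t)))) (by positivity) (exp_pos _)
    (LinearMap.range Φ) (m := NN n (d / q)) (by rw [LinearMap.finrank_range_of_inj hΦi]; simp)
    (fun x => by
      have hq := qf_nonneg hF.posSemidef x
      have := l2_le hci hμ (polyOf x) fun z hz => by rw [eval_polyOf]; exact hF1 z hz x
      rw [qf_mu hci]
      nlinarith [mul_nonneg (zero_le_one.trans hN) hq])
    (by
      rintro _ ⟨c', rfl⟩
      have hq' := qf_nonneg hF.posSemidef (Φ c')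
      set S := NN n k * qf F (Φ c') with hS
      have hS0 : 0 ≤ S := by positivity
      have a1 : ∀ w ∈ K, ‖eval z (p j)‖ * ‖eval w (polyOf c')‖ ≤
          exp ((d / q : ℕ) * L + k * t) * √S := fun w hw => by
        refine (mul_bound (p j) (polyOf c') (totalDegree_polyOf c') z w hr
          (T := exp (k * t) * √S) fun y hy => ?_).trans ?_
        · rw [← map_mul, ← hΦ]
          exact norm_eval_le (totalDegree_polyOf _) hk0 (sqrt_nonneg _) (fun u hu => by
            rw [eval_polyOf]; exact Real.le_sqrt_of_sq_le (hF1 u hu _)) (h y hy)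
        · rw [Real.exp_add, mul_assoc, exp_nat_mul L, hL, exp_log (by positivity)]
          gcongr
          exact (hρ w hw).trans (le_abs_self _)
      have hpz : 0 < ‖eval z (p j)‖ ^ 2 := by positivity
      have a2 : l2 μ (p j * polyOf c') ≤
          (exp ((d / q : ℕ) * L + k * t) * √S) ^ 2 / ‖eval z (p j)‖ ^ 2 * l2 μ (p j) := by
        rw [l2, l2, ← integral_const_mul]
        have c1 := continuous_eval (p j)
        have c2 := continuous_eval (p j * polyOf c')
        refine integral_mono_ae (hci.real (by fun_prop)) (hci.real (by fun_prop)) ?_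
        filter_upwards [show ∀ᵐ z ∂μ, z ∈ K from hμ] with w hw
        rw [map_mul, norm_mul, mul_pow, mul_comm]
        refine mul_le_mul_of_nonneg_right ?_ (sq_nonneg _)
        rw [le_div_iff₀' hpz, ← mul_pow]
        exact pow_le_pow_left₀ (by positivity) (a1 w hw) 2
      rw [qf_mu hci, hΦ]
      refine a2.trans ?_
      rw [← le_div_iff₀' (exp_pos _)] at h6
      refine (mul_le_mul_of_nonneg_left h6 (by positivity)).trans ?_
      rw [div_mul_div_comm, mul_comm (‖_‖ ^ 2), mul_div_mul_right _ _ hpz.ne', mul_pow,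
        sq_sqrt hS0, ← exp_nat_mul, mul_div_right_comm, ← Real.exp_sub, mul_assoc (exp _),
        mul_assoc (μ.real univ + 1)]
      refine mul_le_mul (exp_le_exp.2 ?_)
        (le_mul_of_one_le_left hS0 (le_add_of_nonneg_left hm)) hS0
        (exp_pos _).le
      have b1 : ((d / q : ℕ) : ℝ) ≤ d / q := Nat.cast_div_le
      rw [le_div_iff₀ hq0] at b1
      rw [div_lt_iff₀ hTt] at hq
      have b2 : ((d / q : ℕ) : ℝ) * (2 * (L + |t|)) ≤ d * (T - t) :=
        (mul_le_mul_of_nonneg_left hq.le (by positivity)).trans (by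
          rw [← mul_assoc]; exact mul_le_mul_of_nonneg_right b1 hTt.le)
      have b3 := mul_le_mul_of_nonneg_left (le_abs_self t) (Nat.cast_nonneg (α := ℝ) (d / q))
      rw [hkdef]
      push_cast
      linarith)
  rw [andreief hci, hdet] at *
  have a3 : ((NN n k).factorial : ℝ) ≤ (NN n k : ℝ) ^ NN n k := by
    exact_mod_cast Nat.factorial_le_pow _
  refine (mul_le_mul a3 key (det_re_nonneg (gram_psd hci continuous_const fun _ => zero_le_one))
    (by positivity)).trans ?_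
  rw [← mul_assoc, mul_left_comm, ← mul_pow]
  refine mul_le_mul_of_nonneg_right ?_ (sq_nonneg _)
  have a4 := pow_le_pow_left₀ (by positivity) h3 (NN n k)
  rw [show (NN n k : ℝ) * ((μ.real univ + 1) * NN n k) = (μ.real univ + 1) * (NN n k : ℝ) ^ 2 by
    ring]
  refine (mul_le_mul_of_nonneg_left a4 (by positivity)).trans ?_
  rw [← exp_nat_mul, ← exp_nat_mul, ← Real.exp_add, exp_le_exp]
  have b1 := NN_ratio hq0' h1 h2
  have b2 : (k : ℝ) ≤ 2 * d := by
    have : k ≤ 2 * d := by have := Nat.div_le_self d q; omega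
    exact_mod_cast this
  have b3 := mul_le_mul b2 b1 (by positivity) (by positivity)
  have b4 := mul_le_mul_of_nonneg_left b3 (show 0 ≤ 2 * c by positivity)
  have b5 : 2 * c * (2 * d * ((6 * q) ^ n * NN n (d / q))) = NN n (d / q) * (d * (T - t)) := by
    rw [hc]; field_simp; ring
  linarith

end Pool.Agent.Lib.MP_a839f6_an
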