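import Pool.Agent.Lib.MP_a839f6_an.Avg

namespace Pool.Agent.Lib.MP_a839f6_an

open Matrix Filter Topology Set Real MvPolynomial MonomialOrder
open scoped ComplexOrder

variable {n k : ℕ} {K : Set (Fin n → ℂ)}

/-- logarithmic bounds of monic polynomials with a given leading exponent -/
def chebSet (K : Set (Fin n → ℂ)) (d : Fin n →₀ ℕ) : Set ℝ :=
  {s | ∃ p : MvPolynomial (Fin n) ℂ, degLex.Monic p ∧ degLex.degree p = d ∧
    ∀ z ∈ K, ‖eval z p‖ ≤ exp s}

lemma cheb_mem (hK : IsCompact K) : ∃ C : ℝ, 0 ≤ C ∧ ∀ d, C * d.degree ∈ chebSet K d := by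
  obtain ⟨ρ, hρ⟩ := hK.exists_bound_of_continuousOn (f := fun y => y) (by fun_prop)
  refine ⟨|ρ|, abs_nonneg _, fun d => ⟨monomial d 1, monic_monomial_one, by
    simp [degree_monomial], fun z hz => ?_⟩⟩
  rw [eval_monomial, one_mul, Finsupp.prod_fintype _ _ (by simp), norm_prod, Finsupp.degree_eq_sum,
    mul_comm, exp_nat_mul, ← Finset.prod_pow_eq_pow_sum]
  refine Finset.prod_le_prod (fun _ _ => norm_nonneg _) fun i _ => ?_
  rw [norm_pow]
  refine pow_le_pow_left₀ (norm_nonneg _) ((norm_le_pi_norm z i).trans ((hρ z hz).trans ?_)) _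
  linarith [le_abs_self ρ, add_one_le_exp |ρ|]

lemma cheb_add {d e : Fin n →₀ ℕ} {s t : ℝ} (hs : s ∈ chebSet K d) (ht : t ∈ chebSet K e) :
    s + t ∈ chebSet K (d + e) := by
  obtain ⟨p, hp, rfl, hp'⟩ := hs
  obtain ⟨q, hq, rfl, hq'⟩ := ht
  refine ⟨p * q, hp.mul hq, degree_mul hp.ne_zero hq.ne_zero, fun z hz => ?_⟩
  rw [map_mul, norm_mul, Real.exp_add]
  exact mul_le_mul (hp' z hz) (hq' z hz) (norm_nonneg _) (exp_pos _).le

lemma cheb_lower {z₀ : Fin n → ℂ} {r t : ℝ} (hr : 0 < r)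
    (h : ∀ y, ‖y - z₀‖ ≤ r → extremal K y ≤ t) :
    ∃ T : ℝ, 0 ≤ T ∧ ∀ d, ∀ s ∈ chebSet K d, -(T * d.degree) ≤ s := by
  refine ⟨|t + log (1 + (1 + ‖z₀‖) / r)|, abs_nonneg _, ?_⟩
  rintro _ s ⟨p, hp, rfl, hp'⟩
  by_cases h0 : degLex.degree p = 0
  · obtain ⟨z, hz⟩ : K.Nonempty := by
      by_contra hne
      have := unisolvent hr h one_pos (fun _ => 1) fun z hz => absurd ⟨z, hz⟩ hne
      exact one_ne_zero (congrFun this (Classical.arbitrary _))
    have := hp' z hz
    rw [eq_C_of_degree_eq_zero h0, hp.leadingCoeff_eq_one, eval_C, norm_one, one_le_exp_iff] at this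
    simpa [h0] using this
  · set k := (degLex.degree p).degree with hk
    have hk0 : 0 < k := Nat.pos_of_ne_zero fun h1 => h0 (Finsupp.degree_eq_zero_iff _ |>.1 h1)
    have hp1 : p.totalDegree ≤ k := degree_degLexDegree.ge
    have h1 := coef_le hr h hk0 (coefs k p) (exp_pos s).le fun z hz => by
      rw [← eval_eq_coefs hp1]; exact hp' z hz
    obtain ⟨α, hα⟩ := exists_expo (k := k) (d := degLex.degree p)
      (by rw [hk, Finsupp.degree_eq_sum])
    have h2 := (Finset.single_le_sum (f := fun α => ‖coefs k p α‖ ^ 2) (fun _ _ => sq_nonneg _)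
      (Finset.mem_univ α)).trans h1
    rw [coefs_apply, hα, hp.coeff_degree, norm_one, one_pow, ← Real.exp_add, ← exp_nat_mul,
      one_le_exp_iff] at h2
    have := mul_le_mul_of_nonneg_left (le_abs_self (t + log (1 + (1 + ‖z₀‖) / r)))
      (Nat.cast_nonneg (α := ℝ) k)
    push_cast at h2
    linarith

lemma w_inj : Function.Injective fun α : Idx n k => degLex.toSyn (expo α) :=
  degLex.toSyn.injective.comp expo_injective

lemma maxV_le_cheb (hK : IsCompact K)
    (h : ∀ c : Idx n k → ℂ, (∀ z ∈ K, c ⬝ᵥ mono k z = 0) → c = 0) {s : Idx n k → ℝ}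
    (hs : ∀ α, s α ∈ chebSet K (expo α)) :
    maxV K k ^ 2 ≤ NN n k ^ NN n k * exp (2 * ∑ α, s α) := by
  obtain ⟨F, hF, hdet, -, h2⟩ := exists_fekete hK h
  choose p hp hd hb using hs
  let U : Matrix (Idx n k) (Idx n k) ℂ := Matrix.of fun β α => coefs k (p α) β
  have hN := one_le_NN n k
  rw [← hdet, ← det_conj_one w_inj F (U := U)
    (fun i j hij => coeff_eq_zero_of_lt (m := degLex) (by rw [hd]; exact hij))
    (fun i => by have := (hp i).coeff_degree; rwa [hd] at this)]
  refine (det_le_prod (hF.posSemidef.conjTranspose_mul_mul_same U)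
    (d := fun α => NN n k * exp (2 * s α)) (fun _ => by positivity) fun α => ?_).trans_eq ?_
  · rw [conj_diag]
    refine h2 (coefs k (p α)) _ fun z hz => ?_
    rw [← eval_eq_coefs (by rw [← degree_degLexDegree, hd]; exact degree_expo α), two_mul,
      Real.exp_add, ← sq]
    exact pow_le_pow_left₀ (norm_nonneg _) (hb α z hz) 2
  · rw [Finset.prod_mul_distrib, Finset.prod_const, Finset.card_univ, ← exp_sum, Finset.mul_sum]

lemma cheb_le_maxV (hK : IsCompact K)
    (h : ∀ c : Idx n k → ℂ, (∀ z ∈ K, c ⬝ᵥ mono k z = 0) → c = 0) :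
    ∃ s : Idx n k → ℝ, (∀ α, s α ∈ chebSet K (expo α)) ∧
      exp (2 * ∑ α, s α) = NN n k ^ NN n k * maxV K k ^ 2 := by
  obtain ⟨F, hF, hdet, h1, -⟩ := exists_fekete hK h
  obtain ⟨U, hU, hU1, hd⟩ := exists_ldl w_inj hF
  have hN := one_le_NN n k
  have hpos : ∀ α, 0 < NN n k * qf F fun j => U j α := fun α =>
    mul_pos (by positivity) (Complex.pos_iff.1 (hF.dotProduct_mulVec_pos (x := fun j => U j α) fun h0 =>
      one_ne_zero ((hU1 α).symm.trans (congrFun h0 α)))).1
  refine ⟨fun α => log (NN n k * qf F fun j => U j α) / 2, fun α => ?_, ?_⟩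
  · have hc : ∀ β, coeff (expo β) (polyOf fun j => U j α) = U β α := fun β => by
      rw [← coefs_apply, coefs_polyOf]
    have hdeg : degLex.degree (polyOf fun j => U j α) = expo α := by
      refine degLex.toSyn.injective (le_antisymm (degree_le_iff.2 fun d hd => ?_)
        (le_degree (by rw [mem_support_iff, hc, hU1]; exact one_ne_zero)))
      obtain ⟨β, rfl⟩ := exists_expo (k := k) (d := d) (by
        rw [← Finsupp.degree_eq_sum]
        exact (le_totalDegree hd).trans (totalDegree_polyOf _))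
      rw [mem_support_iff, hc] at hd
      exact not_lt.1 fun hlt => hd (hU β α hlt)
    refine ⟨polyOf fun j => U j α, ?_, hdeg, fun z hz => ?_⟩
    · rw [MonomialOrder.Monic, MonomialOrder.leadingCoeff, hdeg, hc, hU1]
    · rw [exp_half, exp_log (hpos α), eval_polyOf]
      exact Real.le_sqrt_of_sq_le (h1 z hz _)
  · rw [Finset.mul_sum, exp_sum, ← hdet, hd, Finset.prod_congr rfl fun α _ => by
      rw [mul_div_cancel₀ _ two_ne_zero, exp_log (hpos α)], Finset.prod_mul_distrib,
      Finset.prod_const, Finset.card_univ]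

lemma zah (hK : IsCompact K) {z₀ : Fin n → ℂ} {r t : ℝ} (hr : 0 < r)
    (h : ∀ y, ‖y - z₀‖ ≤ r → extremal K y ≤ t) : ∃ L : ℝ, ∀ ε > 0, ∀ᶠ k : ℕ in atTop,
      exp ((L - ε) * (k * NN n k)) ≤ maxV K k ^ 2 ∧
        maxV K k ^ 2 ≤ exp ((L + ε) * (k * NN n k)) := by
  obtain ⟨C, hC0, hC⟩ := cheb_mem hK
  obtain ⟨T, hT0, hT⟩ := cheb_lower hr h
  have hb : ∀ d, BddBelow (chebSet K d) := fun d => ⟨_, hT d⟩
  have hne : ∀ d, (chebSet K d).Nonempty := fun d => ⟨_, hC d⟩
  set f : (Fin n →₀ ℕ) → ℝ := fun d => sInf (chebSet K d) with hf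
  have ha : ∀ d e, f (d + e) ≤ f d + f e := fun d e => by
    rw [← sub_le_iff_le_add]
    refine le_csInf (hne d) fun s hs => ?_
    rw [sub_le_comm]
    refine le_csInf (hne e) fun t ht => ?_
    rw [sub_le_iff_le_add']
    exact csInf_le (hb _) (cheb_add hs ht)
  obtain ⟨L₁, h1⟩ := avg_conv (F := fun d => f d + T * d.degree) (C := C + T)
    (fun d => by linarith [le_csInf (hne d) (hT d)])
    (fun d e => by rw [map_add]; push_cast; linarith [ha d e]) (by positivity)
    (fun d => by linarith [csInf_le (hb d) (hC d)])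
  obtain ⟨L₂, h2⟩ := avg_conv (F := fun d : Fin n →₀ ℕ => T * d.degree) (C := T)
    (fun d => by positivity) (fun d e => by rw [map_add]; push_cast; linarith) hT0
    (fun d => le_rfl)
  have h3 : Tendsto (fun k : ℕ => (∑ α : Idx n k, f (expo α)) / (k * NN n k)) atTop
      (𝓝 (L₁ - L₂)) := by
    refine (h1.sub h2).congr fun k => ?_
    rw [← sub_div, Finset.sum_add_distrib, add_sub_cancel_right]
  refine ⟨2 * (L₁ - L₂), fun ε hε => ?_⟩
  filter_upwards [eventually_gt_atTop 0, eventually_le_exp n (exp 2) 1 (half_pos hε),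
    h3.eventually (lt_mem_nhds (sub_lt_self _ (show 0 < ε / 4 by positivity))),
    h3.eventually (gt_mem_nhds (lt_add_of_pos_right _ (show 0 < ε / 4 by positivity)))]
    with k hk e1 e2 e3
  have hN := one_le_NN n k
  have hk' : (0 : ℝ) < k := by exact_mod_cast hk
  rw [lt_div_iff₀ (by positivity)] at e2
  rw [div_lt_iff₀ (by positivity)] at e3
  have e4 := pow_le_pow_left₀ (by positivity) e1 (NN n k)
  rw [pow_one, mul_pow, ← exp_nat_mul, ← exp_nat_mul] at e4
  constructor
  · obtain ⟨s, hs, hs'⟩ := cheb_le_maxV hK (unisolvent hr h hk)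
    have a1 : ∑ α : Idx n k, f (expo α) ≤ ∑ α, s α :=
      Finset.sum_le_sum fun α _ => csInf_le (hb _) (hs α)
    refine le_of_mul_le_mul_left ?_ (show (0 : ℝ) < NN n k ^ NN n k by positivity)
    rw [← hs']
    refine (mul_le_mul_of_nonneg_right ((le_mul_of_one_le_left (by positivity)
      (one_le_exp (by positivity))).trans e4) (exp_pos _).le).trans ?_
    rw [← Real.exp_add, exp_le_exp]
    linarith
  · choose s hs hs' using fun α : Idx n k =>
      exists_lt_of_csInf_lt (hne (expo α)) (lt_add_one (f (expo α)))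
    have a1 : ∑ α, s α ≤ ∑ α : Idx n k, (f (expo α) + 1) := Finset.sum_le_sum fun α _ => (hs' α).le
    rw [Finset.sum_add_distrib, Finset.sum_const, Finset.card_univ, nsmul_one] at a1
    refine (maxV_le_cheb hK (unisolvent hr h hk) hs).trans ?_
    rw [← le_div_iff₀' (exp_pos _)] at e4
    refine (mul_le_mul_of_nonneg_right e4 (exp_pos _).le).trans ?_
    rw [← Real.exp_sub, ← Real.exp_add, exp_le_exp]
    linarith

end Pool.Agent.Lib.MP_a839f6_an
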